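import Mathlib

set_option autoImplicit false

namespace Pool.Agent.Lib.AH

open Set Filter Topology Metric TopologicalSpace

/-- Working form of absolute homogeneity. -/
def IsAH (X : Type*) [MetricSpace X] : Prop :=
  ∀ R : Set (X × X), (∀ a ∈ R, ∀ b ∈ R, dist a.1 b.1 = dist a.2 b.2) →
    ∃ g : X ≃ᵢ X, ∀ a ∈ R, g a.1 = a.2

variable {X : Type*} [MetricSpace X]

theorem ah_of_ext
    (H : ∀ (A B : Set X) (f : A ≃ᵢ B), ∃ g : X ≃ᵢ X, ∀ a : A, g (a : X) = (f a : X)) : IsAH X := by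
  intro R hR
  have hex : ∀ a : (Prod.fst '' R : Set X), ∃ b : (Prod.snd '' R : Set X),
      ((a : X), (b : X)) ∈ R := by
    rintro ⟨_, r, hr, rfl⟩
    exact ⟨⟨r.2, r, hr, rfl⟩, hr⟩
  choose f hf using hex
  have hiso : Isometry f := Isometry.of_dist_eq fun a b => by
    rw [Subtype.dist_eq, Subtype.dist_eq]
    exact (hR _ (hf a) _ (hf b)).symm
  have hval : ∀ r (hr : r ∈ R), (f ⟨r.1, r, hr, rfl⟩ : X) = r.2 := by
    intro r hr
    have := hR _ (hf ⟨r.1, r, hr, rfl⟩) r hr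
    simp only [dist_self] at this
    exact dist_eq_zero.1 this.symm
  have hsurj : Function.Surjective f := by
    rintro ⟨_, r, hr, rfl⟩
    exact ⟨⟨r.1, r, hr, rfl⟩, Subtype.ext (hval r hr)⟩
  obtain ⟨g, hg⟩ := H _ _ ⟨Equiv.ofBijective f ⟨hiso.injective, hsurj⟩, hiso⟩
  refine ⟨g, fun r hr => ?_⟩
  exact (hg ⟨r.1, r, hr, rfl⟩).trans (hval r hr)

theorem IsAH.fam (H : IsAH X) {ι : Type*} (u v : ι → X)
    (h : ∀ i j, dist (u i) (u j) = dist (v i) (v j)) : ∃ g : X ≃ᵢ X, ∀ i, g (u i) = v i := by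
  obtain ⟨g, hg⟩ := H (range fun i => (u i, v i)) (by
    rintro _ ⟨i, rfl⟩ _ ⟨j, rfl⟩
    exact h i j)
  exact ⟨g, fun i => hg _ ⟨i, rfl⟩⟩

theorem IsAH.three (H : IsAH X) {a b c a' b' c' : X} (h1 : dist a b = dist a' b')
    (h2 : dist a c = dist a' c') (h3 : dist b c = dist b' c') :
    ∃ g : X ≃ᵢ X, g a = a' ∧ g b = b' ∧ g c = c' := by
  obtain ⟨g, hg⟩ := H {(a, a'), (b, b'), (c, c')} (by
    have k1 : dist b a = dist b' a' := by rw [dist_comm, h1, dist_comm]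
    have k2 : dist c a = dist c' a' := by rw [dist_comm, h2, dist_comm]
    have k3 : dist c b = dist c' b' := by rw [dist_comm, h3, dist_comm]
    rintro _ (rfl | rfl | rfl) _ (rfl | rfl | rfl) <;> simp [*])
  exact ⟨g, hg (a, a') (by simp), hg (b, b') (by simp), hg (c, c') (by simp)⟩

theorem IsAH.two (H : IsAH X) {a b a' b' : X} (h1 : dist a b = dist a' b') :
    ∃ g : X ≃ᵢ X, g a = a' ∧ g b = b' := by
  obtain ⟨g, h, h', -⟩ := H.three (a := a) (b := b) (c := b) (a' := a') (b' := b') (c' := b')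
    h1 h1 (by simp)
  exact ⟨g, h, h'⟩

theorem IsAH.one (H : IsAH X) (a a' : X) : ∃ g : X ≃ᵢ X, g a = a' := by
  obtain ⟨g, h, -⟩ := H.two (a := a) (b := a) (a' := a') (b' := a') (by simp)
  exact ⟨g, h⟩

theorem IsAH.sph (H : IsAH X) (x : X) (s : ℝ) : IsAH (sphere x s) := by
  intro R hR
  obtain ⟨g, hg⟩ := H (insert (x, x) ((fun r : sphere x s × sphere x s => ((r.1 : X), (r.2 : X)))
      '' R)) (by
    rintro _ (rfl | ⟨a, ha, rfl⟩) _ (rfl | ⟨b, hb, rfl⟩)
    · rfl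
    · simp only
      rw [dist_comm x, dist_comm x, mem_sphere.1 b.1.2, mem_sphere.1 b.2.2]
    · simp only
      rw [mem_sphere.1 a.1.2, mem_sphere.1 a.2.2]
    · exact hR a ha b hb)
  have hx : g x = x := hg (x, x) (Or.inl rfl)
  have hx' : g.symm x = x := by
    conv_lhs => rw [← hx]
    exact g.symm_apply_apply x
  have m1 : ∀ y : sphere x s, g y ∈ sphere x s := fun y => by
    have := g.dist_eq y x
    rw [hx] at this
    rw [mem_sphere, this]; exact y.2
  have m2 : ∀ y : sphere x s, g.symm y ∈ sphere x s := fun y => by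
    have := g.symm.dist_eq y x
    rw [hx'] at this
    rw [mem_sphere, this]; exact y.2
  refine ⟨⟨⟨fun y => ⟨g y, m1 y⟩, fun y => ⟨g.symm y, m2 y⟩,
    fun y => Subtype.ext (g.symm_apply_apply y), fun y => Subtype.ext (g.apply_symm_apply y)⟩,
    Isometry.of_dist_eq fun a b => g.dist_eq a b⟩, fun r hr => ?_⟩
  exact Subtype.ext (hg _ (Or.inr ⟨r, hr, rfl⟩))

/-- An open mapping theorem for homogeneous maps. -/
theorem open_of_homog {P Q : Type*} [MetricSpace P] [MetricSpace Q] [CompleteSpace P]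
    [CompleteSpace Q] [SeparableSpace P] (π : P → Q) (hc : Continuous π)
    (hs : Function.Surjective π)
    (hh : ∀ u u' : P, ∃ (φ : P → P) (ψ : Q ≃ᵢ Q), Isometry φ ∧ φ u = u' ∧
      ∀ w, π (φ w) = ψ (π w)) (u0 : P) {ε : ℝ} (hε : 0 < ε) :
    ∃ δ > 0, ∀ q, dist q (π u0) < δ → ∃ w, π w = q ∧ dist w u0 < ε := by
  have step1 : ∀ η > 0, ∃ δ > 0, ∀ u q, dist q (π u) < δ → q ∈ closure (π '' ball u η) := by
    intro η hη
    have : Nonempty P := ⟨u0⟩
    have : Nonempty Q := ⟨π u0⟩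
    obtain ⟨c, hcd⟩ := exists_dense_seq P
    obtain ⟨n, q0, hq0⟩ := nonempty_interior_of_iUnion_of_closed
      (f := fun n => closure (π '' ball (c n) (η / 2))) (fun n => isClosed_closure) (by
        refine eq_univ_of_forall fun q => ?_
        obtain ⟨w, rfl⟩ := hs q
        obtain ⟨n, hn⟩ := hcd.exists_dist_lt w (half_pos hη)
        exact mem_iUnion.2 ⟨n, subset_closure ⟨w, hn, rfl⟩⟩)
    obtain ⟨_, hq1, w, hw, rfl⟩ := mem_closure_iff.1 (interior_subset hq0) _ isOpen_interior hq0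
    obtain ⟨δ, hδ, hb⟩ := Metric.isOpen_iff.1 isOpen_interior _ hq1
    refine ⟨δ, hδ, fun u q hq => ?_⟩
    obtain ⟨φ, ψ, hφ, hu, hcomm⟩ := hh w u
    have h1 : ψ.symm q ∈ closure (π '' ball (c n) (η / 2)) := by
      refine interior_subset (hb ?_)
      rw [mem_ball, ← ψ.dist_eq, ψ.apply_symm_apply, ← hcomm, hu]
      exact hq
    refine Metric.mem_closure_iff.2 fun r hr => ?_
    obtain ⟨_, ⟨w', hw', rfl⟩, hd⟩ := Metric.mem_closure_iff.1 h1 r hr
    refine ⟨π (φ w'), ⟨φ w', ?_, rfl⟩, ?_⟩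
    · rw [mem_ball, ← hu, hφ.dist_eq]
      have := dist_triangle_right w' w (c n)
      rw [mem_ball] at hw hw'
      linarith
    · rw [hcomm, ← ψ.apply_symm_apply q, ψ.dist_eq]
      exact hd
  have hpos : ∀ k : ℕ, 0 < ε / 2 / 2 / 2 ^ k := fun k => by positivity
  choose δ hδ hcl using fun k : ℕ => step1 _ (hpos k)
  refine ⟨δ 0, hδ 0, fun q hq => ?_⟩
  have step2 : ∀ (k : ℕ) (u : P), dist q (π u) < δ k → ∃ u', dist u u' < ε / 2 / 2 / 2 ^ k ∧
      dist q (π u') < δ (k + 1) ∧ dist q (π u') < 1 / ((k : ℝ) + 1) := by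
    intro k u hu
    obtain ⟨_, ⟨u', hu', rfl⟩, hd⟩ := Metric.mem_closure_iff.1 (hcl k u q hu)
      (min (δ (k + 1)) (1 / ((k : ℝ) + 1))) (lt_min (hδ _) Nat.one_div_pos_of_nat)
    exact ⟨u', by rw [dist_comm]; exact hu', (lt_min_iff.1 hd).1, (lt_min_iff.1 hd).2⟩
  choose! nx hnx using step2
  let s : ℕ → P := fun k => Nat.rec u0 (fun k u => nx k u) k
  have hs0 : s 0 = u0 := rfl
  have hss : ∀ k, s (k + 1) = nx k (s k) := fun k => rfl
  have hinv : ∀ k, dist q (π (s k)) < δ k := by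
    intro k
    induction k with
    | zero => exact hq
    | succ k ih => rw [hss]; exact (hnx k _ ih).2.1
  have hd : ∀ k, dist (s k) (s (k + 1)) ≤ ε / 2 / 2 / 2 ^ k := fun k => by
    rw [hss]; exact (hnx k _ (hinv k)).1.le
  obtain ⟨w, hw⟩ := cauchySeq_tendsto_of_complete (cauchySeq_of_le_geometric_two hd)
  have hw0 := dist_le_of_le_geometric_two_of_tendsto₀ hd hw
  refine ⟨w, ?_, by rw [dist_comm, ← hs0]; linarith⟩
  have t1 : Tendsto (fun k => π (s (k + 1))) atTop (𝓝 (π w)) :=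
    (hc.tendsto w).comp (hw.comp (tendsto_add_atTop_nat 1))
  have t2 : Tendsto (fun k => π (s (k + 1))) atTop (𝓝 q) := by
    rw [tendsto_iff_dist_tendsto_zero]
    refine squeeze_zero (fun k => dist_nonneg) (fun k => ?_) tendsto_one_div_add_atTop_nhds_zero_nat
    rw [dist_comm, hss]
    exact (hnx k _ (hinv k)).2.2.le
  exact tendsto_nhds_unique t1 t2

/-- Micro-transitivity: a small move of one point is done by an isometry that moves two given
further points only a little. -/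
theorem IsAH.effros [CompleteSpace X] [SeparableSpace X] (H : IsAH X) (x u v : X) {ε : ℝ}
    (hε : 0 < ε) : ∃ δ > 0, ∀ x', dist x' x < δ →
      ∃ g : X ≃ᵢ X, g x = x' ∧ dist (g u) u < ε ∧ dist (g v) v < ε := by
  let O : Set (X × X × X) := {k | dist k.1 k.2.1 = dist x u ∧ dist k.1 k.2.2 = dist x v ∧
    dist k.2.1 k.2.2 = dist u v}
  have hO : IsClosed O := (isClosed_eq (by fun_prop) continuous_const).inter
    ((isClosed_eq (by fun_prop) continuous_const).inter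
      (isClosed_eq (by fun_prop) continuous_const))
  have : CompleteSpace O := hO.completeSpace_coe
  have : SecondCountableTopology X := UniformSpace.secondCountable_of_separable X
  have hmap : ∀ (g : X ≃ᵢ X) (k : O), (g k.1.1, g k.1.2.1, g k.1.2.2) ∈ O := fun g k => by
    simp only [O, mem_ofPred_eq, g.dist_eq]
    exact k.2
  obtain ⟨δ, hδ, h⟩ := open_of_homog (P := O) (Q := X) (fun k => k.1.1) (by fun_prop)
    (fun q => by
      obtain ⟨g, hg⟩ := H.one x q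
      exact ⟨⟨_, hmap g ⟨(x, u, v), rfl, rfl, rfl⟩⟩, hg⟩)
    (fun k k' => by
      obtain ⟨g, h1, h2, h3⟩ := H.three (k.2.1.trans k'.2.1.symm) (k.2.2.1.trans k'.2.2.1.symm)
        (k.2.2.2.trans k'.2.2.2.symm)
      refine ⟨fun w => ⟨_, hmap g w⟩, g, Isometry.of_dist_eq fun a b => ?_,
        Subtype.ext (Prod.ext h1 (Prod.ext h2 h3)), fun w => rfl⟩
      simp only [Subtype.dist_eq, Prod.dist_eq, g.dist_eq])
    ⟨(x, u, v), rfl, rfl, rfl⟩ hε
  refine ⟨δ, hδ, fun x' hx' => ?_⟩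
  obtain ⟨⟨⟨a, b, c⟩, h1, h2, h3⟩, ha, hd⟩ := h x' hx'
  simp only [Subtype.dist_eq, Prod.dist_eq, max_lt_iff] at hd ha h1 h2 h3
  obtain ⟨g, k1, k2, k3⟩ := H.three h1.symm h2.symm h3.symm
  exact ⟨g, k1.trans ha, by rw [k2]; exact hd.2.1, by rw [k3]; exact hd.2.2⟩

theorem joinedIn_sphere_map (g : X ≃ᵢ X) {x w w' : X} {a : ℝ}
    (h : JoinedIn (sphere x a) w w') : JoinedIn (sphere (g x) a) (g w) (g w') :=
  (h.map g.continuous).mono (by
    rintro _ ⟨y, hy, rfl⟩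
    rw [mem_sphere, g.dist_eq]; exact hy)

end Pool.Agent.Lib.AH
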