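import Pool.Agent.Lib.AH.Sphere

set_option autoImplicit false

namespace Pool.Agent.Lib.AH

open Set Filter Topology Metric TopologicalSpace

universe u

/-- A fixed free ultrafilter on the natural numbers. -/
noncomputable def UU : Filter ℕ := (hyperfilter ℕ : Filter ℕ)

instance UU_neBot : UU.NeBot := (hyperfilter ℕ).neBot

theorem UU_le : UU ≤ atTop := Nat.hyperfilter_le_atTop

theorem exists_ulim (f : ℕ → ℝ) {a b : ℝ} (h : ∀ n, f n ∈ Icc a b) :
    ∃ r ∈ Icc a b, Tendsto f UU (𝓝 r) := by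
  obtain ⟨r, hr, hle⟩ := isCompact_Icc.ultrafilter_le_nhds ((hyperfilter ℕ).map f)
    (le_principal_iff.2 (mem_map.2 (Eventually.of_forall h)))
  exact ⟨r, hr, hle⟩

section
variable {X : Type*} [MetricSpace X]

/-- The sequence `z` has limit distance function `φ` and limit mutual distance `h`. -/
def Asy (z : ℕ → X) (φ : X → ℝ) (h : ℝ) : Prop :=
  (∀ q, Tendsto (fun j => dist q (z j)) UU (𝓝 (φ q))) ∧ Tendsto (fun l => φ (z l)) UU (𝓝 h)

theorem lim_lip {f g : ℕ → ℝ} {a b c : ℝ} (hf : Tendsto f UU (𝓝 a)) (hg : Tendsto g UU (𝓝 b))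
    (h : ∀ n, |f n - g n| ≤ c) : |a - b| ≤ c :=
  le_of_tendsto' (hf.sub hg).abs h

theorem tendsto_of_close {f g d : ℕ → ℝ} {a : ℝ} (hf : Tendsto f UU (𝓝 a))
    (hd : Tendsto d UU (𝓝 0)) (h : ∀ n, |g n - f n| ≤ d n) : Tendsto g UU (𝓝 a) := by
  have : Tendsto (fun n => g n - f n) UU (𝓝 0) :=
    squeeze_zero_norm (fun n => by rw [Real.norm_eq_abs]; exact h n) hd
  simpa using this.add hf

theorem Asy.move {z v : ℕ → X} {φ : X → ℝ} {h : ℝ} (hz : Asy z φ h)
    (hd : Tendsto (fun j => dist (z j) (v j)) UU (𝓝 0)) : Asy v φ h := by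
  refine ⟨fun q => tendsto_of_close (hz.1 q) hd fun n => ?_, tendsto_of_close hz.2 hd fun n => ?_⟩
  · rw [dist_comm q, dist_comm q, dist_comm (z n) (v n)]; exact abs_dist_sub_le _ _ _
  · refine lim_lip (hz.1 _) (hz.1 _) fun m => ?_
    rw [dist_comm (z n) (v n)]; exact abs_dist_sub_le _ _ _

theorem Asy.sep {z : ℕ → X} {φ : X → ℝ} {h t : ℝ} (hz : Asy z φ h) (ht : t < h) :
    ∀ᶠ l in UU, ∀ᶠ j in UU, t < dist (z l) (z j) := by
  filter_upwards [hz.2.eventually (lt_mem_nhds ht)] with l hl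
  exact (hz.1 (z l)).eventually (lt_mem_nhds hl)

/-- Some sphere carries a sequence whose limit mutual distance exceeds `s`. -/
def Big (X : Type*) [MetricSpace X] (s : ℝ) : Prop :=
  ∃ t > s, ∃ (y0 : X) (y : ℕ → X) (r : ℝ), (∀ j, dist y0 (y j) = r) ∧
    ∀ᶠ l in UU, ∀ᶠ j in UU, t < dist (y l) (y j)

theorem Big.mono {s s' : ℝ} (h : Big X s) (hs : s' ≤ s) : Big X s' := by
  obtain ⟨t, ht, h⟩ := h
  exact ⟨t, hs.trans_lt ht, h⟩

theorem three_of_sep {y : ℕ → X} {t : ℝ}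
    (h : ∀ᶠ l in UU, ∀ᶠ j in UU, t < dist (y l) (y j)) :
    ∃ i j k, t < dist (y i) (y j) ∧ t < dist (y i) (y k) ∧ t < dist (y j) (y k) := by
  obtain ⟨i, hi⟩ := h.exists
  obtain ⟨j, hj, hij⟩ := (h.and hi).exists
  obtain ⟨k, h1, h2⟩ := (hi.and hj).exists
  exact ⟨i, j, k, hij, h1, h2⟩

theorem IsAH.move_sphere [PathConnectedSpace X] (H : IsAH X) {s : ℝ}
    (hs : ∃ p q : X, dist p q = s) (p : X) {z : ℕ → X}
    (hz : Tendsto (fun j => dist p (z j)) UU (𝓝 s)) :
    ∃ v : ℕ → X, (∀ j, v j ∈ sphere p s) ∧ Tendsto (fun j => dist (z j) (v j)) UU (𝓝 0) := by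
  have hne : (sphere p s).Nonempty := by
    obtain ⟨p0, q0, h⟩ := hs
    obtain ⟨w, hw⟩ := H.realized' p p0 q0 dist_nonneg le_rfl
    exact ⟨w, by rw [mem_sphere, dist_comm, hw, h]⟩
  have hv : ∀ j : ℕ, ∃ v ∈ sphere p s,
      dist (z j) v < infDist (z j) (sphere p s) + 1 / ((j : ℝ) + 1) := fun j =>
    (infDist_lt_iff hne).1 (lt_add_of_pos_right _ Nat.one_div_pos_of_nat)
  choose v hv1 hv2 using hv
  refine ⟨v, hv1, squeeze_zero (fun j => dist_nonneg) (fun j => (hv2 j).le) ?_⟩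
  have t1 : Tendsto (fun j => infDist (z j) (sphere p s)) UU (𝓝 0) := by
    refine Metric.tendsto_nhds.2 fun ε hε => ?_
    obtain ⟨δ, hδ, h⟩ := H.std_pt hs hε
    filter_upwards [Metric.tendsto_nhds.1 hz δ hδ] with j hj
    obtain ⟨w, w1, w2⟩ := h p (z j) hj
    rw [Real.dist_eq, sub_zero, abs_of_nonneg infDist_nonneg]
    exact (infDist_le_dist_of_mem (by rw [mem_sphere, dist_comm, w1])).trans_lt w2
  simpa using t1.add (tendsto_one_div_add_atTop_nhds_zero_nat.mono_left UU_le)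

theorem IsAH.lemA [PathConnectedSpace X] (H : IsAH X) {t r : ℝ} {y0 : X} {y : ℕ → X}
    (hy : ∀ j, dist y0 (y j) = r) (hsep : ∀ᶠ l in UU, ∀ᶠ j in UU, t < dist (y l) (y j))
    {s sm sp : ℝ} (h0 : 0 ≤ sm) (h1 : sm < s) (h2 : s < sp) (h3 : sp ≤ t) :
    ∃ (p : X) (z : ℕ → X) (φ : X → ℝ) (h : ℝ), Asy z φ h ∧ φ p = s ∧ h ∈ Icc sm sp := by
  choose g g1 g2 using fun j => H.two ((hy 0).trans (hy j).symm)
  have gd : ∀ j w, dist y0 (g j w) = dist y0 w := fun j w => by
    conv_lhs => rw [← g1 j, (g j).dist_eq]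
  have e1 : ∀ w p : X, ∃ r ∈ Icc 0 (dist p y0 + dist y0 w),
      Tendsto (fun j => dist p (g j w)) UU (𝓝 r) := fun w p =>
    exists_ulim _ fun j => ⟨dist_nonneg, by rw [← gd j w]; exact dist_triangle _ _ _⟩
  choose φ φm φt using e1
  have e2 : ∀ w : X, ∃ r ∈ Icc 0 (dist y0 w + dist y0 w),
      Tendsto (fun l => φ w (g l w)) UU (𝓝 r) := fun w =>
    exists_ulim _ fun l => by
      have := φm w (g l w)
      rwa [dist_comm (g l w), gd] at this
  choose Hh _ Ht using e2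
  have φlip : ∀ w w' p p', |φ w p - φ w' p'| ≤ dist p p' + dist w w' := fun w w' p p' =>
    lim_lip (φt w p) (φt w' p') fun n => by
      have := dist_dist_dist_le p (g n w) p' (g n w')
      rwa [Real.dist_eq, (g n).dist_eq] at this
  have Hlip : ∀ w w', |Hh w - Hh w'| ≤ dist w w' + dist w w' := fun w w' =>
    lim_lip (Ht w) (Ht w') fun n => by
      have := φlip w w' (g n w) (g n w')
      rwa [(g n).dist_eq] at this
  have φc : Continuous fun q : X × X => φ q.1 q.2 := by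
    refine (LipschitzWith.of_dist_le_mul (K := 2) fun a b => ?_).continuous
    rw [Real.dist_eq, Prod.dist_eq]
    have := φlip a.1 b.1 a.2 b.2
    push_cast
    linarith [le_max_left (dist a.1 b.1) (dist a.2 b.2), le_max_right (dist a.1 b.1) (dist a.2 b.2)]
  have Hc : Continuous Hh := by
    refine (LipschitzWith.of_dist_le_mul (K := 2) fun a b => ?_).continuous
    rw [Real.dist_eq]
    have := Hlip a b
    push_cast
    linarith
  have H0 : Hh y0 = 0 := by
    have k : φ y0 y0 = 0 := tendsto_nhds_unique (φt y0 y0) (by simp [g1])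
    exact tendsto_nhds_unique (Ht y0) (by simp [g1, k])
  have H1 : t ≤ Hh (y 0) := by
    refine ge_of_tendsto (Ht (y 0)) ?_
    filter_upwards [hsep] with l hl
    refine ge_of_tendsto (φt _ _) ?_
    filter_upwards [hl] with j hj
    rw [g2, g2]; exact hj.le
  obtain ⟨γ, hγ, γ0, γ1⟩ := exists_path y0 (y 0)
  obtain ⟨a, b, hab, ka, kb, kin⟩ := band (k := fun τ => Hh (γ τ)) (Hc.comp hγ)
    (h1.trans h2).le (by simp only [γ0, H0]; exact h0) (by simp only [γ1]; linarith)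
  obtain ⟨la, hla⟩ := ((Ht (γ a)).eventually (gt_mem_nhds (ka.trans_lt h1))).exists
  obtain ⟨lb, hlb⟩ := ((Ht (γ b)).eventually (lt_mem_nhds (h2.trans_eq kb.symm))).exists
  obtain ⟨⟨τ, p⟩, ⟨hτ, -⟩, hp⟩ := (isPreconnected_Icc.prod isPreconnected_univ).intermediate_value
    (f := fun q : ℝ × X => φ (γ q.1) q.2) (a := (a, g la (γ a))) (b := (b, g lb (γ b)))
    ⟨⟨le_rfl, hab⟩, mem_univ _⟩ ⟨⟨hab, le_rfl⟩, mem_univ _⟩
    (φc.comp ((hγ.comp continuous_fst).prodMk continuous_snd)).continuousOn ⟨hla.le, hlb.le⟩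
  exact ⟨p, fun j => g j (γ τ), φ (γ τ), Hh (γ τ), ⟨φt _, Ht _⟩, hp, kin τ hτ⟩

theorem Big.realized {s : ℝ} (h : Big X s) : ∃ p q : X, s < dist p q := by
  obtain ⟨t, ht, y0, y, r, -, hs⟩ := h
  obtain ⟨i, j, -, h, -⟩ := three_of_sep hs
  exact ⟨_, _, ht.trans h⟩

theorem IsAH.lemB [PathConnectedSpace X] (H : IsAH X) {s : ℝ} (hs : 0 < s) (hB : Big X s)
    {sm sp : ℝ} (h0 : 0 ≤ sm) (h1 : sm < s) (h2 : s < sp) (x : X) :
    ∃ (v : ℕ → X) (φ : X → ℝ) (h : ℝ), (∀ j, v j ∈ sphere x s) ∧ Asy v φ h ∧ h ∈ Icc sm sp := by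
  obtain ⟨p0, q0, hpq⟩ := hB.realized
  obtain ⟨w, hw⟩ := realized p0 q0 hs.le hpq.le
  obtain ⟨t, ht, y0, y, r, hy, hsep⟩ := hB
  obtain ⟨p, z, φ, h, hA, hp, hh⟩ := H.lemA hy hsep h0 h1 (lt_min h2 ht) (min_le_right _ _)
  obtain ⟨v, hv, hd⟩ := H.move_sphere ⟨p0, w, hw⟩ p (hp ▸ hA.1 p)
  obtain ⟨g, hg⟩ := H.one p x
  have hA' := hA.move hd
  refine ⟨fun j => g (v j), fun q => φ (g.symm q), h, fun j => ?_, ⟨fun q => ?_, ?_⟩,
    hh.1, hh.2.trans (min_le_left _ _)⟩
  · rw [mem_sphere, ← hg, g.dist_eq]; exact hv j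
  · refine (hA'.1 (g.symm q)).congr fun j => ?_
    rw [← g.dist_eq, g.apply_symm_apply]
  · simpa only [g.symm_apply_apply] using hA'.2

theorem IsAH.three_of_big [PathConnectedSpace X] (H : IsAH X) {s : ℝ} (hs : 0 < s)
    (hB : Big X s) : Three X := by
  intro η hη
  have e0 : 0 < min (η / 2) s := lt_min (half_pos hη) hs
  obtain ⟨c⟩ : Nonempty X := inferInstance
  obtain ⟨v, φ, h, hv, hA, hh⟩ := H.lemB e0 (hB.mono (min_le_right _ _)) (half_pos e0).le
    (half_lt_self e0) (lt_add_one _) c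
  obtain ⟨i, j, k, h1, h2, h3⟩ := three_of_sep (hA.sep ((half_pos e0).trans_le hh.1))
  refine ⟨_, e0, (min_le_left _ _).trans_lt (half_lt_self hη), c, ![v i, v j, v k], fun n => ?_,
    fun m n hmn => ?_⟩
  · fin_cases n <;> simp only [dist_comm c] <;> exact hv _
  · have k1 := dist_pos.1 h1
    have k2 := dist_pos.1 h2
    have k3 := dist_pos.1 h3
    fin_cases m <;> fin_cases n <;> simp_all [eq_comm]

theorem IsAH.noCpt_of_big [PathConnectedSpace X] (H : IsAH X) {s : ℝ} (hs : 0 < s)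
    (hB : Big X s) : NoCpt X := by
  intro c η hη K hK
  have e0 : 0 < min (η / 2) s := lt_min (half_pos hη) hs
  obtain ⟨v, φ, h, hv, hA, hh⟩ := H.lemB e0 (hB.mono (min_le_right _ _)) (half_pos e0).le
    (half_lt_self e0) (lt_add_one _) c
  by_contra hno
  push Not at hno
  have hK' : ∀ j, v j ∈ K := fun j => hno _ (by
    rw [mem_ball, mem_sphere.1 (hv j)]
    exact (min_le_left _ _).trans_lt (half_lt_self hη))
  obtain ⟨w, -, hle⟩ := hK.ultrafilter_le_nhds ((hyperfilter ℕ).map v)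
    (le_principal_iff.2 (mem_map.2 (Eventually.of_forall hK')))
  have hw : Tendsto v UU (𝓝 w) := hle
  have k1 : ∀ q, φ q = dist q w := fun q =>
    tendsto_nhds_unique (hA.1 q) (tendsto_const_nhds.dist hw)
  have k2 : h = 0 := by
    refine tendsto_nhds_unique hA.2 ?_
    simp only [k1]
    exact tendsto_iff_dist_tendsto_zero.1 hw
  linarith [hh.1]

theorem IsAH.triangle [PathConnectedSpace X] (H : IsAH X) {s : ℝ} (hs : 0 < s) (hB : Big X s)
    (x : X) : ∃ z ∈ sphere x s, ∃ z' ∈ sphere x s, s ≤ dist z z' := by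
  have key : ∀ a b w : X, s ≤ dist a w → s ≤ dist b w →
      ∃ a' b' u : X, dist a' b' = dist a b ∧ dist u a' = s ∧ s ≤ dist u b' := by
    intro a b w h1 h2
    obtain ⟨u, hu⟩ := intermediate_value_univ a w (f := fun u => min (dist u a) (dist u b))
      (by fun_prop) (show s ∈ _ from ⟨by simp [hs.le], by
        simp only [dist_comm w]; exact le_min h1 h2⟩)
    simp only at hu
    rcases min_choice (dist u a) (dist u b) with k | k
    · exact ⟨a, b, u, rfl, k ▸ hu, hu ▸ min_le_right _ _⟩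
    · exact ⟨b, a, u, dist_comm _ _, k ▸ hu, hu ▸ min_le_left _ _⟩
  obtain ⟨t, ht, y0, y, r, -, hsep⟩ := hB
  obtain ⟨i, j, k, h1, h2, h3⟩ := three_of_sep hsep
  obtain ⟨a, b, u, k1, k2, k3⟩ := key (y i) (y j) (y k) (by linarith) (by linarith)
  obtain ⟨a', b', u', l1, l2, l3⟩ := key u a b k3 (by linarith)
  obtain ⟨g, hg⟩ := H.one a' x
  refine ⟨g u', by rw [mem_sphere, ← hg, g.dist_eq, l2], g b', ?_, by rwa [g.dist_eq]⟩
  rw [mem_sphere, ← hg, g.dist_eq, dist_comm, l1, k2]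

theorem IsAH.big_pathConnected [CompleteSpace X] [SeparableSpace X] [PathConnectedSpace X]
    (H : IsAH X) {s : ℝ} (hs : 0 < s) (hB : Big X s) (x : X) :
    PathConnectedSpace (sphere x s) := by
  obtain ⟨p, q, hpq⟩ := hB.realized
  exact H.sphere_pathConnected (H.three_of_big hs hB) (H.noCpt_of_big hs hB) hs hpq x

theorem IsAH.big_sphere [CompleteSpace X] [SeparableSpace X] [PathConnectedSpace X]
    (H : IsAH X) {s s' : ℝ} (hs' : 0 < s') (hss : s' < s) (hB : Big X s) (x : X) :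
    Big (sphere x s) s' := by
  have hs := hs'.trans hss
  have := H.big_pathConnected hs hB x
  have HY := H.sph x s
  have main : ∃ (v : ℕ → sphere x s) (φ : sphere x s → ℝ) (h : ℝ) (q a b : sphere x s),
      Asy v φ h ∧ (s + s') / 2 ≤ h ∧ φ q ≤ dist a b := by
    by_cases hc : ∃ a b : sphere x s, s < dist a b
    · obtain ⟨a, b, hab⟩ := hc
      obtain ⟨v, φ, h, hv, hA, hh⟩ := H.lemB hs hB (sm := (s + s') / 2) (sp := (s + dist a b) / 2)
        (by linarith) (by linarith) (by linarith) x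
      obtain ⟨l, hl⟩ := (hA.2.eventually (gt_mem_nhds (show h < dist a b by linarith [hh.2]))).exists
      exact ⟨fun j => ⟨v j, hv j⟩, fun q => φ q, h, ⟨v l, hv l⟩, a, b, ⟨fun q => hA.1 q, hA.2⟩,
        hh.1, hl.le⟩
    · push Not at hc
      obtain ⟨v, φ, h, hv, hA, hh⟩ := H.lemB hs hB (sm := (s + s') / 2) (sp := s + 1)
        (by linarith) (by linarith) (by linarith) x
      obtain ⟨a, ha, b, hb, hab⟩ := H.triangle hs hB x
      refine ⟨fun j => ⟨v j, hv j⟩, fun q => φ q, h, ⟨a, ha⟩, ⟨a, ha⟩, ⟨b, hb⟩,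
        ⟨fun q => hA.1 q, hA.2⟩, hh.1, le_trans ?_ hab⟩
      exact le_of_tendsto' (hA.1 a) fun j => hc ⟨a, ha⟩ ⟨v j, hv j⟩
  obtain ⟨v, φ, h, q, a, b, hA, hh, hq⟩ := main
  have φ0 : 0 ≤ φ q := ge_of_tendsto' (hA.1 q) fun j => dist_nonneg
  obtain ⟨w, hw⟩ := realized a b φ0 hq
  obtain ⟨u, hu, hd⟩ := HY.move_sphere ⟨a, w, hw⟩ q (hA.1 q)
  refine ⟨(s + 3 * s') / 4, by linarith, q, u, φ q, fun j => ?_, (hA.move hd).sep (by linarith)⟩
  rw [dist_comm]; exact hu j

end

theorem comb (F : Finset ℝ) : (∀ l ∈ F, 0 < l) → ∀ (X : Type u) [MetricSpace X] [CompleteSpace X]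
    [SeparableSpace X] [PathConnectedSpace X], IsAH X → (∀ l ∈ F, Big X l) →
    ∃ f : ℝ → X, ∀ l ∈ F, ∀ m ∈ F, l ≠ m → dist (f l) (f m) = max l m := by
  induction F using Finset.induction_on_max with
  | empty =>
    intro _ X _ _ _ _ _ _
    obtain ⟨c⟩ : Nonempty X := inferInstance
    exact ⟨fun _ => c, by simp⟩
  | insert a F ha ih =>
    intro hpos X _ _ _ _ H hB
    obtain ⟨x⟩ : Nonempty X := inferInstance
    have a0 := hpos a (Finset.mem_insert_self _ _)
    have hBa := hB a (Finset.mem_insert_self _ _)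
    have : SecondCountableTopology X := UniformSpace.secondCountable_of_separable X
    have : CompleteSpace (sphere x a) := isClosed_sphere.completeSpace_coe
    have := H.big_pathConnected a0 hBa x
    obtain ⟨f, hf⟩ := ih (fun l hl => hpos l (Finset.mem_insert_of_mem hl)) (sphere x a)
      (H.sph x a) (fun l hl => H.big_sphere (hpos l (Finset.mem_insert_of_mem hl)) (ha l hl) hBa x)
    refine ⟨fun l => if l = a then x else f l, fun l hl m hm hlm => ?_⟩
    rcases Finset.mem_insert.1 hl with rfl | hl' <;> rcases Finset.mem_insert.1 hm with rfl | hm'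
    · exact absurd rfl hlm
    · simp only [if_true, if_neg (ha m hm').ne]
      rw [dist_comm, max_eq_left (ha m hm').le]; exact (f m).2
    · simp only [if_true, if_neg (ha l hl').ne]
      rw [max_eq_right (ha l hl').le]; exact (f l).2
    · simp only [if_neg (ha l hl').ne, if_neg (ha m hm').ne]
      exact hf l hl' m hm' hlm

section
variable {X : Type*} [MetricSpace X]

/-- A countable configuration all of whose finite parts occur does occur. -/
theorem IsAH.countable_real (H : IsAH X) (D : ℕ → ℕ → ℝ)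
    (hD : ∀ n, ∃ f : ℕ → X, ∀ i < n, ∀ j < n, dist (f i) (f j) = D i j) :
    ∃ f : ℕ → X, ∀ i j, dist (f i) (f j) = D i j := by
  have step : ∀ (n : ℕ) (f : ℕ → X), (∀ i < n, ∀ j < n, dist (f i) (f j) = D i j) →
      ∃ f' : ℕ → X, (∀ i < n + 1, ∀ j < n + 1, dist (f' i) (f' j) = D i j) ∧
        ∀ i < n, f' i = f i := by
    intro n f hf
    obtain ⟨f', hf'⟩ := hD (n + 1)
    obtain ⟨g, hg⟩ := H.fam (fun i : Fin n => f' i) (fun i : Fin n => f i) fun i j => by
      rw [hf' i (by omega) j (by omega), hf i i.2 j j.2]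
    exact ⟨fun i => g (f' i), fun i hi j hj => by rw [g.dist_eq, hf' i hi j hj],
      fun i hi => hg ⟨i, hi⟩⟩
  choose! nx hnx using step
  obtain ⟨f0, -⟩ := hD 0
  let F : ℕ → ℕ → X := fun n => Nat.rec f0 (fun n f => nx n f) n
  have hF : ∀ n, ∀ i < n, ∀ j < n, dist (F n i) (F n j) = D i j := by
    intro n
    induction n with
    | zero => intro i hi; omega
    | succ n ih => exact (hnx n _ ih).1
  have hst : ∀ i n, i < n → F n i = F (i + 1) i := by
    intro i n hin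
    induction n with
    | zero => omega
    | succ n ih =>
      rcases Nat.lt_succ_iff_lt_or_eq.1 hin with h | h
      · rw [← ih h]; exact (hnx n _ (hF n)).2 i h
      · rw [h]
  refine ⟨fun i => F (i + 1) i, fun i j => ?_⟩
  show dist (F (i + 1) i) (F (j + 1) j) = D i j
  rw [← hst i (i + j + 1) (by omega), ← hst j (i + j + 1) (by omega)]
  exact hF (i + j + 1) i (by omega) j (by omega)

theorem IsAH.no_combs [SeparableSpace X] (H : IsAH X) {a b : ℝ} (ha : 0 < a) (hab : a < b)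
    (hF : ∀ F : Finset ℝ, (∀ l ∈ F, l ∈ Ioo a b) →
      ∃ f : ℝ → X, ∀ l ∈ F, ∀ m ∈ F, l ≠ m → dist (f l) (f m) = max l m) : False := by
  classical
  let D : ℝ → ℝ → ℝ := fun l m => if l = m then 0 else max l m
  let S : Set (Set (ℝ × X)) := {M | (∀ p ∈ M, p.1 ∈ Ioo a b) ∧
    ∀ p ∈ M, ∀ q ∈ M, dist p.2 q.2 = D p.1 q.1}
  obtain ⟨M, hM⟩ := zorn_subset S (fun c hc hch => by
    refine ⟨⋃₀ c, ⟨?_, ?_⟩, fun s hs => subset_sUnion_of_mem hs⟩
    · rintro p ⟨s, hs, hp⟩
      exact (hc hs).1 p hp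
    · rintro p ⟨s, hs, hp⟩ q ⟨s', hs', hq⟩
      rcases hch.total hs hs' with h | h
      · exact (hc hs').2 p (h hp) q hq
      · exact (hc hs).2 p hp q (h hq))
  obtain ⟨hM1, hM2⟩ := hM.prop
  have hsep : ∀ p ∈ M, ∀ q ∈ M, p ≠ q → a < dist p.2 q.2 := by
    intro p hp q hq hpq
    have := hM2 p hp q hq
    by_cases h : p.1 = q.1
    · simp only [D, if_pos h] at this
      exact absurd (Prod.ext h (dist_eq_zero.1 this)) hpq
    · simp only [D, if_neg h] at this
      rw [this]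
      exact (hM1 p hp).1.trans_le (le_max_left _ _)
  have hMc : M.Countable := by
    refine Set.PairwiseDisjoint.countable_of_isOpen (s := fun p : ℝ × X => ball p.2 (a / 2))
      (fun p hp q hq hpq => ?_) (fun _ _ => isOpen_ball)
      (fun _ _ => ⟨_, mem_ball_self (half_pos ha)⟩)
    exact ball_disjoint_ball (by linarith [hsep p hp q hq hpq])
  obtain ⟨μ, hμ, hμM⟩ : ∃ μ ∈ Ioo a b, μ ∉ Prod.fst '' M := by
    by_contra h
    push Not at h
    have := (hMc.image Prod.fst).mono h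
    exact absurd (Cardinal.Real.Ioo_countable_iff.1 this) (not_le.2 hab)
  obtain ⟨e, he⟩ := ((hMc.image Prod.fst).insert μ).exists_eq_range (insert_nonempty _ _)
  have hem : ∀ i, e i ∈ Ioo a b := fun i => by
    have : e i ∈ insert μ (Prod.fst '' M) := he ▸ mem_range_self i
    rcases this with h | ⟨p, hp, h⟩
    · rw [h]; exact hμ
    · rw [← h]; exact hM1 p hp
  obtain ⟨f, hf⟩ := H.countable_real (fun i j => D (e i) (e j)) fun n => by
    obtain ⟨f, hf⟩ := hF ((Finset.range n).image e) fun l hl => by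
      obtain ⟨i, -, rfl⟩ := Finset.mem_image.1 hl
      exact hem i
    refine ⟨fun i => f (e i), fun i hi j hj => ?_⟩
    by_cases h : e i = e j
    · simp only [D, h, dist_self, if_true]
    · simp only [D, if_neg h]
      exact hf _ (Finset.mem_image_of_mem e (Finset.mem_range.2 hi)) _
        (Finset.mem_image_of_mem e (Finset.mem_range.2 hj)) h
  obtain ⟨g, hg⟩ := H {r | ∃ i, ∃ p ∈ M, p.1 = e i ∧ r = (f i, p.2)} (by
    rintro _ ⟨i, p, hp, hpi, rfl⟩ _ ⟨j, q, hq, hqj, rfl⟩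
    simp only
    rw [hf, hM2 p hp q hq, hpi, hqj])
  obtain ⟨i0, hi0⟩ : μ ∈ range e := he ▸ mem_insert _ _
  have hidx : ∀ p ∈ M, ∃ i, p.1 = e i ∧ g (f i) = p.2 := fun p hp => by
    obtain ⟨i, hi⟩ : p.1 ∈ range e := he ▸ mem_insert_of_mem _ ⟨p, hp, rfl⟩
    exact ⟨i, hi.symm, hg (f i, p.2) ⟨i, p, hp, hi.symm, rfl⟩⟩
  have hnew : insert (μ, g (f i0)) M ∈ S := by
    refine ⟨?_, ?_⟩
    · rintro p (rfl | hp)
      · exact hμ
      · exact hM1 p hp
    · rintro p (rfl | hp) q (rfl | hq)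
      · simp [D]
      · obtain ⟨j, h1, h2⟩ := hidx q hq
        simp only
        rw [← h2, g.dist_eq, hf, hi0, h1]
      · obtain ⟨j, h1, h2⟩ := hidx p hp
        simp only
        rw [← h2, g.dist_eq, hf, hi0, h1]
      · exact hM2 p hp q hq
  have := hM.le_of_ge hnew (subset_insert _ _) (mem_insert _ _)
  exact hμM ⟨_, this, rfl⟩

end

theorem not_big {X : Type u} [MetricSpace X] [CompleteSpace X] [SeparableSpace X]
    [PathConnectedSpace X] (H : IsAH X) {s : ℝ} (hs : 0 < s) : ¬ Big X s := fun hB =>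
  H.no_combs (half_pos hs) (half_lt_self hs) fun F hF =>
    comb F (fun l hl => (half_pos hs).trans (hF l hl).1) X H
      fun l hl => hB.mono (hF l hl).2.le

theorem closedBall_compact {X : Type u} [MetricSpace X] [CompleteSpace X] [SeparableSpace X]
    [PathConnectedSpace X] (H : IsAH X) (x q : X) : IsCompact (closedBall x (dist x q)) := by
  refine isCompact_iff_totallyBounded_isComplete.2 ⟨?_, isClosed_closedBall.isComplete⟩
  by_contra hno
  rw [totallyBounded_iff_subset] at hno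
  push Not at hno
  obtain ⟨d, hd, hno⟩ := hno
  obtain ⟨ε, hε, hεd⟩ := Metric.mem_uniformity_dist.1 hd
  have hstep : ∀ F : Finset X, (∀ y ∈ F, y ∈ closedBall x (dist x q)) →
      ∃ z, z ∈ closedBall x (dist x q) ∧ ∀ y ∈ F, ε ≤ dist z y := by
    intro F hF
    by_contra h
    push Not at h
    refine hno F hF F.finite_toSet fun z hz => ?_
    obtain ⟨y, hy, hzy⟩ := h z hz
    exact mem_iUnion₂.2 ⟨y, hy, hεd hzy⟩
  obtain ⟨y, hy1, hy2⟩ := exists_seq_of_forall_finset_exists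
    (fun z => z ∈ closedBall x (dist x q)) (fun y z => ε ≤ dist z y) hstep
  obtain ⟨r, hr, hrt⟩ := exists_ulim (fun j => dist x (y j)) (a := 0) (b := dist x q)
    fun j => ⟨dist_nonneg, by rw [dist_comm]; exact hy1 j⟩
  obtain ⟨w, hw⟩ := realized x q hr.1 hr.2
  obtain ⟨v, hv, hd⟩ := H.move_sphere ⟨x, w, hw⟩ x hrt
  refine not_big H (s := ε / 4) (by linarith) ⟨ε / 2, by linarith, x, v, r,
    fun j => by rw [dist_comm]; exact hv j, ?_⟩
  have hsm : ∀ᶠ j in UU, dist (y j) (v j) < ε / 4 := hd.eventually (gt_mem_nhds (by linarith))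
  filter_upwards [hsm] with l hl
  filter_upwards [hsm, UU_le (eventually_gt_atTop l)] with j hj hlj
  linarith [hy2 l j hlj, dist_triangle4 (y j) (v j) (v l) (y l), dist_comm (v j) (v l),
    dist_comm (v l) (y l)]

theorem locallyCompact {X : Type u} [MetricSpace X] [CompleteSpace X] [SeparableSpace X]
    [PathConnectedSpace X] (H : IsAH X) : LocallyCompactSpace X := by
  have : WeaklyLocallyCompactSpace X := ⟨fun x => by
    by_cases h : ∃ q, q ≠ x
    · obtain ⟨q, hq⟩ := h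
      exact ⟨_, closedBall_compact H x q, closedBall_mem_nhds x (dist_pos.2 hq.symm)⟩
    · push Not at h
      refine ⟨{x}, isCompact_singleton, ?_⟩
      rw [show ({x} : Set X) = univ from eq_univ_of_forall h]
      exact univ_mem⟩
  infer_instance

end Pool.Agent.Lib.AH
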