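import Pool.Agent.Lib.AH.Meet

set_option autoImplicit false

namespace Pool.Agent.Lib.AH

open Set Filter Topology Metric TopologicalSpace

variable {X : Type*} [MetricSpace X]

/-- Between points of pairs at distance at most `r` are determined by their position. -/
def Uni (X : Type*) [MetricSpace X] (r : ℝ) : Prop :=
  ∀ x z y y' : X, dist x z ≤ r → Col x y z → Col x y' z → dist x y = dist x y' → y = y'

theorem Uni.mono {r r' : ℝ} (h : Uni X r) (hr : r' ≤ r) : Uni X r' :=
  fun x z y y' k => h x z y y' (k.trans hr)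

/-- Every segment is a side of rectangles. -/
def Rect (X : Type*) [MetricSpace X] (l : ℝ) : Prop :=
  ∀ (p o y : X) (g : ℝ), Col p o y → dist p o = l → 0 ≤ g → dist o y + g ≤ l →
    ∃ t x, Col p o t ∧ dist o t = g ∧ mu p y t ≤ l ∧ Col p y x ∧ Col p t x ∧
      dist p x = l + dist o y + g

theorem mu_self (p v : X) : mu p v v = dist p v := mu_of_col (col_right _ _)

variable [CompleteSpace X] {r : ℝ}

theorem Ctx.rect (C : Ctx X r) {x z v v' : X} (hr : dist x z ≤ r / 2) (h : Col x v z)
    (h' : Col x v' z) (he : dist x v = dist x v') (hne : v ≠ v') :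
    ∃ l > 0, l ≤ r / 4 ∧ Rect X l := by
  have r0 : dist x z ≤ r := by linarith [dist_nonneg (x := x) (y := z)]
  obtain ⟨m, m1, m2, m3⟩ := C.meet' (h.le1.trans r0) v'
  have e1 : _ = _ := m1
  have e2 : _ = _ := m2
  have g0 : 0 < dist m v := dist_pos.2 fun e => hne (e ▸ m2.eq_of (by rw [e, he]))
  have b0 := C.base (h.le1.trans r0) m1 m2
  have k1 := m1.cut h
  have k2 := m2.cut h'
  have mz : dist m z ≤ r / 2 := (m1.trans h).le2.trans hr
  have e3 := k1.le1
  refine ⟨min (dist m v) (r / 4), lt_min g0 (by linarith), min_le_right _ _, ?_⟩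
  intro p o y g hy ho hg hl
  have l1 := min_le_left (dist m v) (r / 4)
  have l2 := min_le_right (dist m v) (r / 4)
  have y0 := dist_nonneg (x := o) (y := y)
  obtain ⟨a, a1, a2⟩ := C.geo m v (by linarith) (dist o y) y0 (by linarith)
  obtain ⟨b, b1, b2⟩ := C.geo m v' (by linarith) g hg (by linarith)
  have c1 := a1.trans k1
  have c2 := b1.trans k2
  obtain ⟨W, w1, w2, w3⟩ := C.meet' (p := z) (v := a) (by linarith [c1.symm.le1, dist_comm z m]) b
  have md := C.modular c1 c2 mz
  have m0 : mu m a b = 0 := le_antisymm (by linarith [mu_mono a1 b1]) (mu_nonneg _ _ _)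
  have d1 : Col m a W := (w1.cut c1.symm).symm
  have d2 : Col m b W := (w2.cut c2.symm).symm
  have f1 : _ = _ := w2
  have f2 : _ = _ := d2
  rw [dist_comm W] at f1
  obtain ⟨P, p1, p2⟩ := C.ext W m (dist p o) dist_nonneg (by rw [dist_comm W]; linarith)
  rw [dist_comm] at p2
  have q1 := p1.symm.left d1
  have q2 := p1.symm.left d2
  have f3 : _ = _ := q1
  have f4 : _ = _ := hy
  have f5 : _ = _ := p1.symm
  have mP := C.base (p := P) (v := a) (by linarith) q1 q2
  obtain ⟨G, rfl, rfl, rfl⟩ := C.H.three (a := P) (b := m) (c := a) (a' := p) (b' := o) (c' := y)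
    p2 (by linarith) a2
  refine ⟨G b, G W, q2.map G, by rw [G.dist_eq, b2], by rw [mu_map]; linarith,
    (p1.symm.right d1).map G, (p1.symm.right d2).map G, ?_⟩
  rw [G.dist_eq P W]
  linarith

theorem Ctx.cong (C : Ctx X r) {l : ℝ} (hl : l ≤ r / 4) (l0 : 0 ≤ l) {ι : Type*} {p : X}
    (u v : ι → X) (h : ∀ i j, mu p (u i) (u j) = mu p (v i) (v j)) (h1 : ∀ i, dist p (u i) ≤ 2 * l)
    (h2 : ∀ i j, l ≤ mu p (u i) (u j)) : ∃ g : X ≃ᵢ X, g p = p ∧ ∀ i, g (u i) = v i := by
  have h0 : ∀ i, dist p (u i) = dist p (v i) := fun i => by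
    simpa only [mu_self] using h i i
  obtain ⟨g, hg⟩ := C.H.fam (fun o : Option ι => o.elim p u) (fun o => o.elim p v) (by
    rintro (_ | i) (_ | j)
    · rfl
    · exact h0 j
    · simp only [Option.elim_some, Option.elim_none, dist_comm _ p]; exact h0 i
    · show dist (u i) (u j) = dist (v i) (v j)
      exact C.det (p := p) (q := p) (by linarith [h1 i]) (by linarith [h1 j]) (h0 i) (h0 j) (h i j)
        (by linarith [h1 i, h2 i j]) (by linarith [h1 j, h2 i j]))
  exact ⟨g, hg none, fun i => hg (some i)⟩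

section cube

variable {ι : Type*} [DecidableEq ι]

/-- The sets already treated. -/
def Dk (a : ι) (T : Finset ι) (k : ℕ) (A : Finset ι) : Prop :=
  A ⊆ T ∧ (a ∉ A ∨ A.card ≤ k ∨ A = T)

theorem Dk.inter {a : ι} {T A B : Finset ι} {k : ℕ} (hA : Dk a T k A) (hB : Dk a T k B) :
    Dk a T k (A ∩ B) := by
  refine ⟨Finset.inter_subset_left.trans hA.1, ?_⟩
  rcases hA.2 with h | h | h
  · exact Or.inl fun k => h (Finset.mem_inter.1 k).1
  · exact Or.inr (Or.inl ((Finset.card_le_card Finset.inter_subset_left).trans h))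
  · rw [h, Finset.inter_eq_right.2 hB.1]; exact hB.2

/-- A partially built cube. -/
structure Part (p : X) (l σ : ℝ) (a : ι) (T : Finset ι) (k : ℕ) (z : Finset ι → X) : Prop where
  ht : ∀ A, Dk a T k A → dist p (z A) = l + A.card * σ
  le : ∀ A B, Dk a T k A → Dk a T k B → A ⊆ B → Col p (z A) (z B)
  anti : ∀ A, Dk a T k A → a ∈ A → mu p (z A) (z (T \ A)) ≤ l
  old : ∀ A ⊆ T, ∀ B ⊆ T, a ∉ A → a ∉ B → mu p (z A) (z B) = l + (A ∩ B).card * σ

variable {p : X} {l σ : ℝ} {a : ι} {T : Finset ι} {k : ℕ} {z : Finset ι → X}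

omit [CompleteSpace X] in
theorem Part.ge (h : Part p l σ a T k z) {A B : Finset ι} (hA : Dk a T k A) (hB : Dk a T k B) :
    l + (A ∩ B).card * σ ≤ mu p (z A) (z B) := by
  rw [← h.ht _ (hA.inter hB)]
  exact le_mu (h.le _ _ (hA.inter hB) hA Finset.inter_subset_left)
    (h.le _ _ (hA.inter hB) hB Finset.inter_subset_right)

theorem Part.pair (C : Ctx X r) (hl : l ≤ r / 4) (σ0 : 0 ≤ σ) (hσ : T.card * σ ≤ l)
    (h : Part p l σ a T k z) {A B : Finset ι} (hA : Dk a T k A) (hB : Dk a T k B) :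
    mu p (z A) (z B) = l + (A ∩ B).card * σ := by
  have key : ∀ A B, Dk a T k A → Dk a T k B → a ∈ A →
      mu p (z A) (z B) = l + (A ∩ B).card * σ := fun A B hA hB ha => by
    refine le_antisymm ?_ (h.ge hA hB)
    have hc : Dk a T k (T \ A) := ⟨Finset.sdiff_subset, Or.inl (by simp [ha])⟩
    have k1 := h.ht B hB
    have k2 : (B.card : ℝ) * σ ≤ T.card * σ := by gcongr; exact hB.1
    have k3 := C.mu_tri (p := p) (v := z B) (by linarith) (z A) (z (T \ A))
    have k4 := h.ge hB hc
    have k5 : (B.card : ℝ) = (A ∩ B).card + (B ∩ (T \ A)).card := by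
      rw [← Finset.card_inter_add_card_sdiff B A, Finset.inter_comm B A]
      push_cast
      congr 3
      ext i
      simp only [Finset.mem_sdiff, Finset.mem_inter]
      exact ⟨fun k => ⟨k.1, hB.1 k.1, k.2⟩, fun k => ⟨k.1, k.2.2⟩⟩
    rw [k5] at k1
    linarith [h.anti A hA ha]
  by_cases ha : a ∈ A
  · exact key A B hA hB ha
  by_cases hb : a ∈ B
  · rw [mu_comm, Finset.inter_comm]; exact key B A hB hA hb
  · exact h.old A hA.1 B hB.1 ha hb

theorem Part.point (C : Ctx X r) (hl : l ≤ r / 4) (σ0 : 0 ≤ σ) (hσ : T.card * σ ≤ l)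
    (hR : Rect X l) (h : Part p l σ a T k z) {A : Finset ι} (hA : A ⊆ T) (ha : a ∈ A)
    (hk : A.card = k + 1) (hne : A ≠ T) : ∃ w, dist p w = l + A.card * σ ∧
      (∀ B, B ⊂ A → Col p (z B) w) ∧ Col p w (z T) ∧ mu p w (z (T \ A)) ≤ l := by
  obtain ⟨i0, i1, i2⟩ := Finset.exists_of_ssubset (Finset.ssubset_iff_subset_ne.2 ⟨hA, hne⟩)
  have l0 : 0 ≤ l := le_trans (by positivity) hσ
  let τ : Finset ι → Finset ι := fun B => B.image (Equiv.swap a i0)
  have τc : ∀ B, (τ B).card = B.card := fun B =>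
    Finset.card_image_of_injective _ (Equiv.injective _)
  have τi : ∀ B B', τ B ∩ τ B' = τ (B ∩ B') := fun B B' =>
    (Finset.image_inter _ _ (Equiv.injective _)).symm
  have τ1 : ∀ B ⊆ A, τ B ⊆ T ∧ a ∉ τ B := fun B hB => by
    constructor
    · intro j hj
      obtain ⟨b, hb, rfl⟩ := Finset.mem_image.1 hj
      rw [Equiv.swap_apply_def]
      split_ifs
      exacts [i1, hA ha, hA (hB hb)]
    · intro hj
      obtain ⟨b, hb, e⟩ := Finset.mem_image.1 hj
      rw [Equiv.swap_apply_eq_iff, Equiv.swap_apply_left] at e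
      exact i2 (e ▸ hB hb)
  have τd : ∀ B ⊆ A, Dk a T k (τ B) := fun B hB => ⟨(τ1 B hB).1, Or.inl (τ1 B hB).2⟩
  have d0 : Dk a T k ∅ := ⟨Finset.empty_subset _, Or.inl (Finset.notMem_empty _)⟩
  have dA := τd A le_rfl
  have o1 := h.ht _ d0
  have o2 := h.le _ _ d0 dA (Finset.empty_subset _)
  have o3 := h.ht _ dA
  have o4 : _ = _ := o2
  have cc : ((T \ A).card : ℝ) * σ + A.card * σ = T.card * σ := by
    rw [← add_mul, ← Nat.cast_add, Finset.card_sdiff_add_card_eq_card hA]
  rw [τc] at o3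
  simp only [Finset.card_empty, Nat.cast_zero, zero_mul, add_zero] at o1
  obtain ⟨t, x, t1, t2, t3, x1, x2, x3⟩ := hR p (z ∅) (z (τ A)) ((T \ A).card * σ) o2 o1
    (by positivity) (by linarith)
  have t4 : _ = _ := t1
  let lab : Option (Option {B // B ⊂ A}) → Finset ι :=
    fun o => o.elim T fun o' => o'.elim (T \ A) fun B => B.1
  let u : Option (Option {B // B ⊂ A}) → X :=
    fun o => o.elim x fun o' => o'.elim t fun B => z (τ B.1)
  have ld : ∀ i, Dk a T k (lab i) := by
    rintro (_ | _ | B)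
    · exact ⟨le_rfl, Or.inr (Or.inr rfl)⟩
    · exact ⟨Finset.sdiff_subset, Or.inl (by simp [lab, ha])⟩
    · exact ⟨B.2.subset.trans hA, Or.inr (Or.inl (by
        have := Finset.card_lt_card B.2
        show B.1.card ≤ k
        omega))⟩
  have uA : ∀ B : {B // B ⊂ A}, Col p (z (τ B.1)) (z (τ A)) := fun B =>
    h.le _ _ (τd _ B.2.subset) dA (Finset.image_subset_image B.2.subset)
  have u1 : ∀ i, dist p (u i) = l + (lab i).card * σ := by
    rintro (_ | _ | B)
    · show dist p x = l + T.card * σ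
      linarith
    · show dist p t = l + (T \ A).card * σ
      linarith
    · exact (h.ht _ (τd _ B.2.subset)).trans (by rw [τc]; rfl)
  have u2 : ∀ i, Col p (u i) x := by
    rintro (_ | _ | B)
    exacts [col_right _ _, x2, (uA B).trans x1]
  have u3 : ∀ B : {B // B ⊂ A}, mu p (z (τ B.1)) t = l + (B.1 ∩ (T \ A)).card * σ := fun B => by
    rw [show B.1 ∩ (T \ A) = ∅ from Finset.eq_empty_of_forall_notMem fun i hi => by
      rw [Finset.mem_inter, Finset.mem_sdiff] at hi
      exact hi.2.2 (B.2.subset hi.1)]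
    simp only [Finset.card_empty, Nat.cast_zero, zero_mul, add_zero]
    refine le_antisymm ((mu_mono (uA B) (col_right _ _)).trans t3) ?_
    rw [← o1]
    exact le_mu (h.le _ _ d0 (τd _ B.2.subset) (Finset.empty_subset _)) t1
  have u4 : ∀ i j, mu p (u i) (u j) = l + (lab i ∩ lab j).card * σ := by
    have top : ∀ i, mu p (u i) (u none) = l + (lab i ∩ lab none).card * σ := fun i => by
      rw [show lab i ∩ lab none = lab i from Finset.inter_eq_left.2 (ld i).1, ← u1]
      exact mu_of_col (u2 i)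
    rintro i (_ | _ | B')
    · exact top i
    · rcases i with _ | _ | B
      · rw [mu_comm, Finset.inter_comm]; exact top _
      · rw [mu_self, Finset.inter_self, u1]
      · exact u3 B
    · rcases i with _ | _ | B
      · rw [mu_comm, Finset.inter_comm]; exact top _
      · rw [mu_comm, Finset.inter_comm]; exact u3 B'
      · exact (h.old _ (τ1 _ B.2.subset).1 _ (τ1 _ B'.2.subset).1 (τ1 _ B.2.subset).2
          (τ1 _ B'.2.subset).2).trans (by rw [τi, τc]; rfl)
  obtain ⟨g, g0, hg⟩ := C.cong hl l0 u (fun i => z (lab i))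
    (fun i j => (u4 i j).trans (h.pair C hl σ0 hσ (ld i) (ld j)).symm)
    (fun i => by linarith [(u2 i).le1])
    (fun i j => by rw [u4]; exact le_add_of_nonneg_right (by positivity))
  refine ⟨g (z (τ A)), ?_, fun B hB => ?_, ?_, ?_⟩
  · rw [← o3]; conv_lhs => rw [← g0, g.dist_eq]
  · have := (uA ⟨B, hB⟩).map g
    rwa [g0, show g (z (τ B)) = z B from hg (some (some ⟨B, hB⟩))] at this
  · have := x1.map g
    rwa [g0, show g x = z T from hg none] at this
  · have := mu_map g p (z (τ A)) t
    rw [g0, show g t = z (T \ A) from hg (some none)] at this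
    linarith

theorem Part.step (C : Ctx X r) (hl : l ≤ r / 4) (σ0 : 0 ≤ σ) (hσ : T.card * σ ≤ l)
    (hR : Rect X l) (h : Part p l σ a T k z) : ∃ z', Part p l σ a T (k + 1) z' := by
  classical
  let N : Finset ι → Prop := fun A => A ⊆ T ∧ a ∈ A ∧ A.card = k + 1 ∧ A ≠ T
  have hw : ∀ A, ∃ w, (N A → dist p w = l + A.card * σ ∧ (∀ B, B ⊂ A → Col p (z B) w) ∧
      Col p w (z T) ∧ mu p w (z (T \ A)) ≤ l) ∧ (¬ N A → w = z A) := fun A => by
    by_cases hN : N A
    · obtain ⟨w, hw⟩ := h.point C hl σ0 hσ hR hN.1 hN.2.1 hN.2.2.1 hN.2.2.2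
      exact ⟨w, fun _ => hw, fun k => absurd hN k⟩
    · exact ⟨z A, fun k => absurd k hN, fun _ => rfl⟩
  choose w w1 w2 using hw
  have old : ∀ A, Dk a T (k + 1) A → ¬ N A → Dk a T k A := fun A hA hN => by
    refine ⟨hA.1, ?_⟩
    by_contra hc
    push Not at hc
    rcases hA.2 with m | m | m
    · exact m hc.1
    · exact hN ⟨hA.1, hc.1, by omega, hc.2.2⟩
    · exact hc.2.2 m
  refine ⟨w, fun A hA => ?_, fun A B hA hB hAB => ?_, fun A hA ha => ?_,
    fun A hA B hB ha hb => ?_⟩
  · by_cases hN : N A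
    · exact (w1 A hN).1
    · rw [w2 A hN]; exact h.ht A (old A hA hN)
  · by_cases e : A = B
    · rw [e]; exact col_right _ _
    have hs : A ⊂ B := Finset.ssubset_iff_subset_ne.2 ⟨hAB, e⟩
    have hc := Finset.card_lt_card hs
    by_cases hN : N A
    · have hT : B = T := by
        rcases hB.2 with m | m | m
        · exact absurd (hAB hN.2.1) m
        · have := hN.2.2.1; omega
        · exact m
      rw [hT, w2 T fun k => k.2.2.2 rfl]
      exact (w1 A hN).2.2.1
    · rw [w2 A hN]
      by_cases hN' : N B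
      · exact (w1 B hN').2.1 A hs
      · rw [w2 B hN']; exact h.le A B (old A hA hN) (old B hB hN') hAB
  · rw [w2 (T \ A) fun k => (Finset.mem_sdiff.1 k.2.1).2 ha]
    by_cases hN : N A
    · exact (w1 A hN).2.2.2
    · rw [w2 A hN]; exact h.anti A (old A hA hN) ha
  · rw [w2 A fun k => ha k.2.1, w2 B fun k => hb k.2.1]
    exact h.old A hA B hB ha hb

theorem Ctx.cube (C : Ctx X r) (hl : l ≤ r / 4) (σ0 : 0 ≤ σ) (hR : Rect X l) (p : X)
    (S : Finset ι) : S.card * σ ≤ l → ∃ y : Finset ι → X, ∀ A ⊆ S, ∀ B ⊆ S,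
      mu p (y A) (y B) = l + (A ∩ B).card * σ := by
  induction S using Finset.induction_on with
  | empty =>
    intro l0
    simp only [Finset.card_empty, Nat.cast_zero, zero_mul] at l0
    obtain ⟨o, -, ho⟩ := C.ext p p l l0 (by rw [dist_self]; linarith)
    refine ⟨fun _ => o, fun A hA B _ => ?_⟩
    rw [Finset.subset_empty.1 hA, mu_self, ho]; simp
  | insert a S ha ih =>
    intro hσ
    have c1 : ((insert a S).card : ℝ) * σ = S.card * σ + σ := by
      rw [Finset.card_insert_of_notMem ha]; push_cast; ring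
    obtain ⟨y, hy⟩ := ih (by linarith)
    have l0 : 0 ≤ l := le_trans (by positivity) hσ
    have ht : ∀ A ⊆ S, dist p (y A) = l + A.card * σ := fun A hA => by
      rw [← mu_self, hy A hA A hA, Finset.inter_self]
    have hle : ∀ A B, A ⊆ B → B ⊆ S → Col p (y A) (y B) := fun A B hAB hB => by
      have k1 := ht A (hAB.trans hB)
      have k2 : (A.card : ℝ) * σ ≤ S.card * σ := by gcongr; exact hAB.trans hB
      obtain ⟨m, m1, m2, m3⟩ := C.meet' (p := p) (v := y A) (by linarith) (y B)
      rw [hy A (hAB.trans hB) B hB, Finset.inter_eq_left.2 hAB, ← k1] at m3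
      rwa [m1.eq_of m3.ge] at m2
    obtain ⟨x, x1, x2⟩ := C.ext p (y S) σ σ0 (by rw [ht S le_rfl]; linarith)
    have x3 : _ = _ := x1
    have sub : ∀ A ⊆ insert a S, a ∉ A → A ⊆ S := fun A hA k =>
      (Finset.subset_insert_iff_of_notMem k).1 hA
    have top : ∀ A, Dk a (insert a S) 0 A → a ∈ A → A = insert a S := fun A hA k => by
      rcases hA.2 with m | m | m
      · exact absurd k m
      · exact absurd (Finset.card_pos.2 ⟨a, k⟩) (by omega)
      · exact m
    have all : ∀ k, ∃ z, Part p l σ a (insert a S) k z := by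
      intro k
      induction k with
      | succ k ihk =>
        obtain ⟨z, hz⟩ := ihk
        exact hz.step C hl σ0 hσ hR
      | zero =>
        refine ⟨fun A => if a ∈ A then x else y A, fun A hA => ?_, fun A B hA hB hAB => ?_,
          fun A hA k => ?_, fun A hA B hB k k' => ?_⟩
        · by_cases k : a ∈ A
          · rw [if_pos k, top A hA k]; linarith [ht S le_rfl]
          · rw [if_neg k]; exact ht A (sub A hA.1 k)
        · by_cases k : a ∈ A
          · rw [if_pos k, if_pos (hAB k)]; exact col_right _ _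
          · rw [if_neg k]
            by_cases k' : a ∈ B
            · rw [if_pos k']; exact (hle A S (sub A hA.1 k) le_rfl).trans x1
            · rw [if_neg k']; exact hle A B hAB (sub B hB.1 k')
        · rw [top A hA k, Finset.sdiff_self, if_neg (Finset.notMem_empty a), mu_comm]
          refine (mu_le_left _ _ _).trans ?_
          rw [ht ∅ (Finset.empty_subset _)]; simp
        · rw [if_neg k, if_neg k']; exact hy A (sub A hA k) B (sub B hB k')
    obtain ⟨z, hz⟩ := all (insert a S).card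
    exact ⟨z, fun A hA B hB => hz.pair C hl σ0 hσ ⟨hA, Or.inr (Or.inl (Finset.card_le_card hA))⟩
      ⟨hB, Or.inr (Or.inl (Finset.card_le_card hB))⟩⟩

end cube

theorem half_card {n : ℕ} (j : Fin n) (A : Finset (Fin n → Bool))
    (hA : ∀ ω ∈ A, Function.update ω j (!ω j) ∈ A) :
    2 * (A.filter fun ω => ω j = true).card = A.card := by
  have : (A.filter fun ω => ω j = true).card = (A.filter fun ω => ¬ ω j = true).card := by
    refine Finset.card_bij' (fun ω _ => Function.update ω j (!ω j))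
      (fun ω _ => Function.update ω j (!ω j)) ?_ ?_ ?_ ?_
    · intro ω h
      rw [Finset.mem_filter] at h ⊢
      exact ⟨hA ω h.1, by simp [h.2]⟩
    · intro ω h
      rw [Finset.mem_filter] at h ⊢
      exact ⟨hA ω h.1, by simpa using h.2⟩
    · intro ω _; simp
    · intro ω _; simp
  rw [two_mul, ← Finset.card_filter_add_card_filter_not (s := A) fun ω => ω j = true, ← this]

/-- Short geodesics are unique. -/
theorem Ctx.uni (C : Ctx X r) : Uni X (r / 2) := by
  intro x z v v' hr h h' he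
  by_contra hne
  obtain ⟨l, l0, hl, hR⟩ := C.rect hr h h' he hne
  have fr : ∀ n : ℕ, ∃ f : ℕ → X, ∀ i < n, dist x (f i) = l + l / 2 ∧
      ∀ j < n, i ≠ j → mu x (f i) (f j) = l + l / 4 := fun n => by
    have c0 : (0:ℝ) < (Finset.univ : Finset (Fin n → Bool)).card :=
      Nat.cast_pos.2 (Finset.card_pos.2 Finset.univ_nonempty)
    obtain ⟨y, hy⟩ := C.cube hl (σ := l / (Finset.univ : Finset (Fin n → Bool)).card)
      (by positivity) hR x (Finset.univ : Finset (Fin n → Bool)) (by field_simp; exact le_rfl)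
    let A : Fin n → Finset (Fin n → Bool) := fun i => Finset.univ.filter fun ω => ω i = true
    have a1 : ∀ i, 2 * ((A i).card : ℝ) = (Finset.univ : Finset (Fin n → Bool)).card := fun i => by
      exact_mod_cast half_card i Finset.univ fun _ _ => Finset.mem_univ _
    have a2 : ∀ i j, i ≠ j → 2 * ((A i ∩ A j).card : ℝ) = (A i).card := fun i j hij => by
      have := half_card j (A i) fun ω hω => by
        simpa [A, Function.update_of_ne hij] using hω
      rw [show A i ∩ A j = (A i).filter fun ω => ω j = true by ext; simp [A]]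
      exact_mod_cast this
    refine ⟨fun i => if h : i < n then y (A ⟨i, h⟩) else x, fun i hi => ⟨?_, fun j hj hij => ?_⟩⟩
    · simp only [dif_pos hi]
      rw [← mu_self, hy _ (Finset.subset_univ _) _ (Finset.subset_univ _), Finset.inter_self,
        ← a1 ⟨i, hi⟩]
      have := a1 ⟨i, hi⟩
      have : ((A ⟨i, hi⟩).card : ℝ) ≠ 0 := by intro e; linarith
      field_simp
    · simp only [dif_pos hi, dif_pos hj]
      have k1 := a1 ⟨i, hi⟩
      have k2 := a2 ⟨i, hi⟩ ⟨j, hj⟩ fun e => hij (congrArg Fin.val e)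
      rw [hy _ (Finset.subset_univ _) _ (Finset.subset_univ _), ← k1, ← k2]
      have : ((A ⟨i, hi⟩ ∩ A ⟨j, hj⟩).card : ℝ) ≠ 0 := by intro e; linarith
      field_simp
      ring
  obtain ⟨f0, h0⟩ := fr 2
  have a0 := h0 0 (by norm_num)
  have a1 := h0 1 (by norm_num)
  have a2 := a0.2 1 (by norm_num) (by norm_num)
  refine C.H.no_equi (s := dist (f0 0) (f0 1)) (dist_pos.2 fun e => ?_) fun n => ?_
  · rw [← e, mu_self, a0.1] at a2
    linarith
  · obtain ⟨f, hf⟩ := fr n
    refine ⟨f, fun i hi j hj hij => ?_⟩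
    have k1 := (hf i hi).1
    have k2 := (hf j hj).1
    have k3 := (hf i hi).2 j hj hij
    exact C.det (p := x) (q := x) (by linarith) (by linarith) (k1.trans a0.1.symm)
      (k2.trans a1.1.symm) (k3.trans a2.symm) (by linarith) (by linarith)

end Pool.Agent.Lib.AH
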