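import Pool.Agent.Lib.AH.Trans

set_option autoImplicit false

namespace Pool.Agent.Lib.AH

open Set Filter Topology Metric TopologicalSpace

variable {X : Type*} [MetricSpace X]

theorem seg_of_iso {a b : X} {γ : ℝ → X} (h0 : γ 0 = a) (h1 : γ (dist a b) = b)
    (h : ∀ s ∈ Icc 0 (dist a b), ∀ t ∈ Icc 0 (dist a b), dist (γ s) (γ t) = |s - t|) :
    ∃ β, Seg β a b := by
  have m : ∀ t, max 0 (min (dist a b) t) ∈ Icc 0 (dist a b) := fun t =>
    ⟨le_max_left _ _, max_le dist_nonneg (min_le_left _ _)⟩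
  have e : ∀ t ∈ Icc 0 (dist a b), max 0 (min (dist a b) t) = t := fun t ht => by
    rw [min_eq_right ht.2, max_eq_right ht.1]
  have hc : ContinuousOn γ (Icc 0 (dist a b)) :=
    (LipschitzOnWith.of_dist_le_mul (K := 1) fun s hs t ht => by
      rw [h s hs t ht, Real.dist_eq]; simp).continuousOn
  refine ⟨fun t => γ (max 0 (min (dist a b) t)), hc.comp_continuous (by fun_prop) m,
    by rw [e 0 ⟨le_rfl, dist_nonneg⟩, h0], by rw [e _ ⟨dist_nonneg, le_rfl⟩, h1],
    fun s hs t ht => by rw [e s hs, e t ht, h s hs t ht]⟩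

/-- A real tree of constant valence `k ≥ 3`. -/
structure RT (X : Type*) [MetricSpace X] (k : ℕ) : Prop where
  seg : ∀ a b : X, ∃ γ, Seg γ a b
  four : ∀ a b c d : X, dist a b + dist c d ≤ max (dist a c + dist b d) (dist a d + dist b c)
  three : 3 ≤ k
  val : ∀ t : X, Nat.card (ConnectedComponents ({t}ᶜ : Set X)) = k

variable {k : ℕ}

theorem RT.geo (h : RT X k) (x z : X) {t : ℝ} (h0 : 0 ≤ t) (h1 : t ≤ dist x z) :
    ∃ y, Col x y z ∧ dist x y = t := by
  obtain ⟨γ, hγ⟩ := h.seg x z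
  exact ⟨γ t, hγ.col h0 h1, hγ.left h0 h1⟩

theorem RT.med (h : RT X k) (x y z : X) : ∃ j, Col x j y ∧ Col x j z ∧ Col y j z := by
  have t1 := dist_triangle_left y z x
  have t2 := dist_triangle x y z
  obtain ⟨j, j1, j2⟩ := h.geo x y (t := (dist x y + dist x z - dist y z) / 2) (by linarith)
    (by linarith)
  have j3 : _ = _ := j1
  have := h.four j z x y
  rw [dist_comm j x, dist_comm z y, dist_comm z x] at this
  have j4 : dist j z ≤ (dist x z + dist y z - dist x y) / 2 := by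
    rcases le_max_iff.1 this with m | m <;> linarith
  exact ⟨j, j1, col_of_le (by linarith), col_of_le (by rw [dist_comm y j]; linarith)⟩

theorem RT.dist_eq (h : RT X k) {a x b : X} (hx : Col a x b) (c : X) :
    dist x c = max (dist a c - dist a x) (dist b c - (dist a b - dist a x)) := by
  have e : _ = _ := hx
  refine le_antisymm ?_ (max_le (by linarith [dist_triangle a x c])
    (by linarith [dist_triangle_left b c x]))
  have := h.four x c a b
  rw [dist_comm x a, dist_comm c b, dist_comm c a] at this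
  rcases le_max_iff.1 this with m | m
  · exact le_max_of_le_right (by linarith)
  · exact le_max_of_le_left (by linarith)

theorem RT.l2g (h : RT X k) {u a c v : X} (h1 : Col u a c) (h2 : Col a u v) (hne : u ≠ a) :
    Col v a c := by
  have e1 : _ = _ := h1
  have e2 : _ = _ := h2
  have p := dist_pos.2 hne
  refine col_of_le ?_
  rcases le_max_iff.1 (h.four u c v a) with m | m <;>
    linarith [dist_comm v a, dist_comm c a, dist_comm a u, dist_comm c v]

theorem RT.same (h : RT X k) (t : X) (u v : ({t}ᶜ : Set X)) (hn : ¬ Col u.1 t v.1) :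
    ConnectedComponents.mk u = ConnectedComponents.mk v := by
  obtain ⟨γ, hγ⟩ := h.seg u.1 v.1
  have m := joinedIn_of_path (F := {t}ᶜ) hγ.cont (a := 0) (b := dist u.1 v.1)
    ⟨dist_nonneg, le_rfl⟩ ⟨le_rfl, dist_nonneg⟩ fun s hs e => hn (by
      have c := hγ.col hs.1 hs.2
      rwa [mem_singleton_iff.1 e] at c)
  rw [hγ.h0, hγ.h1] at m
  exact ConnectedComponents.coe_eq_coe'.2 (pathComponent_subset_component _ m.joined_subtype)

theorem RT.diff (h : RT X k) (t : X) (u v : ({t}ᶜ : Set X)) (hc : Col u.1 t v.1) :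
    ConnectedComponents.mk u ≠ ConnectedComponents.mk v := fun e => by
  have hcl : IsClopen {w : ({t}ᶜ : Set X) | Col u.1 t w.1} := by
    refine ⟨isClosed_eq (by fun_prop) (by fun_prop), Metric.isOpen_iff.2 fun w hw =>
      ⟨dist t w.1, dist_pos.2 (Ne.symm w.2), fun w' hw' => col_of_le ?_⟩⟩
    have k1 : dist w'.1 w.1 < dist t w.1 := hw'
    have k2 : _ = _ := hw
    rcases le_max_iff.1 (h.four u.1 w.1 t w'.1) with m | m
    · linarith [dist_comm w.1 w'.1, dist_nonneg (x := t) (y := w'.1)]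
    · linarith [dist_comm w.1 t]
  have m : _ = _ := hcl.connectedComponent_subset hc (ConnectedComponents.coe_eq_coe'.1 e)
  rw [dist_self, dist_comm t] at m
  exact u.2 (dist_eq_zero.1 (by linarith))

theorem RT.fin (h : RT X k) (t : X) : Finite (ConnectedComponents ({t}ᶜ : Set X)) :=
  Nat.finite_of_card_ne_zero (by rw [h.val]; have := h.three; omega)

theorem RT.third (h : RT X k) (p a b : X) : ∃ u, u ≠ p ∧ Col u p a ∧ Col u p b := by
  classical
  have := h.fin p
  let c : X → Option (ConnectedComponents ({p}ᶜ : Set X)) := fun x =>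
    if hx : x = p then none else some (ConnectedComponents.mk ⟨x, hx⟩)
  obtain ⟨C, h1, h2⟩ : ∃ C, some C ≠ c a ∧ some C ≠ c b := by
    by_contra hno
    push Not at hno
    have := Nat.card_le_card_of_injective (fun C : ConnectedComponents ({p}ᶜ : Set X) =>
      decide (some C = c a)) fun C C' e => by
        simp only [decide_eq_decide] at e
        by_cases m : some C = c a
        · exact Option.some_injective _ (m.trans (e.1 m).symm)
        · exact Option.some_injective _ ((hno C m).trans (hno C' fun m' => m (e.2 m')).symm)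
    rw [h.val] at this
    have := h.three
    simp at *
    omega
  obtain ⟨u, rfl⟩ := ConnectedComponents.surjective_coe C
  have key : ∀ x, some (ConnectedComponents.mk u) ≠ c x → Col u.1 p x := fun x hx => by
    by_cases e : x = p
    · rw [e]; exact col_right _ _
    · by_contra m
      exact hx (by simp only [c, dif_neg e]; rw [h.same p u ⟨x, e⟩ m])
  exact ⟨u, u.2, key a h1, key b h2⟩

variable [CompleteSpace X]

theorem RT.far (h : RT X k) (a u : X) (s : ℝ) : ∃ v, Col a u v ∧ s ≤ dist a v := by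
  by_contra hno
  push Not at hno
  have s0 : 0 < s := dist_nonneg.trans_lt (hno u (col_right _ _))
  let S : ℕ → Type _ := fun n => {v // Col a u v ∧ ∀ w, Col a v w → dist a w ≤ dist a v + s / 2 ^ n}
  have step : ∀ n (v : S n), ∃ v' : S (n + 1), Col a v.1 v'.1 := by
    rintro n ⟨v, v1, v2⟩
    have e0 : 0 < s / 2 ^ (n + 1) := by positivity
    have bd : BddAbove (dist a '' {w | Col a v w}) :=
      ⟨s, by rintro _ ⟨w, hw, rfl⟩; exact (hno w (v1.trans hw)).le⟩
    obtain ⟨_, ⟨v', l1, rfl⟩, l2⟩ := exists_lt_of_lt_csSup (s := dist a '' {w | Col a v w})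
      ⟨_, v, col_right _ _, rfl⟩ (sub_lt_self _ e0)
    exact ⟨⟨v', v1.trans l1, fun w hw => by
      linarith [le_csSup bd ⟨w, Col.trans l1 hw, rfl⟩]⟩, l1⟩
  choose nx hnx using step
  let F : (n : ℕ) → S n := fun n => Nat.rec ⟨u, col_right _ _, fun w hw => by
    simp only [pow_zero, div_one]; linarith [hno w hw, dist_nonneg (x := a) (y := u)]⟩ nx n
  have hc : CauchySeq fun n => (F n).1 := by
    refine cauchySeq_of_le_geometric_two (C := 2 * s) fun n => ?_
    have e : _ = _ := hnx n (F n)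
    have e2 : 2 * s / 2 / 2 ^ n = s / 2 ^ n := by ring
    show dist (F n).1 (nx n (F n)).1 ≤ _
    linarith [(F n).2.2 _ (hnx n (F n))]
  obtain ⟨v, hv⟩ := cauchySeq_tendsto_of_complete hc
  have l1 := (tendsto_const_nhds (x := a)).dist hv
  have mono : ∀ n m, n ≤ m → Col a (F n).1 (F m).1 := fun n m hnm => by
    induction hnm with
    | refl => exact col_right _ _
    | step _ ih => exact ih.trans (hnx _ _)
  have cv : ∀ n, Col a (F n).1 v := fun n =>
    tendsto_nhds_unique_of_eventuallyEq (tendsto_const_nhds.add (tendsto_const_nhds.dist hv)) l1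
      ((eventually_ge_atTop n).mono (mono n))
  obtain ⟨w, w1, w2, -⟩ := h.third v a a
  have : dist a w ≤ dist a v + 0 := ge_of_tendsto' (l1.add (tendsto_const_nhds.div_atTop
    (tendsto_pow_atTop_atTop_of_one_lt one_lt_two))) fun n => (F n).2.2 w ((cv n).trans w2.symm)
  exact w1 (w2.symm.eq_of (by linarith)).symm

theorem RT.leg (h : RT X k) {p u : X} (hu : u ≠ p) {s : ℝ} (s0 : 0 ≤ s) :
    ∃ y, dist p y = s ∧ ∀ c, Col u p c → Col y p c := by
  obtain ⟨v, v1, v2⟩ := h.far p u s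
  obtain ⟨y, y1, y2⟩ := h.geo p v s0 v2
  exact ⟨y, y2, fun c hc => y1.symm.cut (h.l2g hc v1 hu)⟩

theorem RT.total (h : RT X k) {M : Set (X × X)}
    (hM : ∀ a ∈ M, ∀ b ∈ M, dist a.1 b.1 = dist a.2 b.2)
    (add : ∀ x y, (∀ r ∈ M, dist x r.1 = dist y r.2) → (x, y) ∈ M) (x : X) : ∃ y, (x, y) ∈ M := by
  obtain ⟨r0, hr0⟩ : M.Nonempty := by
    by_contra e
    exact e ⟨_, add x x fun r hr => absurd ⟨r, hr⟩ e⟩
  have conv : ∀ r ∈ M, ∀ r' ∈ M, ∀ j, Col r.1 j r'.1 → ∃ j', (j, j') ∈ M := fun r hr r' hr' j hj => by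
    obtain ⟨j', j1, j2⟩ := h.geo r.2 r'.2 dist_nonneg (hM r hr r' hr' ▸ hj.le1)
    exact ⟨j', add _ _ fun c hc => by
      rw [h.dist_eq hj, h.dist_eq j1, j2, hM r hr c hc, hM r' hr' c hc, hM r hr r' hr']⟩
  have low : ∀ r ∈ M, infDist x (Prod.fst '' M) ≤ dist x r.1 := fun r hr =>
    infDist_le_dist_of_mem ⟨r, hr, rfl⟩
  choose r r1 r2 using fun n : ℕ => (infDist_lt_iff (s := Prod.fst '' M) ⟨_, r0, hr0, rfl⟩).1
    (lt_add_of_pos_right (infDist x (Prod.fst '' M)) (show (0:ℝ) < 1 / 2 ^ n by positivity))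
  choose q q1 q2 using r1
  have hc : CauchySeq q := by
    refine cauchySeq_of_le_geometric_two (C := 4) fun n => ?_
    obtain ⟨j, j1, j2, j3⟩ := h.med x (q n).1 (q (n + 1)).1
    obtain ⟨j', hj⟩ := conv _ (q1 n) _ (q1 (n + 1)) j j3
    have a1 := low _ hj
    have a2 : (1:ℝ) / 2 ^ (n + 1) ≤ 1 / 2 ^ n := by gcongr <;> norm_num
    have a3 : (4:ℝ) / 2 / 2 ^ n = 2 * (1 / 2 ^ n) := by ring
    unfold Col at j1 j2 j3
    rw [Prod.dist_eq, ← hM _ (q1 n) _ (q1 (n + 1)), max_self]
    rw [dist_comm (q n).1 j] at j3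
    linarith [r2 n, r2 (n + 1), congrArg (dist x) (q2 n), congrArg (dist x) (q2 (n + 1))]
  obtain ⟨⟨a, a'⟩, ha⟩ := cauchySeq_tendsto_of_complete hc
  have t1 : Tendsto (fun n => (q n).1) atTop (𝓝 a) := (continuous_fst.tendsto _).comp ha
  have t2 : Tendsto (fun n => (q n).2) atTop (𝓝 a') := (continuous_snd.tendsto _).comp ha
  have am : (a, a') ∈ M := add _ _ fun c hc => tendsto_nhds_unique (t1.dist tendsto_const_nhds)
    ((t2.dist tendsto_const_nhds).congr fun n => (hM _ (q1 n) c hc).symm)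
  have a0 : dist x a ≤ infDist x (Prod.fst '' M) + 0 :=
    le_of_tendsto_of_tendsto' (tendsto_const_nhds.dist t1) (tendsto_const_nhds.add
      (tendsto_const_nhds.div_atTop (tendsto_pow_atTop_atTop_of_one_lt one_lt_two)))
      fun n => by rw [q2]; exact (r2 n).le
  have gate : ∀ c ∈ M, Col x a c.1 := fun c hc => by
    obtain ⟨j, j1, j2, j3⟩ := h.med x a c.1
    obtain ⟨j', hj⟩ := conv _ am _ hc j j3
    rwa [j1.eq_of (by linarith [low _ hj])] at j2
  by_cases e : x = a
  · exact ⟨a', e ▸ am⟩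
  obtain ⟨u, u1, u2⟩ : ∃ u, u ≠ a' ∧ ∀ c ∈ M, Col u a' c.2 := by
    by_contra hno
    push Not at hno
    have ex : ∀ C : ConnectedComponents ({a'}ᶜ : Set X), ∃ (c : X × X) (h1 : c.2 ≠ a'), c ∈ M ∧
        ConnectedComponents.mk (⟨c.2, h1⟩ : ({a'}ᶜ : Set X)) = C := fun C => by
      obtain ⟨u, rfl⟩ := ConnectedComponents.surjective_coe C
      obtain ⟨c, c1, c2⟩ := hno u u.2
      have c3 : c.2 ≠ a' := fun e => c2 (by rw [e]; exact col_right _ _)
      exact ⟨c, c3, c1, (h.same a' u ⟨c.2, c3⟩ c2).symm⟩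
    choose c c1 c2 c3 using ex
    have c4 : ∀ C, (c C).1 ≠ a := fun C =>
      dist_pos.1 (by rw [hM _ (c2 C) _ am]; exact dist_pos.2 (c1 C))
    have := h.fin a
    have := h.fin a'
    have := Nat.card_le_card_of_injective
      (fun o : Option (ConnectedComponents ({a'}ᶜ : Set X)) => ConnectedComponents.mk
        (o.elim ⟨x, e⟩ fun C => ⟨(c C).1, c4 C⟩ : ({a}ᶜ : Set X))) (by
      rintro (_ | C) (_ | C') m
      · rfl
      · exact absurd m (h.diff a _ _ (gate _ (c2 C')))
      · exact absurd m.symm (h.diff a _ _ (gate _ (c2 C)))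
      · by_contra m'
        refine h.diff a _ _ ?_ m
        have m2 : Col (c C).2 a' (c C').2 := by
          by_contra m2
          exact m' (by rw [← c3 C, ← c3 C', h.same a' ⟨_, c1 C⟩ ⟨_, c1 C'⟩ m2])
        show dist (c C).1 a + dist a (c C').1 = dist (c C).1 (c C').1
        rw [hM _ (c2 C) _ am, hM _ am _ (c2 C'), hM _ (c2 C) _ (c2 C')]
        exact m2)
    rw [Finite.card_option, h.val, h.val] at this
    omega
  obtain ⟨y, y1, y2⟩ := h.leg u1 (dist_nonneg (x := x) (y := a))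
  refine ⟨y, add _ _ fun c hc => ?_⟩
  rw [← gate c hc, ← y2 _ (u2 c hc), dist_comm y, y1, hM _ am c hc]

theorem RT.isAH (h : RT X k) : IsAH X := by
  intro R hR
  obtain ⟨M, hRM, hM⟩ := zorn_subset_nonempty
    {M : Set (X × X) | ∀ a ∈ M, ∀ b ∈ M, dist a.1 b.1 = dist a.2 b.2} (fun c hc hch _ => ⟨⋃₀ c, by
      rintro a ⟨A, hA, ha⟩ b ⟨B, hB, hb⟩
      rcases hch.total hA hB with m | m
      · exact hc hB a (m ha) b hb
      · exact hc hA a ha b (m hb), fun A hA => subset_sUnion_of_mem hA⟩) R hR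
  have hM1 := hM.prop
  have add : ∀ x y, (∀ r ∈ M, dist x r.1 = dist y r.2) → (x, y) ∈ M := fun x y hxy =>
    hM.le_of_ge (y := insert (x, y) M) (by
      rintro a (rfl | ha) b (rfl | hb)
      · simp
      · exact hxy b hb
      · rw [dist_comm, dist_comm a.2]; exact hxy a ha
      · exact hM1 a ha b hb) (subset_insert _ _) (mem_insert _ _)
  choose f hf using h.total hM1 add
  have sur := h.total (M := Prod.swap ⁻¹' M) (fun a ha b hb => (hM1 _ ha _ hb).symm)
    fun x y hxy => add y x fun r hr => (hxy r.swap hr).symm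
  have val : ∀ r ∈ M, f r.1 = r.2 := fun r hr =>
    dist_eq_zero.1 ((hM1 _ (hf r.1) r hr).symm.trans (dist_self _))
  have iso : Isometry f := Isometry.of_dist_eq fun a b => (hM1 _ (hf a) _ (hf b)).symm
  exact ⟨⟨Equiv.ofBijective f ⟨iso.injective, fun y => (sur y).imp fun x hx => val (x, y) hx⟩, iso⟩,
    fun r hr => val r (hRM hr)⟩

theorem RT.not_lc [Nonempty X] (h : RT X k) : ¬ LocallyCompactSpace X := by
  intro _
  obtain ⟨x⟩ : Nonempty X := inferInstance
  obtain ⟨η, η0, hK⟩ := exists_isCompact_closedBall x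
  obtain ⟨u, hu, -⟩ := h.third x x x
  obtain ⟨x', hx', -⟩ := h.leg hu (half_pos η0).le
  have t0 : ∀ n : ℕ, 0 < η / 2 / 2 ^ n := fun n => by positivity
  have hw : ∀ n : ℕ, ∃ w, dist w x = η / 2 + η / 2 / 2 ^ n ∧ dist w x' = η - η / 2 / 2 ^ n := by
    intro n
    obtain ⟨p, p1, p2⟩ := h.geo x x' (t0 n).le
      ((div_le_self (half_pos η0).le (one_le_pow₀ one_le_two)).trans hx'.ge)
    obtain ⟨v, v1, v2, v3⟩ := h.third p x x'
    obtain ⟨w, w1, w2⟩ := h.leg v1 (half_pos η0).le
    have e1 : _ = _ := w2 _ v2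
    have e2 : _ = _ := w2 _ v3
    have e3 : _ = _ := p1
    rw [dist_comm w p] at e1 e2
    rw [dist_comm p x] at e1
    exact ⟨w, by linarith, by linarith⟩
  choose w w1 w2 using hw
  obtain ⟨j, hj⟩ := not_sep (z := w) (half_pos η0) (Eventually.of_forall fun l => by
    filter_upwards [UU_le (eventually_gt_atTop l)] with j hj
    have : η / 2 / 2 ^ j < η / 2 / 2 ^ l := by gcongr; norm_num
    rcases le_max_iff.1 (h.four (w l) x (w j) x') with m | m
    · linarith [w1 l, w2 j]
    · linarith [w1 l, w2 j, w2 l, w1 j, dist_comm x (w j)]) hK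
  refine hj (mem_closedBall.2 ?_)
  linarith [w1 j, div_le_self (half_pos η0).le (one_le_pow₀ (n := j) one_le_two)]

omit [CompleteSpace X] in
theorem RT.ball (h : RT X k) (x : X) {η : ℝ} (hη : 0 < η) : IsPathConnected (ball x η) := by
  refine ⟨x, mem_ball_self hη, fun y hy => ?_⟩
  obtain ⟨γ, hγ⟩ := h.seg x y
  have m := joinedIn_of_path (F := Metric.ball x η) hγ.cont (a := 0) (b := dist x y)
    ⟨le_rfl, dist_nonneg⟩ ⟨dist_nonneg, le_rfl⟩ fun s hs => by
      rw [mem_ball', hγ.left hs.1 hs.2]; exact hs.2.trans_lt (mem_ball'.1 hy)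
  rwa [hγ.h0, hγ.h1] at m

theorem RT.converse [Nonempty X] (h : RT X k) {Y : Type*} [MetricSpace Y] (e : Y ≃ X) {g : ℝ → ℝ}
    (hc : ContinuousOn g (Ici 0)) (hm : StrictMonoOn g (Ici 0))
    (hd : ∀ x y, dist x y = g (dist (e x) (e y))) :
    CompleteSpace Y ∧ ConnectedSpace Y ∧ LocallyConnectedSpace Y ∧
      (∀ (A B : Set Y) (f : A ≃ᵢ B), ∃ g : Y ≃ᵢ Y, ∀ a : A, g (a : Y) = (f a : Y)) ∧
      ¬ LocallyCompactSpace Y := by
  obtain ⟨x0⟩ : Nonempty X := inferInstance
  have g0 : g 0 = 0 := by simpa using (hd (e.symm x0) (e.symm x0)).symm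
  let u : Y ≃ᵤ X := ⟨e, Metric.uniformContinuous_iff.2 fun η hη => ⟨g η, by
      rw [← g0]; exact hm self_mem_Ici hη.le hη, fun {a b} m => by
      rw [hd] at m; exact (hm.lt_iff_lt dist_nonneg hη.le).1 m⟩,
    Metric.uniformContinuous_iff.2 fun η hη => by
      obtain ⟨δ, δ0, hδ⟩ := Metric.continuousWithinAt_iff.1 (hc 0 self_mem_Ici) η hη
      refine ⟨δ, δ0, fun {a b} m => ?_⟩
      have := hδ (x := dist a b) dist_nonneg (by simpa using m)
      rw [g0, Real.dist_eq, sub_zero] at this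
      rw [hd]
      simpa using (abs_lt.1 this).2⟩
  have : PathConnectedSpace X := ⟨inferInstance, fun a b =>
    ((h.ball a (lt_add_of_le_of_pos dist_nonneg one_pos : 0 < dist a b + 1)).joinedIn a
      (mem_ball_self (by positivity)) b (by rw [mem_ball']; linarith)).joined⟩
  have : LocallyConnectedSpace X := locallyConnectedSpace_of_connected_bases _ _
    (fun x => nhds_basis_ball) fun x η hη => (h.ball x hη).isConnected.isPreconnected
  refine ⟨u.completeSpace_iff.2 inferInstance, u.toHomeomorph.connectedSpace_iff.2 inferInstance,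
    u.toHomeomorph.locallyConnectedSpace, fun A B f => ?_,
    fun m => h.not_lc (u.toHomeomorph.locallyCompactSpace_iff.1 m)⟩
  obtain ⟨G, hG⟩ := h.isAH.fam (fun a : A => e a) (fun a => e (f a)) fun a b =>
    hm.injOn dist_nonneg dist_nonneg (by rw [← hd, ← hd]; exact (f.dist_eq a b).symm)
  refine ⟨⟨e.trans (G.toEquiv.trans e.symm), Isometry.of_dist_eq fun a b => ?_⟩, fun a => ?_⟩
  · rw [hd, hd a b, ← G.dist_eq (e a)]; simp
  · exact e.symm_apply_eq.2 (hG a)

end Pool.Agent.Lib.AH
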