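import Pool.Agent.Lib.AH.Big

set_option autoImplicit false

namespace Pool.Agent.Lib.AH

open Set Filter Topology Metric TopologicalSpace

variable {X : Type*} [MetricSpace X]

/-- `y` lies between `x` and `z`. -/
def Col (x y z : X) : Prop := dist x y + dist y z = dist x z

/-- Approximate midpoints exist. -/
def AM (X : Type*) [MetricSpace X] : Prop :=
  ∀ x y : X, ∀ ε > 0, ∃ m, dist x m ≤ dist x y / 2 + ε ∧ dist m y ≤ dist x y / 2 + ε

theorem Col.symm {x y z : X} (h : Col x y z) : Col z y x := by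
  unfold Col at *
  rw [dist_comm z y, dist_comm y x, dist_comm z x]; linarith

theorem col_left (x z : X) : Col x x z := by simp [Col]

theorem col_right (x z : X) : Col x z z := by simp [Col]

theorem Col.le1 {x y z : X} (h : Col x y z) : dist x y ≤ dist x z := by
  unfold Col at h; linarith [dist_nonneg (x := y) (y := z)]

theorem Col.le2 {x y z : X} (h : Col x y z) : dist y z ≤ dist x z := by
  unfold Col at h; linarith [dist_nonneg (x := x) (y := y)]

/-- `x a b` and `x b c` give `x a c`. -/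
theorem Col.trans {x a b c : X} (h1 : Col x a b) (h2 : Col x b c) : Col x a c := by
  unfold Col at *
  linarith [dist_triangle a b c, dist_triangle x a c]

/-- `x a b` and `x b c` give `a b c`. -/
theorem Col.cut {x a b c : X} (h1 : Col x a b) (h2 : Col x b c) : Col a b c := by
  unfold Col at *
  linarith [dist_triangle a b c, dist_triangle x a c]

/-- `x a c` and `a b c` give `x a b`. -/
theorem Col.left {x a b c : X} (h1 : Col x a c) (h2 : Col a b c) : Col x a b := by
  unfold Col at *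
  linarith [dist_triangle x a b, dist_triangle x b c]

/-- `x a c` and `a b c` give `x b c`. -/
theorem Col.right {x a b c : X} (h1 : Col x a c) (h2 : Col a b c) : Col x b c := by
  unfold Col at *
  linarith [dist_triangle x a b, dist_triangle x b c]

theorem Col.eq_of {x a b : X} (h : Col x a b) (he : dist x b ≤ dist x a) : a = b := by
  unfold Col at h
  exact dist_le_zero.1 (by linarith)

theorem Col.map (g : X ≃ᵢ X) {x y z : X} (h : Col x y z) : Col (g x) (g y) (g z) := by
  unfold Col at *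
  simpa only [g.dist_eq] using h

theorem col_of_le {x y z : X} (h : dist x y + dist y z ≤ dist x z) : Col x y z :=
  le_antisymm h (dist_triangle _ _ _)

theorem dyadic [CompleteSpace X] (P : X → X → ℝ → Prop)
    (hP : ∀ x y L, P x y L → dist x y ≤ L)
    (hm : ∀ x y L, P x y L → ∃ m, P x m (L / 2) ∧ P m y (L / 2)) {x y : X} {L : ℝ}
    (h : P x y L) : ∃ γ : ℝ → X, (∀ t ≤ 0, γ t = x) ∧ (∀ t, 1 ≤ t → γ t = y) ∧
      ∀ s t, dist (γ s) (γ t) ≤ L * |s - t| := by
  have L0 : 0 ≤ L := dist_nonneg.trans (hP _ _ _ h)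
  let Q : X → X → ℝ → Prop := fun a b l => a = b ∨ P a b l
  have hQ : ∀ a b l, ∃ m, Q a b l → Q a m (l / 2) ∧ Q m b (l / 2) ∧ (a = b → m = a) := by
    intro a b l
    by_cases e : a = b
    · exact ⟨a, fun _ => ⟨Or.inl rfl, Or.inl e, fun _ => rfl⟩⟩
    by_cases p : P a b l
    · obtain ⟨m, h1, h2⟩ := hm a b l p
      exact ⟨m, fun _ => ⟨Or.inr h1, Or.inr h2, fun e' => absurd e' e⟩⟩
    · exact ⟨a, fun q => (q.elim e p).elim⟩
  choose mid hmid using hQ
  let f : ℕ → ℕ → X := fun n => Nat.rec (fun k => if k = 0 then x else y)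
    (fun n g k => if k % 2 = 0 then g (k / 2) else mid (g (k / 2)) (g (k / 2 + 1)) (L / 2 ^ n)) n
  have fe : ∀ n k, f (n + 1) (2 * k) = f n k := fun n k => by
    show (if 2 * k % 2 = 0 then f n (2 * k / 2) else _) = _
    rw [if_pos (by omega), show 2 * k / 2 = k by omega]
  have fo : ∀ n k, f (n + 1) (2 * k + 1) = mid (f n k) (f n (k + 1)) (L / 2 ^ n) := fun n k => by
    show (if (2 * k + 1) % 2 = 0 then _ else mid (f n ((2 * k + 1) / 2))
      (f n ((2 * k + 1) / 2 + 1)) (L / 2 ^ n)) = _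
    rw [if_neg (by omega), show (2 * k + 1) / 2 = k by omega]
  have inv : ∀ n k, Q (f n k) (f n (k + 1)) (L / 2 ^ n) := by
    intro n
    induction n with
    | zero =>
      intro k
      by_cases k0 : k = 0
      · subst k0; right; simpa [f] using h
      · left; simp [f, k0]
    | succ n ih =>
      intro k
      have e : L / 2 ^ (n + 1) = L / 2 ^ n / 2 := by rw [pow_succ, div_div]
      obtain ⟨j, rfl | rfl⟩ := Nat.even_or_odd' k
      · rw [fe, fo, e]; exact (hmid _ _ _ (ih j)).1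
      · rw [fo, show 2 * j + 1 + 1 = 2 * (j + 1) by ring, fe, e]; exact (hmid _ _ _ (ih j)).2.1
  have f0 : ∀ n, f n 0 = x := by
    intro n
    induction n with
    | zero => simp [f]
    | succ n ih => exact (fe n 0).trans ih
  have f1 : ∀ n k, 2 ^ n ≤ k → f n k = y := by
    intro n
    induction n with
    | zero => intro k hk; have : k ≠ 0 := by omega
              simp [f, this]
    | succ n ih =>
      intro k hk
      rw [pow_succ] at hk
      obtain ⟨j, rfl | rfl⟩ := Nat.even_or_odd' k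
      · rw [fe]; exact ih j (by omega)
      · have e1 := ih j (by omega)
        have e2 := ih (j + 1) (by omega)
        rw [fo, (hmid _ _ _ (inv n j)).2.2 (e1.trans e2.symm), e1]
  have d1 : ∀ n k, dist (f n k) (f n (k + 1)) ≤ L / 2 ^ n := fun n k => by
    rcases inv n k with e | p
    · rw [e, dist_self]; positivity
    · exact hP _ _ _ p
  have dj : ∀ n k j : ℕ, dist (f n k) (f n (k + j)) ≤ j * (L / 2 ^ n) := by
    intro n k j
    induction j with
    | zero => simp
    | succ j ih =>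
      have := dist_triangle (f n k) (f n (k + j)) (f n (k + j + 1))
      push_cast
      rw [← add_assoc]
      linarith [d1 n (k + j)]
  let g : ℝ → ℕ → X := fun t n => f n ⌊2 ^ n * t⌋₊
  have gc : ∀ t, CauchySeq (g t) := fun t => by
    refine cauchySeq_of_le_geometric_two (C := L) fun n => ?_
    have e : ⌊2 ^ (n + 1) * t⌋₊ / 2 = ⌊2 ^ n * t⌋₊ := by
      rw [← Nat.floor_div_natCast]; congr 1; push_cast; ring
    have e2 : L / 2 / 2 ^ n = L / 2 ^ (n + 1) := by rw [pow_succ', div_div]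
    show dist (f n _) (f (n + 1) _) ≤ _
    rw [← e, ← fe, e2]
    obtain ⟨j, hj | hj⟩ := Nat.even_or_odd' ⌊2 ^ (n + 1) * t⌋₊
    · rw [hj, show 2 * j / 2 = j by omega, dist_self]; positivity
    · rw [hj, show (2 * j + 1) / 2 = j by omega]; exact d1 (n + 1) (2 * j)
  choose γ hγ using fun t => cauchySeq_tendsto_of_complete (gc t)
  have key : ∀ s t, s ≤ t → dist (γ s) (γ t) ≤ L * (t - s) := by
    intro s t hst
    have lim : Tendsto (fun n : ℕ => L * (t - s) + L / 2 ^ n) atTop (𝓝 (L * (t - s) + 0)) :=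
      tendsto_const_nhds.add (tendsto_const_nhds.div_atTop
        (tendsto_pow_atTop_atTop_of_one_lt one_lt_two))
    rw [add_zero] at lim
    refine le_of_tendsto_of_tendsto' ((hγ s).dist (hγ t)) lim fun n => ?_
    have p2 : (0:ℝ) < 2 ^ n := by positivity
    have hab : 2 ^ n * s ≤ 2 ^ n * t := by gcongr
    obtain ⟨j, hj⟩ := Nat.exists_eq_add_of_le (Nat.floor_le_floor hab)
    have hj2 : (j:ℝ) ≤ 2 ^ n * (t - s) + 1 := by
      have a1 := Nat.sub_one_lt_floor (2 ^ n * s)
      have a2 : (⌊2 ^ n * t⌋₊ : ℝ) = ⌊2 ^ n * s⌋₊ + j := by rw [hj]; push_cast; rfl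
      rcases le_total 0 (2 ^ n * t) with k | k
      · have := Nat.floor_le k
        linarith
      · rw [Nat.floor_of_nonpos k] at a2
        have : (0:ℝ) ≤ ⌊2 ^ n * s⌋₊ := Nat.cast_nonneg _
        push_cast at a2
        linarith
    show dist (f n _) (f n _) ≤ _
    rw [hj]
    refine (dj n _ j).trans ?_
    calc (j:ℝ) * (L / 2 ^ n) ≤ (2 ^ n * (t - s) + 1) * (L / 2 ^ n) := by gcongr
      _ = _ := by field_simp
  refine ⟨γ, fun t ht => ?_, fun t ht => ?_, fun s t => ?_⟩
  · refine tendsto_nhds_unique (hγ t) (tendsto_const_nhds.congr fun n => ?_)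
    show x = f n _
    rw [Nat.floor_of_nonpos (mul_nonpos_of_nonneg_of_nonpos (by positivity) ht), f0]
  · refine tendsto_nhds_unique (hγ t) (tendsto_const_nhds.congr fun n => ?_)
    refine (f1 n _ (Nat.le_floor ?_)).symm
    push_cast
    exact le_mul_of_one_le_right (by positivity) ht
  · rcases le_total s t with k | k
    · rw [abs_sub_comm, abs_of_nonneg (sub_nonneg.2 k)]; exact key s t k
    · rw [dist_comm, abs_of_nonneg (sub_nonneg.2 k)]; exact key t s k

/-- A path of speed at most `L` from `x` to `y`, constant outside the unit interval. -/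
structure NP (γ : ℝ → X) (x y : X) (L : ℝ) : Prop where
  h0 : ∀ t ≤ 0, γ t = x
  h1 : ∀ t, 1 ≤ t → γ t = y
  lip : ∀ s t, dist (γ s) (γ t) ≤ L * |s - t|

theorem NP.nonneg {γ : ℝ → X} {x y : X} {L : ℝ} (h : NP γ x y L) : 0 ≤ L := by
  simpa using dist_nonneg.trans (h.lip 1 0)

theorem NP.cont {γ : ℝ → X} {x y : X} {L : ℝ} (h : NP γ x y L) : Continuous γ :=
  (LipschitzWith.of_dist_le_mul (K := ⟨L, h.nonneg⟩) fun s t => h.lip s t).continuous

theorem NP.left {γ : ℝ → X} {x y : X} {L : ℝ} (h : NP γ x y L) {t : ℝ} (ht : 0 ≤ t) :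
    dist x (γ t) ≤ L * t := by
  have := h.lip 0 t
  rwa [h.h0 0 le_rfl, zero_sub, abs_neg, abs_of_nonneg ht] at this

theorem NP.right {γ : ℝ → X} {x y : X} {L : ℝ} (h : NP γ x y L) {t : ℝ} (ht : t ≤ 1) :
    dist (γ t) y ≤ L * (1 - t) := by
  have := h.lip t 1
  rwa [h.h1 1 le_rfl, abs_sub_comm, abs_of_nonneg (sub_nonneg.2 ht)] at this

theorem NP.sum {γ : ℝ → X} {x y : X} {L : ℝ} (h : NP γ x y L) (t : ℝ) :
    dist x (γ t) + dist (γ t) y ≤ L := by
  have k := h.left zero_le_one
  rw [h.h1 1 le_rfl, mul_one] at k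
  rcases le_total t 0 with a | a
  · rw [h.h0 t a, dist_self, zero_add]; exact k
  rcases le_total 1 t with b | b
  · rw [h.h1 t b, dist_self, add_zero]; exact k
  · linarith [h.left a, h.right b]

theorem NP.map {γ : ℝ → X} {x y : X} {L : ℝ} (h : NP γ x y L) (g : X ≃ᵢ X) (hx : g x = x)
    (hy : g y = y) : NP (fun t => g (γ t)) x y L :=
  ⟨fun t ht => by rw [h.h0 t ht, hx], fun t ht => by rw [h.h1 t ht, hy],
    fun s t => by rw [g.dist_eq]; exact h.lip s t⟩

theorem AM.path [CompleteSpace X] (h : AM X) {x y : X} {L : ℝ} (hL : dist x y < L) :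
    ∃ γ, NP γ x y L := by
  obtain ⟨γ, h0, h1, h2⟩ := dyadic (fun a b l => dist a b < l) (fun _ _ _ k => k.le)
    (fun a b l k => by
      obtain ⟨m, k1, k2⟩ := h a b ((l - dist a b) / 4) (by linarith)
      exact ⟨m, by linarith, by linarith⟩) hL
  exact ⟨γ, h0, h1, h2⟩

theorem AM.pathConnected [CompleteSpace X] [Nonempty X] (h : AM X) : PathConnectedSpace X := by
  refine ⟨inferInstance, fun x y => ?_⟩
  obtain ⟨γ, hγ⟩ := h.path (lt_add_one (dist x y))
  have := joinedIn_of_path (F := univ) hγ.cont (a := 0) (b := 1) (s := 0) (t := 1)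
    ⟨le_rfl, zero_le_one⟩ ⟨zero_le_one, le_rfl⟩ fun _ _ => mem_univ _
  rw [hγ.h0 0 le_rfl, hγ.h1 1 le_rfl] at this
  exact this.joined

/-- A point almost between, at a prescribed distance from the first point. -/
theorem AM.nb [CompleteSpace X] (h : AM X) (x y : X) {t η : ℝ} (h0 : 0 ≤ t) (h1 : t ≤ dist x y)
    (hη : 0 < η) : ∃ c, dist x c = t ∧ dist c y ≤ dist x y - t + η := by
  obtain ⟨γ, hγ⟩ := h.path (lt_add_of_pos_right (dist x y) hη)
  have hc := hγ.cont
  obtain ⟨s, -, hs⟩ := intermediate_value_Icc (zero_le_one' ℝ)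
    (f := fun s => dist x (γ s)) (by fun_prop)
    (show t ∈ _ from ⟨by simp [hγ.h0 0 le_rfl, h0], by simp [hγ.h1 1 le_rfl, h1]⟩)
  exact ⟨γ s, hs, by linarith [hγ.sum s, show dist x (γ s) = t from hs]⟩

/-- There are no arbitrarily large equilateral sets of a fixed side. -/
theorem IsAH.no_equi (H : IsAH X) {s : ℝ} (hs : 0 < s)
    (h : ∀ n, ∃ f : ℕ → X, ∀ i < n, ∀ j < n, i ≠ j → dist (f i) (f j) = s) : False := by
  classical
  obtain ⟨x, hx⟩ := H.countable_real (fun i j => if i = j then 0 else s) fun n => by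
    obtain ⟨f, hf⟩ := h n
    refine ⟨f, fun i hi j hj => ?_⟩
    by_cases e : i = j
    · simp [e]
    · rw [if_neg e, hf i hi j hj e]
  let S : Set (Set X) := {M | ∀ a ∈ M, ∀ b ∈ M, a ≠ b → dist a b = s}
  obtain ⟨M, hxM, hM⟩ := zorn_subset_nonempty S (fun c hc hch _ => ⟨⋃₀ c, by
      rintro a ⟨A, hA, ha⟩ b ⟨B, hB, hb⟩
      rcases hch.total hA hB with k | k
      · exact hc hB a (k ha) b hb
      · exact hc hA a ha b (k hb), fun A hA => subset_sUnion_of_mem hA⟩) (range x) (by
    rintro _ ⟨i, rfl⟩ _ ⟨j, rfl⟩ hne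
    rw [hx, if_neg fun e => hne (by rw [e])])
  have hM1 := hM.prop
  have xm : ∀ i, x i ∈ M := fun i => hxM ⟨i, rfl⟩
  obtain ⟨g, hg⟩ := H ((range fun i => (x i, x (i + 1))) ∪ {r | r.1 = r.2 ∧ r.1 ∈ M ∧
      r.1 ∉ range x}) (by
    rintro _ (⟨i, rfl⟩ | ⟨h1, h2, h3⟩) _ (⟨j, rfl⟩ | ⟨k1, k2, k3⟩)
    · simp [hx]
    · simp only
      rw [← k1, hM1 _ (xm i) _ k2 fun e => k3 ⟨i, e⟩, hM1 _ (xm _) _ k2 fun e => k3 ⟨_, e⟩]
    · simp only
      rw [← h1, hM1 _ h2 _ (xm j) fun e => h3 ⟨j, e.symm⟩,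
        hM1 _ h2 _ (xm _) fun e => h3 ⟨_, e.symm⟩]
    · rw [← h1, ← k1])
  have far : ∀ m ∈ M, dist (g.symm (x 0)) m = s := by
    intro m hm
    rw [← g.dist_eq, g.apply_symm_apply]
    by_cases k : m ∈ range x
    · obtain ⟨i, rfl⟩ := k
      rw [show g (x i) = x (i + 1) from hg (x i, x (i + 1)) (Or.inl ⟨i, rfl⟩), hx, if_neg (by omega)]
    · rw [show g m = m from hg (m, m) (Or.inr ⟨rfl, hm, k⟩)]
      exact hM1 _ (xm 0) _ hm fun e => k ⟨0, e⟩
  have hnew : insert (g.symm (x 0)) M ∈ S := by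
    rintro a (rfl | ha) b (rfl | hb) hne
    · exact absurd rfl hne
    · exact far b hb
    · rw [dist_comm]; exact far a ha
    · exact hM1 a ha b hb hne
  have := far _ (hM.le_of_ge hnew (subset_insert _ _) (mem_insert _ _))
  rw [dist_self] at this
  exact hs.ne this

end Pool.Agent.Lib.AH
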