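import Pool.Agent.Lib.AH.Mid

set_option autoImplicit false

namespace Pool.Agent.Lib.AH

open Set Filter Topology Metric TopologicalSpace

variable {X : Type*} [MetricSpace X]

/-- A unit speed geodesic from `x` to `y`. -/
structure Seg (γ : ℝ → X) (x y : X) : Prop where
  cont : Continuous γ
  h0 : γ 0 = x
  h1 : γ (dist x y) = y
  iso : ∀ s ∈ Icc 0 (dist x y), ∀ t ∈ Icc 0 (dist x y), dist (γ s) (γ t) = |s - t|

theorem Seg.left {γ : ℝ → X} {x y : X} (h : Seg γ x y) {t : ℝ} (h0 : 0 ≤ t) (h1 : t ≤ dist x y) :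
    dist x (γ t) = t := by
  have := h.iso 0 ⟨le_rfl, dist_nonneg⟩ t ⟨h0, h1⟩
  rwa [h.h0, zero_sub, abs_neg, abs_of_nonneg h0] at this

theorem Seg.right {γ : ℝ → X} {x y : X} (h : Seg γ x y) {t : ℝ} (h0 : 0 ≤ t)
    (h1 : t ≤ dist x y) : dist (γ t) y = dist x y - t := by
  have := h.iso t ⟨h0, h1⟩ _ ⟨dist_nonneg, le_rfl⟩
  rwa [h.h1, abs_sub_comm, abs_of_nonneg (sub_nonneg.2 h1)] at this

theorem Seg.col {γ : ℝ → X} {x y : X} (h : Seg γ x y) {t : ℝ} (h0 : 0 ≤ t)
    (h1 : t ≤ dist x y) : Col x (γ t) y := by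
  unfold Col; rw [h.left h0 h1, h.right h0 h1]; ring

theorem Geo.seg [CompleteSpace X] {r : ℝ} (h : Geo X r) {x y : X} (hr : dist x y ≤ r) :
    ∃ γ, Seg γ x y := by
  rcases eq_or_lt_of_le (dist_nonneg (x := x) (y := y)) with k | k
  · refine ⟨fun _ => x, continuous_const, rfl, dist_eq_zero.1 k.symm, fun s hs t ht => ?_⟩
    rw [← k] at hs ht
    rw [le_antisymm hs.2 hs.1, le_antisymm ht.2 ht.1]; simp
  obtain ⟨γ, h0, h1, h2⟩ := dyadic (fun a b l => dist a b ≤ l ∧ dist a b ≤ r) (fun _ _ _ k => k.1)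
    (fun a b l k => by
      have d0 := dist_nonneg (x := a) (y := b)
      obtain ⟨m, k1, k2⟩ := h a b k.2 (dist a b / 2) (by linarith) (by linarith)
      have k3 : _ = _ := k1
      exact ⟨m, ⟨by linarith [k.1], by linarith [k.2]⟩, by linarith [k.1], by linarith [k.2]⟩)
    (x := x) (y := y) (L := dist x y) ⟨le_rfl, hr⟩
  have hγ : NP γ x y (dist x y) := ⟨h0, h1, h2⟩
  have hc := hγ.cont
  have key : ∀ s ∈ Icc 0 (dist x y), ∀ t ∈ Icc 0 (dist x y), s ≤ t →
      dist (γ (s / dist x y)) (γ (t / dist x y)) = t - s := by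
    intro s hs t ht hst
    have a1 := hγ.left (div_nonneg hs.1 k.le)
    have a2 := hγ.right ((div_le_one k).2 ht.2)
    have a3 := h2 (s / dist x y) (t / dist x y)
    rw [← sub_div, abs_div, abs_of_pos k, mul_div_cancel₀ _ k.ne', abs_sub_comm,
      abs_of_nonneg (sub_nonneg.2 hst)] at a3
    rw [mul_div_cancel₀ _ k.ne'] at a1
    rw [mul_sub, mul_div_cancel₀ _ k.ne'] at a2
    linarith [dist_triangle4 x (γ (s / dist x y)) (γ (t / dist x y)) y]
  refine ⟨fun t => γ (t / dist x y), by fun_prop, h0 _ (by simp), h1 _ (by rw [div_self k.ne']),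
    fun s hs t ht => ?_⟩
  rcases le_total s t with m | m
  · rw [key s hs t ht m, abs_sub_comm, abs_of_nonneg (sub_nonneg.2 m)]
  · rw [dist_comm, key t ht s hs m, abs_of_nonneg (sub_nonneg.2 m)]

theorem IsAH.four (H : IsAH X) {a b c d a' b' c' d' : X} (h1 : dist a b = dist a' b')
    (h2 : dist a c = dist a' c') (h3 : dist b c = dist b' c') (h4 : dist a d = dist a' d')
    (h5 : dist b d = dist b' d') (h6 : dist c d = dist c' d') :
    ∃ g : X ≃ᵢ X, g a = a' ∧ g b = b' ∧ g c = c' ∧ g d = d' := by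
  obtain ⟨g, hg⟩ := H {(a, a'), (b, b'), (c, c'), (d, d')} (by
    have k1 : dist b a = dist b' a' := by rw [dist_comm, h1, dist_comm]
    have k2 : dist c a = dist c' a' := by rw [dist_comm, h2, dist_comm]
    have k3 : dist c b = dist c' b' := by rw [dist_comm, h3, dist_comm]
    have k4 : dist d a = dist d' a' := by rw [dist_comm, h4, dist_comm]
    have k5 : dist d b = dist d' b' := by rw [dist_comm, h5, dist_comm]
    have k6 : dist d c = dist d' c' := by rw [dist_comm, h6, dist_comm]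
    rintro _ (rfl | rfl | rfl | rfl) _ (rfl | rfl | rfl | rfl) <;> simp [*])
  exact ⟨g, hg (a, a') (by simp), hg (b, b') (by simp), hg (c, c') (by simp), hg (d, d') (by simp)⟩

/-- Geodesics of length up to `r` exist and can be prolonged to length `r`. -/
structure Ctx (X : Type*) [MetricSpace X] (r : ℝ) : Prop where
  H : IsAH X
  geo : Geo X r
  ext : ∀ (x y : X) (t : ℝ), 0 ≤ t → dist x y + t ≤ r → ∃ z, Col x y z ∧ dist y z = t

theorem Ctx.mono {r r' : ℝ} (h : Ctx X r) (hr : r' ≤ r) : Ctx X r' :=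
  ⟨h.H, h.geo.mono hr, fun x y t h0 h1 => h.ext x y t h0 (h1.trans hr)⟩

theorem IsAH.ext_of [PreconnectedSpace X] (H : IsAH X) {r : ℝ} (hg : Geo X r) {p q : X}
    (x y : X) (t : ℝ) (h0 : 0 ≤ t) (h1 : dist x y + t ≤ r) (h2 : dist x y + t ≤ dist p q) :
    ∃ z, Col x y z ∧ dist y z = t := by
  obtain ⟨w, hw⟩ := realized p q (add_nonneg dist_nonneg h0) h2
  obtain ⟨m, m1, m2⟩ := hg p w (hw ▸ h1) (dist x y) dist_nonneg (by linarith)
  obtain ⟨g, rfl, rfl⟩ := H.two m2
  have m3 : _ = _ := m1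
  exact ⟨g w, m1.map g, by rw [g.dist_eq] at hw ⊢; linarith⟩

/-- The largest height over `p` of a point between `p` and `v` and between `p` and `v'`. -/
noncomputable def mu (p v v' : X) : ℝ := sSup (dist p '' {j | Col p j v ∧ Col p j v'})

theorem mu_comm (p v v' : X) : mu p v v' = mu p v' v := by
  unfold mu; simp only [and_comm]

theorem le_mu {p v v' j : X} (h : Col p j v) (h' : Col p j v') : dist p j ≤ mu p v v' :=
  le_csSup ⟨dist p v, by rintro _ ⟨k, hk, rfl⟩; exact hk.1.le1⟩ ⟨j, ⟨h, h'⟩, rfl⟩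

theorem mu_nonneg (p v v' : X) : 0 ≤ mu p v v' := by
  simpa using le_mu (col_left p v) (col_left p v')

theorem mu_le {p v v' : X} {c : ℝ} (h : ∀ j, Col p j v → Col p j v' → dist p j ≤ c) :
    mu p v v' ≤ c :=
  csSup_le ⟨_, p, ⟨col_left _ _, col_left _ _⟩, rfl⟩ (by
    rintro _ ⟨k, hk, rfl⟩; exact h k hk.1 hk.2)

theorem mu_le_left (p v v' : X) : mu p v v' ≤ dist p v := mu_le fun _ h _ => h.le1

theorem mu_mono {p u u' v v' : X} (h : Col p u v) (h' : Col p u' v') : mu p u u' ≤ mu p v v' :=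
  mu_le fun _ k k' => le_mu (k.trans h) (k'.trans h')

theorem mu_of_col {p u v : X} (h : Col p u v) : mu p u v = dist p u :=
  le_antisymm (mu_le_left _ _ _) (le_mu (col_right _ _) h)

theorem mu_map (g : X ≃ᵢ X) (p v v' : X) : mu (g p) (g v) (g v') = mu p v v' := by
  refine le_antisymm (mu_le fun j h h' => ?_) (mu_le fun j h h' => ?_)
  · obtain ⟨j, rfl⟩ := g.surjective j
    rw [g.dist_eq]
    exact le_mu (by simpa using h.map g.symm) (by simpa using h'.map g.symm)
  · rw [← g.dist_eq]; exact le_mu (h.map g) (h'.map g)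

theorem IsAH.mu_eq (H : IsAH X) {a b c a' b' c' : X} (h1 : dist a b = dist a' b')
    (h2 : dist a c = dist a' c') (h3 : dist b c = dist b' c') : mu a b c = mu a' b' c' := by
  obtain ⟨g, rfl, rfl, rfl⟩ := H.three h1 h2 h3
  exact (mu_map g _ _ _).symm

variable [CompleteSpace X] {r : ℝ}

theorem Ctx.meet (C : Ctx X r) {p v v' j : X} (hr : dist p v ≤ r) (h : Col p j v)
    (h' : Col p j v') : ∃ m, Col p m v ∧ Col p m v' ∧ Col p j m ∧ dist p m = mu p v v' := by
  have c0 := mu_nonneg p v v'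
  let S : ℕ → Type _ := fun n => {k // (Col p k v ∧ Col p k v' ∧ Col p j k) ∧
    mu p v v' - (mu p v v' + 1) / 2 ^ n ≤ dist p k}
  have step : ∀ n (k : S n), ∃ k' : S (n + 1), dist k.1 k'.1 ≤ (mu p v v' + 1) / 2 ^ n := by
    rintro n ⟨k, ⟨k1, k2, k3⟩, k4⟩
    have e0 : 0 < (mu p v v' + 1) / 2 ^ (n + 1) := by positivity
    obtain ⟨_, ⟨l, ⟨l1, l2⟩, rfl⟩, l3⟩ := exists_lt_of_lt_csSup
      (s := dist p '' {j | Col p j v ∧ Col p j v'}) ⟨_, p, ⟨col_left _ _, col_left _ _⟩, rfl⟩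
      (sub_lt_self (mu p v v') e0)
    rcases le_total (dist p l) (dist p k) with m | m
    · exact ⟨⟨k, ⟨k1, k2, k3⟩, l3.le.trans m⟩, by rw [dist_self]; positivity⟩
    obtain ⟨j0, a1, a2⟩ := C.geo p l (l1.le1.trans hr) _ dist_nonneg m
    have b1 : _ = _ := a1.trans l1
    have b2 : _ = _ := a1.trans l2
    have b3 : _ = _ := k1
    have b4 : _ = _ := k2
    obtain ⟨g, g1, g2, g3, g4⟩ := C.H.four (a := p) (b := v) (c := v') (d := j0) (a' := p)
      (b' := v) (c' := v') (d' := k) rfl rfl rfl a2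
      (by rw [dist_comm v, dist_comm v]; linarith) (by rw [dist_comm v', dist_comm v']; linarith)
    have c1 := l1.map g
    have c2 := l2.map g
    have c3 := a1.map g
    have c4 : dist p (g l) = dist p l := by conv_lhs => rw [← g1, g.dist_eq]
    rw [g1, g2] at c1
    rw [g1, g3] at c2
    rw [g1, g4] at c3
    refine ⟨⟨g l, ⟨c1, c2, k3.trans c3⟩, c4 ▸ l3.le⟩, ?_⟩
    have c5 : _ = _ := c3
    linarith [le_mu c1 c2]
  choose nx hnx using step
  let F : (n : ℕ) → S n := fun n => Nat.rec ⟨j, ⟨h, h', col_right _ _⟩, by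
    simp only [pow_zero, div_one]; linarith [dist_nonneg (x := p) (y := j)]⟩ nx n
  have hc : CauchySeq fun n => (F n).1 := by
    refine cauchySeq_of_le_geometric_two (C := 2 * (mu p v v' + 1)) fun n =>
      (hnx n (F n)).trans (le_of_eq ?_)
    ring
  obtain ⟨m, hm⟩ := cauchySeq_tendsto_of_complete hc
  have l1 := (tendsto_const_nhds (x := p)).dist hm
  have k1 : Col p m v := tendsto_nhds_unique (l1.add (hm.dist tendsto_const_nhds))
    (tendsto_const_nhds.congr fun n => Eq.symm (F n).2.1.1)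
  have k2 : Col p m v' := tendsto_nhds_unique (l1.add (hm.dist tendsto_const_nhds))
    (tendsto_const_nhds.congr fun n => Eq.symm (F n).2.1.2.1)
  have lim : Tendsto (fun n : ℕ => mu p v v' - (mu p v v' + 1) / 2 ^ n) atTop
      (𝓝 (mu p v v' - 0)) :=
    tendsto_const_nhds.sub (tendsto_const_nhds.div_atTop
      (tendsto_pow_atTop_atTop_of_one_lt one_lt_two))
  rw [sub_zero] at lim
  exact ⟨m, k1, k2, tendsto_nhds_unique (tendsto_const_nhds.add (tendsto_const_nhds.dist hm))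
    (l1.congr fun n => Eq.symm (F n).2.1.2.2), le_antisymm (le_mu k1 k2)
    (le_of_tendsto_of_tendsto' lim l1 fun n => (F n).2.2)⟩

theorem Ctx.meet' (C : Ctx X r) {p v : X} (hr : dist p v ≤ r) (v' : X) :
    ∃ m, Col p m v ∧ Col p m v' ∧ dist p m = mu p v v' := by
  obtain ⟨m, h1, h2, -, h3⟩ := C.meet hr (col_left p v) (col_left p v')
  exact ⟨m, h1, h2, h3⟩

theorem Ctx.base (C : Ctx X r) {p v v' j : X} (hr : dist p v ≤ r) (h : Col p j v)
    (h' : Col p j v') : mu p v v' = dist p j + mu j v v' := by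
  obtain ⟨m, m1, m2, m3, m4⟩ := C.meet hr h h'
  obtain ⟨k, k1, k2, k3⟩ := C.meet' (h.le2.trans hr) v'
  have a1 : _ = _ := m3
  have a2 : _ = _ := h.left k1
  linarith [le_mu (m3.cut m1) (m3.cut m2), le_mu (h.right k1) (h'.right k2)]

omit [CompleteSpace X] in
theorem Ctx.rect_le (C : Ctx X r) {m J v v' : X} (h : Col m v J) (h' : Col m v' J)
    (h0 : mu J v v' ≤ 0) (hr : dist m J ≤ r / 2) : dist v' J ≤ dist m v := by
  by_contra k
  push Not at k
  obtain ⟨m', a1, a2⟩ := C.ext J m (dist v' J - dist m v) (by linarith) (by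
    rw [dist_comm J]; linarith [h'.le2, dist_nonneg (x := m) (y := v)])
  have b1 := a1.symm.left h
  have b2 := a1.symm.left h'
  have c1 : _ = _ := b1
  have c2 : _ = _ := b2
  have c3 : _ = _ := h
  have c4 : _ = _ := h'
  rw [dist_comm] at a2
  have := C.H.mu_eq (a := m') (b := v) (c := v') (a' := J) (b' := v') (c' := v)
    (by rw [dist_comm J]; linarith) (by rw [dist_comm J]; linarith) (dist_comm _ _)
  rw [mu_comm J] at this
  linarith [le_mu b1 b2]

/-- The modular law. -/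
theorem Ctx.modular (C : Ctx X r) {p y v v' : X} (h : Col p v y) (h' : Col p v' y)
    (hr : dist p y ≤ r / 2) : dist p v - mu p v v' = dist y v' - mu y v v' := by
  have r0 : dist p y ≤ r := by linarith [dist_nonneg (x := p) (y := y)]
  have r1 : dist y v ≤ r := by rw [dist_comm]; exact h.le2.trans r0
  obtain ⟨m, m1, m2, m3⟩ := C.meet' (h.le1.trans r0) v'
  obtain ⟨J, j1, j2, j3⟩ := C.meet' r1 v'
  have a1 : Col m v J := (j1.cut (m1.cut h).symm).symm
  have a2 : Col m v' J := (j2.cut (m2.cut h').symm).symm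
  have a3 : dist m J ≤ r / 2 := by
    have k1 : _ = _ := a1
    have k2 : _ = _ := m1
    have k3 : _ = _ := j1.symm
    have k4 : _ = _ := h
    linarith [dist_nonneg (x := p) (y := m), dist_nonneg (x := J) (y := y)]
  have b1 := C.rect_le a1 a2 (by linarith [C.base r1 j1 j2]) a3
  have b2 := C.rect_le a2.symm a1.symm (by
    rw [mu_comm]; linarith [C.base (h.le1.trans r0) m1 m2]) (by rwa [dist_comm])
  have c1 : _ = _ := m1
  have c2 : _ = _ := j2
  rw [dist_comm v'] at b1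
  rw [dist_comm v] at b2
  linarith

theorem Ctx.mu_tri (C : Ctx X r) {p v : X} (hr : dist p v ≤ r / 2) (u w : X) :
    mu p u v + mu p v w ≤ mu p u w + dist p v := by
  have r0 : dist p v ≤ r := by linarith [dist_nonneg (x := p) (y := v)]
  obtain ⟨m1, a1, a2, a3⟩ := C.meet' r0 u
  obtain ⟨m2, b1, b2, b3⟩ := C.meet' r0 w
  have k := C.modular a1 b1 hr
  have k2 : _ = _ := b1
  rw [dist_comm v] at k
  rw [mu_comm p u v]
  linarith [mu_mono a2 b2, mu_nonneg v m1 m2]

theorem Ctx.det_le (C : Ctx X r) {p v v' q w w' : X} (hr : dist p v' ≤ r)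
    (hle : dist p v ≤ dist p v') (h1 : dist p v = dist q w) (h2 : dist p v' = dist q w')
    (h3 : mu p v v' = mu q w w') (hg : dist p v ≤ 2 * mu p v v') : dist v v' ≤ dist w w' := by
  by_contra k
  push Not at k
  obtain ⟨m, m1, m2, m3⟩ := C.meet' (hle.trans hr) v'
  obtain ⟨n, n1, n2, n3⟩ := C.meet' (h1 ▸ hle.trans hr) w'
  obtain ⟨γ, hγ⟩ := C.geo.seg (m1.le2.trans (hle.trans hr))
  obtain ⟨γ', hγ'⟩ := C.geo.seg (m2.le2.trans hr)
  have e1 : _ = _ := m1
  have e2 : _ = _ := m2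
  have g0 := dist_nonneg (x := m) (y := v)
  have c1 := hγ.cont
  have c2 := hγ'.cont
  obtain ⟨τ, hτ, ht⟩ := intermediate_value_Icc g0
    (f := fun τ => dist (γ τ) (γ' (τ + (dist m v' - dist m v)))) (by fun_prop)
    (show dist w w' ∈ _ from ⟨by
      simp only [hγ.h0, zero_add]
      rw [hγ'.left (by linarith) (by linarith)]
      linarith [dist_triangle q w w'], by
      simp only [hγ.h1, add_sub_cancel, hγ'.h1]
      exact k.le⟩)
  simp only at ht
  have τ1 : τ < dist m v := lt_of_le_of_ne hτ.2 fun e => by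
    rw [e, hγ.h1, add_sub_cancel, hγ'.h1] at ht
    exact k.ne' ht
  obtain ⟨p', a1, a2⟩ := C.geo p m (m2.le1.trans hr) τ hτ.1 (by linarith)
  obtain ⟨q', b1, b2⟩ := C.geo q n (n2.le1.trans (h2 ▸ hr)) (dist m v) g0 (by linarith)
  have s0 : 0 ≤ τ + (dist m v' - dist m v) := by linarith [hτ.1]
  have s1 : τ + (dist m v' - dist m v) ≤ dist m v' := by linarith
  have d1 := (a1.cut m1).left (hγ.col hτ.1 hτ.2)
  have d2 := (a1.cut m2).left (hγ'.col s0 s1)
  have f1 : _ = _ := d1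
  have f2 : _ = _ := d2
  have f3 : _ = _ := a1
  have f4 : _ = _ := b1.trans n1
  have f5 : _ = _ := b1.trans n2
  rw [hγ.left hτ.1 hτ.2] at f1
  rw [hγ'.left s0 s1] at f2
  have := C.H.mu_eq (a := p') (a' := q') (by linarith) (by linarith) ht
  linarith [le_mu d1 d2, C.base (h1 ▸ hle.trans hr) (b1.trans n1) (b1.trans n2)]

/-- Heights and the height of the meet determine the distance. -/
theorem Ctx.det (C : Ctx X r) {p v v' q w w' : X} (hr : dist p v ≤ r) (hr' : dist p v' ≤ r)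
    (h1 : dist p v = dist q w) (h2 : dist p v' = dist q w') (h3 : mu p v v' = mu q w w')
    (hg : dist p v ≤ 2 * mu p v v') (hg' : dist p v' ≤ 2 * mu p v v') :
    dist v v' = dist w w' := by
  rcases le_total (dist p v) (dist p v') with k | k
  · exact le_antisymm (C.det_le hr' k h1 h2 h3 hg)
      (C.det_le (h2 ▸ hr') (h1 ▸ h2 ▸ k) h1.symm h2.symm h3.symm (h1 ▸ h3 ▸ hg))
  · rw [mu_comm p, mu_comm q] at h3
    rw [mu_comm p] at hg'
    rw [dist_comm v, dist_comm w]
    exact le_antisymm (C.det_le hr k h2 h1 h3 hg')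
      (C.det_le (h1 ▸ hr) (h1 ▸ h2 ▸ k) h2.symm h1.symm h3.symm (h2 ▸ h3 ▸ hg'))

end Pool.Agent.Lib.AH
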