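import Pool.Agent.Lib.AH.Len

set_option autoImplicit false

namespace Pool.Agent.Lib.AH

open Set Filter Topology Metric TopologicalSpace

variable {X : Type*} [MetricSpace X]

/-- Points at distance at most `r` have between points at all positions. -/
def Geo (X : Type*) [MetricSpace X] (r : ℝ) : Prop :=
  ∀ x z : X, dist x z ≤ r → ∀ t, 0 ≤ t → t ≤ dist x z → ∃ y, Col x y z ∧ dist x y = t

theorem Geo.mono {r r' : ℝ} (h : Geo X r) (hr : r' ≤ r) : Geo X r' :=
  fun x z k => h x z (k.trans hr)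

/-- Whole balls of radius `δ` lie almost between two points at distance `r`. -/
def FF (X : Type*) [MetricSpace X] (r δ : ℝ) : Prop :=
  ∀ η > 0, ∃ x y z : X, dist x z = r ∧ dist x y ≤ r / 2 + η ∧ dist y z ≤ r / 2 + η ∧
    ∀ w, dist y w ≤ δ → dist x w + dist w z ≤ r + η

theorem FF.move (H : IsAH X) {r δ : ℝ} (h : FF X r δ) {η : ℝ} (hη : 0 < η) {x z : X}
    (hxz : dist x z = r) : ∃ y, dist x y ≤ r / 2 + η ∧ dist y z ≤ r / 2 + η ∧
      ∀ w, dist y w ≤ δ → dist x w + dist w z ≤ r + η := by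
  obtain ⟨a, b, c, h1, h2, h3, h4⟩ := h η hη
  obtain ⟨g, rfl, rfl⟩ := H.two (h1.trans hxz.symm)
  refine ⟨g b, by rwa [g.dist_eq], by rwa [g.dist_eq], fun w hw => ?_⟩
  obtain ⟨w, rfl⟩ := g.surjective w
  simp only [g.dist_eq] at hw ⊢
  exact h4 w hw

theorem FF.mono [CompleteSpace X] (H : IsAH X) (hA : AM X) {r δ : ℝ} (h0 : 0 ≤ r) (h : FF X r δ)
    {P Q : X} (hr : r ≤ dist P Q) : FF X (dist P Q) δ := by
  intro η hη
  have e3 : 0 < η / 3 := by linarith
  obtain ⟨c, c1, c2⟩ := hA.nb P Q (t := (dist P Q - r) / 2) (by linarith) (by linarith) e3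
  have := dist_triangle P c Q
  obtain ⟨c', d1, d2⟩ := hA.nb c Q (t := r) h0 (by linarith) e3
  obtain ⟨y, k1, k2, k3⟩ := h.move H e3 d1
  refine ⟨P, y, Q, rfl, by linarith [dist_triangle P c y], by linarith [dist_triangle y c' Q],
    fun w hw => ?_⟩
  linarith [k3 w hw, dist_triangle P c w, dist_triangle w c' Q]

theorem IsAH.cross_step [CompleteSpace X] (H : IsAH X) (hA : AM X) {x z : X} {r δ η η' L : ℝ}
    (hr : dist x z = r) (hδ : 0 < δ) (hδr : δ ≤ r / 20) (hη : 0 < η) (hηδ : η ≤ δ) (hη' : 0 < η')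
    (hno : ∀ y, Col x y z → r / 3 < |dist x y - dist y z|)
    (hup : ∀ y, dist x y ≤ r / 2 + η → dist y z ≤ r / 2 + η →
      ∃ w, dist y w ≤ δ ∧ r + η < dist x w + dist w z)
    {γ : ℝ → X} (hγ : NP γ x z L) (hL : L ≤ r + η) :
    ∃ γ' L', (NP γ' x z L' ∧ L' ≤ r + η') ∧ dist (γ (1 / 2)) (γ' (1 / 2)) ≤ 5 * δ := by
  have hc := hγ.cont
  obtain ⟨κ, κ0, hκ⟩ : ∃ κ > 0, ∀ s ∈ Icc (0:ℝ) 1, |dist x (γ s) - dist (γ s) z| ≤ r / 3 →
      r + κ ≤ dist x (γ s) + dist (γ s) z := by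
    have hK : IsCompact {s ∈ Icc (0:ℝ) 1 | |dist x (γ s) - dist (γ s) z| ≤ r / 3} :=
      isCompact_Icc.inter_right (isClosed_le (f := fun s => |dist x (γ s) - dist (γ s) z|)
        (by fun_prop) continuous_const)
    obtain ⟨κ, κ0, hκ⟩ := hK.exists_forall_le' (f := fun s => dist x (γ s) + dist (γ s) z - r)
      (by fun_prop) (a := 0) fun s hs => by
        by_contra k
        exact absurd (hno _ (col_of_le (by linarith))) (not_lt.2 hs.2)
    exact ⟨κ, κ0, fun s h1 h2 => by linarith [hκ s ⟨h1, h2⟩]⟩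
  set e := min η' (min κ η) with he
  have e0 : 0 < e := lt_min hη' (lt_min κ0 hη)
  have e1 : e ≤ η' := min_le_left _ _
  have e2 : e ≤ κ := (min_le_right _ _).trans (min_le_left _ _)
  have e3 : e ≤ η := (min_le_right _ _).trans (min_le_right _ _)
  obtain ⟨γ2, h2⟩ := hA.path (x := x) (y := z) (L := r + e) (by linarith)
  have a1 := h2.left (t := 1 / 2) (by norm_num)
  have a2 := h2.right (t := 1 / 2) (by norm_num)
  have a3 := dist_triangle x (γ2 (1 / 2)) z
  obtain ⟨w, w1, w2⟩ := hup (γ2 (1 / 2)) (by linarith) (by linarith)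
  obtain ⟨β, hβ⟩ := hA.path (x := γ2 (1 / 2)) (y := w) (L := 2 * δ) (by linarith)
  have hbc := hβ.cont
  have b1 : ∀ t, dist (γ2 (1 / 2)) (β t) ≤ 2 * δ := fun t => by
    linarith [hβ.sum t, dist_nonneg (x := β t) (y := w)]
  have b2 : ∀ t, |dist x (β t) - dist (β t) z| ≤ 5 * δ := fun t => by
    have k1 := dist_triangle x (γ2 (1 / 2)) (β t)
    have k2 := dist_triangle (γ2 (1 / 2)) (β t) z
    have k3 := dist_triangle_right x (γ2 (1 / 2)) (β t)
    have k4 := dist_triangle_left (β t) z (γ2 (1 / 2))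
    rw [abs_le]
    constructor <;> linarith [b1 t]
  obtain ⟨s, hs, t, ht, f0, g0⟩ := pm2
    (fun q => dist x (γ q.1) - dist (γ q.1) z - (dist x (β q.2) - dist (β q.2) z))
    (fun q => dist x (β q.2) + dist (β q.2) z - (dist x (γ q.1) + dist (γ q.1) z) -
      (1 - q.2) * |dist x (γ q.1) - dist (γ q.1) z - (dist x (β q.2) - dist (β q.2) z)|)
    (by fun_prop) (by fun_prop)
    (fun t _ => by
      simp only [hγ.h0 0 le_rfl, dist_self]
      linarith [(abs_le.1 (b2 t)).1])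
    (fun t _ => by
      simp only [hγ.h1 1 le_rfl, dist_self]
      linarith [(abs_le.1 (b2 t)).2])
    (fun s hs => by
      simp only [hβ.h0 0 le_rfl, sub_zero, one_mul]
      rcases le_or_gt |dist x (γ s) - dist (γ s) z| (r / 3) with k | k
      · linarith [hκ s hs k, abs_nonneg (dist x (γ s) - dist (γ s) z -
          (dist x (γ2 (1 / 2)) - dist (γ2 (1 / 2)) z))]
      · have k1 := abs_sub_abs_le_abs_sub (dist x (γ s) - dist (γ s) z)
          (dist x (γ2 (1 / 2)) - dist (γ2 (1 / 2)) z)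
        have k2 : |dist x (γ2 (1 / 2)) - dist (γ2 (1 / 2)) z| ≤ δ := by
          rw [abs_le]; constructor <;> linarith
        linarith [dist_triangle x (γ s) z])
    (fun s _ => by
      simp only [hβ.h1 1 le_rfl, sub_self, zero_mul]
      linarith [hγ.sum s])
  simp only at f0 g0
  rw [f0, abs_zero, mul_zero] at g0
  obtain ⟨g, g1, g2, g3⟩ := H.three (a := x) (b := z) (c := β t) (a' := x) (b' := z) (c' := γ s)
    rfl (by linarith) (by rw [dist_comm z, dist_comm z]; linarith)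
  refine ⟨_, r + e, ⟨h2.map g g1 g2, by linarith⟩, ?_⟩
  have c1 : dist (γ s) (g (γ2 (1 / 2))) ≤ 2 * δ := by
    rw [← g3, g.dist_eq, dist_comm]; exact b1 t
  have c2 : L * |1 / 2 - s| ≤ 3 * δ := by
    have k1 := hγ.left hs.1
    have k2 := hγ.right hs.2
    have k3 := dist_triangle x (γ s) z
    have k4 := abs_le.1 (b2 t)
    rw [← abs_of_nonneg hγ.nonneg, ← abs_mul, abs_le]
    constructor <;> linarith
  linarith [hγ.lip (1 / 2) s, dist_triangle (γ (1 / 2)) (γ s) (g (γ2 (1 / 2)))]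

theorem IsAH.mid_third [CompleteSpace X] (H : IsAH X) (hA : AM X) {x z : X} {r : ℝ}
    (hr : dist x z = r) (r0 : 0 < r) (hF : ∀ δ > 0, ¬ FF X r δ) :
    ∃ y, Col x y z ∧ |dist x y - dist y z| ≤ r / 3 := by
  by_contra hno
  push Not at hno
  have dpos : ∀ n : ℕ, 0 < r / 20 / 2 ^ n := fun n => by positivity
  have hη : ∀ n : ℕ, ∃ η, 0 < η ∧ η ≤ r / 20 / 2 ^ n ∧ ∀ y, dist x y ≤ r / 2 + η →
      dist y z ≤ r / 2 + η → ∃ w, dist y w ≤ r / 20 / 2 ^ n ∧ r + η < dist x w + dist w z := by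
    intro n
    have := hF _ (dpos n)
    unfold FF at this
    push Not at this
    obtain ⟨η, η0, h⟩ := this
    refine ⟨min η (r / 20 / 2 ^ n), lt_min η0 (dpos n), min_le_right _ _, fun y h1 h2 => ?_⟩
    have m := min_le_left η (r / 20 / 2 ^ n)
    obtain ⟨w, w1, w2⟩ := h x y z hr (by linarith) (by linarith)
    exact ⟨w, w1, by linarith⟩
  choose η η0 η1 hη using hη
  let S : ℕ → Type _ := fun n => {p : (ℝ → X) × ℝ // NP p.1 x z p.2 ∧ p.2 ≤ r + η n}
  have step : ∀ n (p : S n), ∃ q : S (n + 1),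
      dist (p.1.1 (1 / 2)) (q.1.1 (1 / 2)) ≤ 5 * (r / 20 / 2 ^ n) := fun n p => by
    obtain ⟨γ', L', h1, h2⟩ := H.cross_step hA hr (dpos n)
      (div_le_self (by positivity) (one_le_pow₀ one_le_two)) (η0 n) (η1 n) (η0 (n + 1)) hno
      (hη n) p.2.1 p.2.2
    exact ⟨⟨(γ', L'), h1⟩, h2⟩
  choose nx hnx using step
  obtain ⟨γ0, hγ0⟩ := hA.path (x := x) (y := z) (L := r + η 0) (by linarith [η0 0])
  let F : (n : ℕ) → S n := fun n => Nat.rec ⟨(γ0, r + η 0), hγ0, le_rfl⟩ nx n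
  have hc : CauchySeq fun n => (F n).1.1 (1 / 2) := by
    refine cauchySeq_of_le_geometric_two (C := r / 2) fun n => (hnx n (F n)).trans (le_of_eq ?_)
    ring
  obtain ⟨y, hy⟩ := cauchySeq_tendsto_of_complete hc
  have lim : Tendsto (fun n : ℕ => r / 2 + r / 20 / 2 ^ n) atTop (𝓝 (r / 2 + 0)) :=
    tendsto_const_nhds.add (tendsto_const_nhds.div_atTop
      (tendsto_pow_atTop_atTop_of_one_lt one_lt_two))
  have k1 : dist x y ≤ r / 2 + 0 :=
    le_of_tendsto_of_tendsto' (tendsto_const_nhds.dist hy) lim fun n => by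
      linarith [(F n).2.1.left (t := 1 / 2) (by norm_num), (F n).2.2, η1 n, dpos n]
  have k2 : dist y z ≤ r / 2 + 0 :=
    le_of_tendsto_of_tendsto' (hy.dist tendsto_const_nhds) lim fun n => by
      linarith [(F n).2.1.right (t := 1 / 2) (by norm_num), (F n).2.2, η1 n, dpos n]
  have k3 := dist_triangle x y z
  have := hno y (col_of_le (by linarith))
  rw [show dist x y - dist y z = 0 by linarith, abs_zero] at this
  linarith

theorem geo_of_third [CompleteSpace X] {r : ℝ} (h : ∀ x z : X, 0 < dist x z → dist x z ≤ r →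
    ∃ y, Col x y z ∧ |dist x y - dist y z| ≤ dist x z / 3) : Geo X r := by
  intro x z hr t t0 t1
  let S := {p : X × X // Col x p.1 p.2 ∧ Col x p.2 z ∧ dist x p.1 ≤ t ∧ t ≤ dist x p.2}
  have step : ∀ p : S, ∃ q : S, dist p.1.1 q.1.1 ≤ dist p.1.1 p.1.2 ∧
      dist q.1.1 q.1.2 ≤ 2 / 3 * dist p.1.1 p.1.2 := by
    rintro ⟨⟨a, b⟩, h1, h2, h3, h4⟩
    rcases eq_or_lt_of_le (dist_nonneg (x := a) (y := b)) with k | k
    · exact ⟨⟨(a, b), h1, h2, h3, h4⟩, by simp, by simp only [← k]; norm_num⟩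
    obtain ⟨y, y1, y2⟩ := h a b k ((h1.le2.trans h2.le1).trans hr)
    have y3 := abs_le.1 y2
    have y4 : dist a y + dist y b = dist a b := y1
    rcases le_total t (dist x y) with m | m
    · exact ⟨⟨(a, y), h1.left y1, (h1.right y1).trans h2, h3, m⟩, by simp,
        by simp only; linarith⟩
    · exact ⟨⟨(y, b), h1.right y1, h2, m, h4⟩, y1.le1, by simp only; linarith⟩
  choose nx h1 h2 using step
  let p0 : S := ⟨(x, z), col_left _ _, col_right _ _, by simpa using t0, t1⟩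
  have hb : ∀ n, dist (nx^[n] p0).1.1 (nx^[n] p0).1.2 ≤ dist x z * (2 / 3) ^ n := by
    intro n
    induction n with
    | zero => simp [p0]
    | succ n ih =>
      rw [Function.iterate_succ_apply', pow_succ]
      linarith [h2 (nx^[n] p0)]
  have hc : CauchySeq fun n => (nx^[n] p0).1.1 :=
    cauchySeq_of_le_geometric (2 / 3) (dist x z) (by norm_num) fun n => by
      rw [Function.iterate_succ_apply']; exact (h1 _).trans (hb n)
  obtain ⟨y, hy⟩ := cauchySeq_tendsto_of_complete hc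
  have l1 := (tendsto_const_nhds (x := x)).dist hy
  have lim : Tendsto (fun n : ℕ => t - dist x z * (2 / 3) ^ n) atTop (𝓝 (t - dist x z * 0)) :=
    tendsto_const_nhds.sub (tendsto_const_nhds.mul
      (tendsto_pow_atTop_nhds_zero_of_lt_one (by norm_num) (by norm_num)))
  rw [mul_zero, sub_zero] at lim
  refine ⟨y, tendsto_nhds_unique (l1.add (hy.dist tendsto_const_nhds))
    (tendsto_const_nhds.congr fun n => ?_), le_antisymm (le_of_tendsto' l1 fun n => ?_)
    (le_of_tendsto_of_tendsto' lim l1 fun n => ?_)⟩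
  · exact Eq.symm ((nx^[n] p0).2.1.trans (nx^[n] p0).2.2.1)
  · exact (nx^[n] p0).2.2.2.1
  · have k : _ = _ := (nx^[n] p0).2.1
    linarith [hb n, (nx^[n] p0).2.2.2.2]

theorem FF.lc [CompleteSpace X] (H : IsAH X) (hA : AM X) {r δ : ℝ} (r0 : 0 ≤ r) (hδ : 0 < δ)
    (h : FF X r δ) {p q y Y : X} (h1 : r ≤ dist y Y) (h2 : dist y Y + r ≤ dist p q) {w Y' : X}
    (hw : dist y w ≤ δ) (hY : dist Y Y' ≤ δ / 2) :
    dist w Y' - dist y Y' = dist w Y - dist y Y := by
  have : Nonempty X := ⟨p⟩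
  have := hA.pathConnected
  obtain ⟨δ1, d0, hd⟩ := H.std_pt ⟨y, Y, rfl⟩ (half_pos hδ)
  obtain ⟨Q, hQ⟩ := realized p q (by linarith) h2
  rw [← sub_eq_zero, ← abs_nonpos_iff]
  refine le_of_forall_pos_le_add fun ε hε => ?_
  set η := min (ε / 8) (δ1 / 5) with hη
  have η0 : 0 < η := lt_min (by linarith) (by linarith)
  have η1 : η ≤ ε / 8 := min_le_left _ _
  have η2 : η ≤ δ1 / 5 := min_le_right _ _
  obtain ⟨z', z1, z2⟩ := hA.nb p Q (t := r) r0 (by linarith) η0
  have z3 := dist_triangle p z' Q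
  rw [dist_comm z'] at z2 z3
  obtain ⟨x', x1, x2⟩ := hA.nb Q z' (t := r) r0 (by linarith) η0
  rw [dist_comm] at x1
  obtain ⟨y1, a1, a2, a3⟩ := h.move H η0 z1
  obtain ⟨y2, b1, b2, b3⟩ := h.move H η0 x1
  have key : ∀ u U, dist y2 u ≤ δ → dist y1 U ≤ δ →
      |dist u U - (dist y Y - r + dist U z' + dist x' u)| ≤ 2 * η := fun u U hu hU => by
    have k1 := a3 U hU
    have k2 := b3 u hu
    have k3 := dist_triangle4 p U u Q
    have k4 := dist_triangle4 u x' z' U
    rw [dist_comm U u] at k3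
    rw [dist_comm u x', dist_comm z' U] at k4
    rw [abs_le]
    constructor <;> linarith
  obtain ⟨y1', c1, c2⟩ := hd y2 y1 (by
    have k := abs_le.1 (key y2 y1 (by simp [hδ.le]) (by simp [hδ.le]))
    rw [abs_lt]
    constructor <;> linarith [dist_triangle p y1 z', dist_triangle x' y2 Q])
  obtain ⟨g, rfl, rfl⟩ := H.two c1
  obtain ⟨w, rfl⟩ := g.surjective w
  obtain ⟨Y', rfl⟩ := g.surjective Y'
  simp only [g.dist_eq] at *
  have m1 : dist y1 Y' ≤ δ := by linarith [dist_triangle y1 y1' Y']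
  have m2 : dist y1 y1' ≤ δ := by linarith
  have m3 : dist y2 y2 ≤ δ := by simp [hδ.le]
  have k1 := abs_le.1 (key w Y' hw m1)
  have k2 := abs_le.1 (key y2 Y' m3 m1)
  have k3 := abs_le.1 (key w y1' hw m2)
  have k4 := abs_le.1 (key y2 y1' m3 m2)
  rw [abs_le]
  constructor <;> linarith

theorem IsAH.geo_of_ff [CompleteSpace X] (H : IsAH X) (hA : AM X) {p q : X}
    (hF : ∀ r > 0, r ≤ dist p q → ∃ δ > 0, FF X r δ) : Geo X (dist p q / 2) := by
  intro x z hxz t t0 t1
  rcases eq_or_lt_of_le t0 with rfl | t0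
  · exact ⟨x, col_left _ _, dist_self _⟩
  have loc : ∀ y, dist x z < dist x y + dist y z → dist x y + dist y z ≤ 2 * dist x z →
      ∃ δ > 0, ∀ w, dist y w ≤ δ → dist x w - dist w z = dist x y - dist y z := by
    intro y y1 y2
    obtain ⟨δ, hδ, hf⟩ := hF ((dist x y + dist y z - dist x z) / 4) (by linarith) (by linarith)
    obtain ⟨c, hc⟩ := hA.path (x := x) (y := z) (L := (dist x y + dist y z + dist x z) / 2)
      (by linarith)
    refine ⟨δ, hδ, fun w hw => ?_⟩
    have hl : IsLocallyConstant fun s => dist w (c s) - dist y (c s) := by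
      refine (IsLocallyConstant.iff_eventually_eq _).2 fun s => ?_
      filter_upwards [Metric.continuousAt_iff'.1 (hc.cont.continuousAt (x := s)) _ (half_pos hδ)]
        with s' hs'
      have k1 := hc.sum s
      have k2 := dist_triangle_right x y (c s)
      have k3 := dist_triangle y (c s) z
      have k4 := dist_triangle_left y (c s) x
      have k5 := dist_triangle_right y (c s) z
      exact hf.lc H hA (by linarith) hδ (p := p) (q := q) (by linarith) (by linarith) hw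
        (by rw [dist_comm]; exact hs'.le)
    have := hl.apply_eq_of_preconnectedSpace 0 1
    simp only [hc.h0 0 le_rfl, hc.h1 1 le_rfl] at this
    rw [dist_comm w x, dist_comm y x] at this
    linarith
  obtain ⟨γ, hγ⟩ := hA.path (x := x) (y := z) (L := 2 * dist x z) (by linarith)
  have hc := hγ.cont
  obtain ⟨τ, hτ, k1, k2⟩ := first_hit (f := fun s => dist x (γ s) - dist (γ s) z) (by fun_prop)
    (a := 2 * t - dist x z) (by simp only [hγ.h0 0 le_rfl, dist_self]; linarith)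
    (by simp only [hγ.h1 1 le_rfl, dist_self]; linarith)
  have hcol : Col x (γ τ) z := by
    refine col_of_le (le_of_not_gt fun k => ?_)
    obtain ⟨δ, hδ, hl⟩ := loc _ k (hγ.sum τ)
    have τ0 : 0 < τ := by
      refine lt_of_le_of_ne hτ.1 fun e => ?_
      rw [← e, hγ.h0 0 le_rfl, dist_self] at k1
      linarith
    have e1 : ∀ᶠ s in 𝓝[<] τ, dist (γ s) (γ τ) < δ :=
      (Metric.continuousAt_iff'.1 (hc.continuousAt (x := τ)) _ hδ).filter_mono nhdsWithin_le_nhds
    obtain ⟨s, s1, s2⟩ := (e1.and (Ioo_mem_nhdsLT τ0)).exists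
    have := hl (γ s) (by rw [dist_comm]; exact s1.le)
    linarith [k2 s s2.1.le s2.2]
  refine ⟨γ τ, hcol, ?_⟩
  have : _ = _ := hcol
  linarith

/-- Short geodesics exist. -/
theorem IsAH.geo_small [CompleteSpace X] (H : IsAH X) (hA : AM X) {p q : X} (hpq : p ≠ q) :
    ∃ r > 0, r ≤ dist p q ∧ Geo X r := by
  have d0 := dist_pos.2 hpq
  by_cases hF : ∀ r > 0, r ≤ dist p q → ∃ δ > 0, FF X r δ
  · exact ⟨_, half_pos d0, by linarith, H.geo_of_ff hA hF⟩
  push Not at hF
  obtain ⟨r, r0, r1, hF⟩ := hF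
  have : Nonempty X := ⟨p⟩
  have := hA.pathConnected
  obtain ⟨Q, hQ⟩ := realized p q r0.le r1
  refine ⟨r, r0, r1, geo_of_third fun x z h0 h1 => H.mid_third hA rfl h0 fun δ hδ hf => ?_⟩
  exact hF δ hδ (hQ ▸ hf.mono H hA h0.le (hQ ▸ h1))

end Pool.Agent.Lib.AH
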