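import Mathlib

set_option autoImplicit false

namespace Pool.Agent.Lib.AH

open Set Filter Topology Metric

theorem avoid_lt {θ : ℝ → ℝ} (hθ : Continuous θ) {c : ℝ} (h0 : θ 0 < c)
    (hne : ∀ t ∈ Icc (0:ℝ) 1, θ t ≠ c) : θ 1 < c := by
  by_contra h
  push Not at h
  obtain ⟨t, ht, htc⟩ := intermediate_value_Icc (zero_le_one' ℝ) hθ.continuousOn ⟨h0.le, h⟩
  exact hne t ht htc

theorem avoid_gt {θ : ℝ → ℝ} (hθ : Continuous θ) {c : ℝ} (h0 : c < θ 0)
    (hne : ∀ t ∈ Icc (0:ℝ) 1, θ t ≠ c) : c < θ 1 := by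
  have := avoid_lt (θ := fun t => - θ t) hθ.neg (c := -c) (by simpa using h0)
    (fun t ht h => hne t ht (by simpa using h))
  simpa using this

/-- Poincare-Miranda in the plane. -/
theorem pm2 (f g : ℝ × ℝ → ℝ) (hf : Continuous f) (hg : Continuous g)
    (hf0 : ∀ y ∈ Icc (0:ℝ) 1, f (0, y) ≤ 0) (hf1 : ∀ y ∈ Icc (0:ℝ) 1, 0 ≤ f (1, y))
    (hg0 : ∀ x ∈ Icc (0:ℝ) 1, g (x, 0) ≤ 0) (hg1 : ∀ x ∈ Icc (0:ℝ) 1, 0 ≤ g (x, 1)) :
    ∃ x ∈ Icc (0:ℝ) 1, ∃ y ∈ Icc (0:ℝ) 1, f (x, y) = 0 ∧ g (x, y) = 0 := by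
  by_contra hno
  push Not at hno
  let cl : ℝ → ℝ := fun t => max 0 (min 1 t)
  have hcl : Continuous cl := by fun_prop
  have hclm : ∀ t, cl t ∈ Icc (0:ℝ) 1 := fun t =>
    ⟨le_max_left _ _, max_le zero_le_one (min_le_left _ _)⟩
  have hcle : ∀ t ∈ Icc (0:ℝ) 1, cl t = t := fun t ht => by
    simp only [cl]; rw [min_eq_right ht.2, max_eq_right ht.1]
  let G : ℝ × ℝ → ℂ := fun p => ⟨- f (cl p.1, cl p.2), - g (cl p.1, cl p.2)⟩
  have hGc : Continuous G := by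
    have : G = fun p => ((- f (cl p.1, cl p.2) : ℝ) : ℂ)
        + ((- g (cl p.1, cl p.2) : ℝ) : ℂ) * Complex.I := by
      funext p; apply Complex.ext <;> simp [G]
    rw [this]; fun_prop
  have hG0 : ∀ p, G p ≠ 0 := by
    intro p h
    have h1 : - f (cl p.1, cl p.2) = 0 := congrArg Complex.re h
    have h2 : - g (cl p.1, cl p.2) = 0 := congrArg Complex.im h
    exact hno _ (hclm _) _ (hclm _) (neg_eq_zero.1 h1) (neg_eq_zero.1 h2)
  obtain ⟨L, ⟨hL0, hL⟩, -⟩ := Complex.isCoveringMapOn_exp.existsUnique_continuousMap_lifts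
    (⟨G, hGc⟩ : C(ℝ × ℝ, ℂ)) (a₀ := ((0:ℝ), (0:ℝ))) (Complex.exp_log (hG0 _))
    (fun p => hG0 p)
  have hexp : ∀ p, Complex.exp (L p) = G p := fun p => congrFun hL p
  let θ : ℝ × ℝ → ℝ := fun p => (L p).im
  have hθ : Continuous θ := Complex.continuous_im.comp L.continuous
  have hcos : ∀ x ∈ Icc (0:ℝ) 1, ∀ y ∈ Icc (0:ℝ) 1,
      Real.exp (L (x, y)).re * Real.cos (θ (x, y)) = - f (x, y) := by
    intro x hx y hy
    have := congrArg Complex.re (hexp (x, y))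
    rw [Complex.exp_re] at this
    simpa [G, hcle x hx, hcle y hy] using this
  have hsin : ∀ x ∈ Icc (0:ℝ) 1, ∀ y ∈ Icc (0:ℝ) 1,
      Real.exp (L (x, y)).re * Real.sin (θ (x, y)) = - g (x, y) := by
    intro x hx y hy
    have := congrArg Complex.im (hexp (x, y))
    rw [Complex.exp_im] at this
    simpa [G, hcle x hx, hcle y hy] using this
  have z0 : (0:ℝ) ∈ Icc (0:ℝ) 1 := ⟨le_rfl, zero_le_one⟩
  have z1 : (1:ℝ) ∈ Icc (0:ℝ) 1 := ⟨zero_le_one, le_rfl⟩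
  have cL : ∀ y ∈ Icc (0:ℝ) 1, 0 ≤ Real.cos (θ (0, y)) := fun y hy => by
    have h1 := hcos 0 z0 y hy
    have h2 := hf0 y hy
    have h3 := Real.exp_pos (L (0, y)).re
    by_contra h; push Not at h
    nlinarith
  have cR : ∀ y ∈ Icc (0:ℝ) 1, Real.cos (θ (1, y)) ≤ 0 := fun y hy => by
    have h1 := hcos 1 z1 y hy
    have h2 := hf1 y hy
    have h3 := Real.exp_pos (L (1, y)).re
    by_contra h; push Not at h
    nlinarith
  have sB : ∀ x ∈ Icc (0:ℝ) 1, 0 ≤ Real.sin (θ (x, 0)) := fun x hx => by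
    have h1 := hsin x hx 0 z0
    have h2 := hg0 x hx
    have h3 := Real.exp_pos (L (x, 0)).re
    by_contra h; push Not at h
    nlinarith
  have sT : ∀ x ∈ Icc (0:ℝ) 1, Real.sin (θ (x, 1)) ≤ 0 := fun x hx => by
    have h1 := hsin x hx 1 z1
    have h2 := hg1 x hx
    have h3 := Real.exp_pos (L (x, 1)).re
    by_contra h; push Not at h
    nlinarith
  have pi := Real.pi_pos
  have a00 : θ (0, 0) = Complex.arg (G (0, 0)) := by
    simp only [θ]; rw [hL0]; exact Complex.log_im _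
  have b1 : -Real.pi < θ (0, 0) := a00 ▸ Complex.neg_pi_lt_arg _
  have b2 : θ (0, 0) ≤ Real.pi := a00 ▸ Complex.arg_le_pi _
  have b3 : 0 ≤ θ (0, 0) := by
    by_contra h; push Not at h
    have := Real.sin_neg_of_neg_of_neg_pi_lt h b1
    linarith [sB 0 z0]
  have b4 : θ (0, 0) ≤ Real.pi / 2 := by
    by_contra h; push Not at h
    have := Real.cos_neg_of_pi_div_two_lt_of_lt h (by linarith)
    linarith [cL 0 z0]
  -- bottom side
  have hB : Continuous fun x : ℝ => θ (x, 0) := by fun_prop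
  have c1 : -(Real.pi / 2) < θ (1, 0) := avoid_gt hB (by linarith) (fun t ht h => by
    have := sB t ht
    rw [h, Real.sin_neg, Real.sin_pi_div_two] at this; linarith)
  have c2 : θ (1, 0) < 3 * Real.pi / 2 := avoid_lt hB (by linarith) (fun t ht h => by
    have := sB t ht
    rw [h, show 3 * Real.pi / 2 = Real.pi / 2 + Real.pi by ring, Real.sin_add_pi,
      Real.sin_pi_div_two] at this
    linarith)
  have c3 : Real.pi / 2 ≤ θ (1, 0) := by
    by_contra h; push Not at h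
    have := Real.cos_pos_of_mem_Ioo ⟨c1, h⟩
    linarith [cR 0 z0]
  -- right side
  have hR : Continuous fun y : ℝ => θ (1, y) := by fun_prop
  have d1 : 0 < θ (1, 1) := avoid_gt hR (by linarith) (fun t ht h => by
    have := cR t ht
    rw [h, Real.cos_zero] at this; linarith)
  have d3 : Real.pi ≤ θ (1, 1) := by
    by_contra h; push Not at h
    have := Real.sin_pos_of_pos_of_lt_pi d1 h
    linarith [sT 1 z1]
  -- left side
  have hLe : Continuous fun y : ℝ => θ (0, y) := by fun_prop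
  have e2 : θ (0, 1) < Real.pi := avoid_lt hLe (by linarith) (fun t ht h => by
    have := cL t ht
    rw [h, Real.cos_pi] at this; linarith)
  have e3 : θ (0, 1) ≤ 0 := by
    by_contra h; push Not at h
    have := Real.sin_pos_of_pos_of_lt_pi h e2
    linarith [sT 0 z0]
  -- top side
  have hT : Continuous fun x : ℝ => θ (x, 1) := by fun_prop
  have f2 : θ (1, 1) < Real.pi / 2 := avoid_lt hT (by linarith) (fun t ht h => by
    have := sT t ht
    rw [h, Real.sin_pi_div_two] at this; linarith)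
  linarith

/-- The zero set of a function that is negative on one side of the square and positive on the
opposite side joins the two other sides inside any open neighbourhood. -/
theorem cross (F : ℝ × ℝ → ℝ) (hF : Continuous F)
    (h0 : ∀ y ∈ Icc (0:ℝ) 1, F (0, y) < 0) (h1 : ∀ y ∈ Icc (0:ℝ) 1, 0 < F (1, y))
    {ε : ℝ} (hε : 0 < ε) :
    ∃ a ∈ Icc (0:ℝ) 1, ∃ b : ℝ, F (a, 0) = 0 ∧
      JoinedIn {p : ℝ × ℝ | p ∈ Icc (0:ℝ) 1 ×ˢ Icc (0:ℝ) 1 ∧ |F p| < ε} (a, 0) (b, 1) := by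
  set Sq : Set (ℝ × ℝ) := Icc (0:ℝ) 1 ×ˢ Icc (0:ℝ) 1 with hSq
  set N : Set (ℝ × ℝ) := {p | p ∈ Sq ∧ |F p| < ε} with hN
  set Z : Set (ℝ × ℝ) := {p | p ∈ Sq ∧ F p = 0} with hZ
  have hSqc : IsClosed Sq := isClosed_Icc.prod isClosed_Icc
  have hZc : IsClosed Z := hSqc.inter (isClosed_eq hF continuous_const)
  have hZN : Z ⊆ N := fun p hp => ⟨hp.1, by rw [hp.2]; simpa using hε⟩
  have hloc : ∀ q ∈ Z, ∃ r > 0, ∀ q' ∈ Z, dist q' q < r → JoinedIn N q q' := by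
    intro q hq
    have ho : IsOpen {p : ℝ × ℝ | |F p| < ε} := isOpen_lt hF.abs continuous_const
    obtain ⟨r, hr, hb⟩ := Metric.isOpen_iff.1 ho q (hZN hq).2
    refine ⟨r, hr, fun q' hq' hd => ?_⟩
    have hcv : Convex ℝ (Sq ∩ ball q r) :=
      ((convex_Icc _ _).prod (convex_Icc _ _)).inter (convex_ball _ _)
    have hpc := hcv.isPathConnected ⟨q, hq.1, mem_ball_self hr⟩
    exact (hpc.joinedIn q ⟨hq.1, mem_ball_self hr⟩ q' ⟨hq'.1, hd⟩).mono
      (fun p hp => ⟨hp.1, hb hp.2⟩)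
  set Z1 : Set (ℝ × ℝ) := {q | q ∈ Z ∧ ∃ a : ℝ, (a, 0) ∈ Z ∧ JoinedIn N (a, 0) q} with hZ1
  set Z2 : Set (ℝ × ℝ) := {q | q ∈ Z ∧ ¬ ∃ a : ℝ, (a, 0) ∈ Z ∧ JoinedIn N (a, 0) q} with hZ2
  have hZ1c : IsClosed Z1 := by
    refine isClosed_of_closure_subset fun q hq => ?_
    have hqZ : q ∈ Z := hZc.closure_subset (closure_mono (fun p hp => hp.1) hq)
    obtain ⟨r, hr, hj⟩ := hloc q hqZ
    obtain ⟨q', hq', hd⟩ := Metric.mem_closure_iff.1 hq r hr
    obtain ⟨a, ha, haj⟩ := hq'.2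
    exact ⟨hqZ, a, ha, haj.trans (hj q' hq'.1 (by rwa [dist_comm])).symm⟩
  have hZ2c : IsClosed Z2 := by
    refine isClosed_of_closure_subset fun q hq => ?_
    have hqZ : q ∈ Z := hZc.closure_subset (closure_mono (fun p hp => hp.1) hq)
    obtain ⟨r, hr, hj⟩ := hloc q hqZ
    obtain ⟨q', hq', hd⟩ := Metric.mem_closure_iff.1 hq r hr
    refine ⟨hqZ, fun ⟨a, ha, haj⟩ => hq'.2 ⟨a, ha, haj.trans (hj q' hq'.1 (by rwa [dist_comm]))⟩⟩
  by_contra hno
  have hno' : ∀ q ∈ Z1, q.2 ≠ 1 := by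
    rintro ⟨b, y⟩ ⟨-, a, ha, haj⟩ hy
    simp only at hy
    subst hy
    exact hno ⟨a, ha.1.1, b, ha.2, haj⟩
  have hA1 : IsClosed (Z1 ∪ {p : ℝ × ℝ | p.2 = 0}) :=
    hZ1c.union (isClosed_eq continuous_snd continuous_const)
  have hA2 : IsClosed (Z2 ∪ {p : ℝ × ℝ | p.2 = 1}) :=
    hZ2c.union (isClosed_eq continuous_snd continuous_const)
  have hdis : Disjoint (Z1 ∪ {p : ℝ × ℝ | p.2 = 0}) (Z2 ∪ {p : ℝ × ℝ | p.2 = 1}) := by
    rw [Set.disjoint_left]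
    rintro ⟨a, y⟩ (hp | hp) (hq | hq)
    · exact hq.2 hp.2
    · exact hno' _ hp hq
    · have hy : y = 0 := hp
      subst hy
      exact hq.2 ⟨a, hq.1, JoinedIn.refl (hZN hq.1)⟩
    · have hy : y = 0 := hp
      have hy' : y = 1 := hq
      linarith
  obtain ⟨u, hu0, hu1, -⟩ := exists_continuous_zero_one_of_isClosed hA1 hA2 hdis
  obtain ⟨x, hx, y, hy, hF0, hu⟩ := pm2 F (fun p => u p - 1 / 2) hF (by fun_prop)
    (fun y hy => (h0 y hy).le) (fun y hy => (h1 y hy).le)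
    (fun x _ => by
      have : u (x, 0) = 0 := hu0 (Or.inr rfl)
      simp only [this]; norm_num)
    (fun x _ => by
      have : u (x, 1) = 1 := hu1 (Or.inr rfl)
      simp only [this]; norm_num)
  have hZm : (x, y) ∈ Z := ⟨⟨hx, hy⟩, hF0⟩
  by_cases hc : ∃ a : ℝ, (a, 0) ∈ Z ∧ JoinedIn N (a, 0) (x, y)
  · have : u (x, y) = 0 := hu0 (Or.inl ⟨hZm, hc⟩)
    simp only [this] at hu; norm_num at hu
  · have : u (x, y) = 1 := hu1 (Or.inl ⟨hZm, hc⟩)
    simp only [this] at hu; norm_num at hu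

/-- Mountain climbing, in the form needed. -/
theorem climbers (h : ℝ → ℝ) (hh : Continuous h) (B : ℝ × ℝ → ℝ) (hB : Continuous B)
    (hB0 : ∀ t, B (t, t) = 0) {u v e : ℝ} (huv : u ≤ v) (he : h u = h v)
    (hge : ∀ t ∈ Icc u v, h u ≤ h t) (he0 : 0 ≤ e) (heB : e ≤ B (u, v)) :
    ∃ t ∈ Icc u v, ∃ t' ∈ Icc u v, h t = h t' ∧ B (t, t') = e := by
  have m1 : ∀ α ∈ Icc (0:ℝ) 1, ∀ β ∈ Icc (0:ℝ) 1, u + α * β * (v - u) ∈ Icc u v := by
    intro α hα β hβ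
    have h1 : 0 ≤ α * β := mul_nonneg hα.1 hβ.1
    have h2 : α * β ≤ 1 := mul_le_one₀ hα.2 hβ.1 hβ.2
    constructor <;> nlinarith
  have m2 : ∀ α ∈ Icc (0:ℝ) 1, ∀ β ∈ Icc (0:ℝ) 1, v - (1 - α) * β * (v - u) ∈ Icc u v := by
    intro α hα β hβ
    have h1 : 0 ≤ (1 - α) * β := mul_nonneg (by linarith [hα.2]) hβ.1
    have h2 : (1 - α) * β ≤ 1 := mul_le_one₀ (by linarith [hα.1]) hβ.1 hβ.2
    constructor <;> nlinarith
  have z0 : (0:ℝ) ∈ Icc (0:ℝ) 1 := ⟨le_rfl, zero_le_one⟩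
  have z1 : (1:ℝ) ∈ Icc (0:ℝ) 1 := ⟨zero_le_one, le_rfl⟩
  obtain ⟨α, hα, β, hβ, h1, h2⟩ := pm2
    (fun p => h (u + p.1 * p.2 * (v - u)) - h (v - (1 - p.1) * p.2 * (v - u)))
    (fun p => e - B (u + p.1 * p.2 * (v - u), v - (1 - p.1) * p.2 * (v - u)))
    (by fun_prop) (by fun_prop)
    (fun y hy => by
      have := hge _ (m2 0 z0 y hy)
      simp only [zero_mul, add_zero]; linarith)
    (fun y hy => by
      have := hge _ (m1 1 z1 y hy)
      simp only [sub_self, zero_mul, sub_zero]; linarith)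
    (fun x _ => by simp only [mul_zero, zero_mul, add_zero, sub_zero]; linarith)
    (fun x _ => by
      have : v - (1 - x) * 1 * (v - u) = u + x * 1 * (v - u) := by ring
      simp only [this, hB0]; linarith)
  exact ⟨_, m1 α hα β hβ, _, m2 α hα β hβ, by linarith, by linarith⟩

theorem sign_const {h : ℝ → ℝ} (hh : Continuous h) {u v c : ℝ}
    (hne : ∀ t ∈ Ioo u v, h t ≠ c) : (∀ t ∈ Ioo u v, c < h t) ∨ (∀ t ∈ Ioo u v, h t < c) := by
  by_contra hc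
  push Not at hc
  obtain ⟨⟨a, ha, hac⟩, ⟨b, hb, hbc⟩⟩ := hc
  obtain ⟨t, ht, htc⟩ := isPreconnected_Ioo.intermediate_value ha hb hh.continuousOn ⟨hac, hbc⟩
  exact hne t ht htc

/-- Either a horizontal chord of a given small size, or an almost prescribed chord at the
initial height. -/
theorem chord {X : Type*} [MetricSpace X] (h : ℝ → ℝ) (hh : Continuous h) (A : ℝ → X)
    (hA : Continuous A) (h01 : h 0 = h 1) {e e' : ℝ} (he0 : 0 ≤ e) (he1 : e ≤ dist (A 0) (A 1))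
    (he' : 0 ≤ e') :
    (∃ t ∈ Icc (0:ℝ) 1, ∃ t' ∈ Icc (0:ℝ) 1, h t = h t' ∧ dist (A t) (A t') = e') ∨
    (∃ t ∈ Icc (0:ℝ) 1, h 0 = h t ∧ |dist (A 0) (A t) - e| ≤ e') := by
  have hd : Continuous fun t => dist (A 0) (A t) := by fun_prop
  have k1 : IsCompact {t ∈ Icc (0:ℝ) 1 | h 0 = h t ∧ dist (A 0) (A t) ≤ e} :=
    isCompact_Icc.inter_right ((isClosed_eq continuous_const hh).inter
      (isClosed_le hd continuous_const))
  obtain ⟨u, ⟨hu, hu1, hu2⟩, hum⟩ := k1.exists_isGreatest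
    ⟨0, ⟨le_rfl, zero_le_one⟩, rfl, by simpa using he0⟩
  have k2 : IsCompact {t ∈ Icc u 1 | h 0 = h t ∧ e ≤ dist (A 0) (A t)} :=
    isCompact_Icc.inter_right ((isClosed_eq continuous_const hh).inter
      (isClosed_le continuous_const hd))
  obtain ⟨v, ⟨hv, hv1, hv2⟩, hvm⟩ := k2.exists_isLeast ⟨1, ⟨hu.2, le_rfl⟩, h01, he1⟩
  by_cases hlt : dist (A u) (A v) < e'
  · refine Or.inr ⟨u, hu, hu1, ?_⟩
    have := dist_triangle (A 0) (A u) (A v)
    rw [abs_le]; constructor <;> linarith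
  push Not at hlt
  left
  have hne : ∀ t ∈ Ioo u v, h t ≠ h u := by
    intro t ht hth
    rcases le_total (dist (A 0) (A t)) e with hle | hle
    · have := hum ⟨⟨hu.1.trans ht.1.le, ht.2.le.trans hv.2⟩, by rw [hth, hu1], hle⟩
      exact absurd ht.1 (not_lt.2 this)
    · have := hvm ⟨⟨ht.1.le, ht.2.le.trans hv.2⟩, by rw [hth, hu1], hle⟩
      exact absurd ht.2 (not_lt.2 this)
  have huv : h u = h v := by rw [← hu1, hv1]
  have hsub : Icc u v ⊆ Icc (0:ℝ) 1 := Icc_subset_Icc hu.1 hv.2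
  have hB : Continuous fun p : ℝ × ℝ => dist (A p.1) (A p.2) := by fun_prop
  rcases sign_const hh hne with hs | hs
  · obtain ⟨t, ht, t', ht', h1, h2⟩ := climbers h hh _ hB (fun t => dist_self _) hv.1 huv
      (fun t ht => by
        rcases eq_or_lt_of_le ht.1 with h1 | h1
        · rw [h1]
        rcases eq_or_lt_of_le ht.2 with h2 | h2
        · rw [h2, huv]
        exact (hs t ⟨h1, h2⟩).le) he' hlt
    exact ⟨t, hsub ht, t', hsub ht', h1, h2⟩
  · obtain ⟨t, ht, t', ht', h1, h2⟩ := climbers (fun t => - h t) hh.neg _ hB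
      (fun t => dist_self _) hv.1 (by simp only [huv])
      (fun t ht => by
        rcases eq_or_lt_of_le ht.1 with h1 | h1
        · rw [h1]
        rcases eq_or_lt_of_le ht.2 with h2 | h2
        · rw [h2, huv]
        exact neg_le_neg (hs t ⟨h1, h2⟩).le) he' hlt
    exact ⟨t, hsub ht, t', hsub ht', neg_injective h1, h2⟩

theorem inner_pair_pos {h : ℝ → ℝ} (hh : Continuous h) {t t' δ : ℝ} (htt : t < t')
    (he : h t = h t') (hs : ∀ s ∈ Ioo t t', h t < h s) (hδ : 0 < δ) :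
    ∃ s s', t < s ∧ s ≤ s' ∧ s' ≤ t' ∧ s < t + δ ∧ t' - δ < s' ∧ h s = h s' := by
  set η := min (δ / 2) ((t' - t) / 3) with hη
  have η0 : 0 < η := lt_min (by linarith) (by linarith)
  have η1 : η ≤ δ / 2 := min_le_left _ _
  have η2 : η ≤ (t' - t) / 3 := min_le_right _ _
  have a1 := hs (t + η) ⟨by linarith, by linarith⟩
  have a2 := hs (t' - η) ⟨by linarith, by linarith⟩
  set c := min (h (t + η)) (h (t' - η)) with hc
  have c0 : h t < c := lt_min a1 a2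
  obtain ⟨s, hs1, hs2⟩ := intermediate_value_Icc (show t ≤ t + η by linarith) hh.continuousOn
    (show c ∈ Icc (h t) (h (t + η)) from ⟨c0.le, min_le_left _ _⟩)
  obtain ⟨s', hs1', hs2'⟩ := intermediate_value_Icc' (show t' - η ≤ t' by linarith)
    hh.continuousOn (show c ∈ Icc (h t') (h (t' - η)) from ⟨he ▸ c0.le, min_le_right _ _⟩)
  have hts : t < s := by
    rcases eq_or_lt_of_le hs1.1 with h1 | h1
    · rw [← h1] at hs2; linarith
    · exact h1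
  exact ⟨s, s', hts, by linarith [hs1.2, hs1'.1], hs1'.2, by linarith [hs1.2],
    by linarith [hs1'.1], by rw [hs2, hs2']⟩

/-- A transitive, reflexive, locally constant relation on pairs of equal height is total. -/
theorem climb (h : ℝ → ℝ) (hh : Continuous h) (E : ℝ → ℝ → Prop)
    (hrefl : ∀ t ∈ Icc (0:ℝ) 1, E t t)
    (htrans : ∀ t ∈ Icc (0:ℝ) 1, ∀ s ∈ Icc (0:ℝ) 1, ∀ t' ∈ Icc (0:ℝ) 1, h t = h s → h s = h t' →
      E t s → E s t' → E t t')
    (hloc : ∀ t ∈ Icc (0:ℝ) 1, ∀ t' ∈ Icc (0:ℝ) 1, h t = h t' → ∃ δ > 0,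
      ∀ s ∈ Icc (0:ℝ) 1, ∀ s' ∈ Icc (0:ℝ) 1, h s = h s' → |s - t| < δ → |s' - t'| < δ →
        (E s s' ↔ E t t'))
    (h01 : h 0 = h 1) : E 0 1 := by
  by_contra hno
  set W : Set (ℝ × ℝ) := {p | p ∈ Icc (0:ℝ) 1 ×ˢ Icc (0:ℝ) 1 ∧ p.1 ≤ p.2 ∧ h p.1 = h p.2}
    with hW
  have hWc : IsClosed W := (isClosed_Icc.prod isClosed_Icc).inter
    ((isClosed_le continuous_fst continuous_snd).inter (isClosed_eq (by fun_prop) (by fun_prop)))
  set Bad : Set (ℝ × ℝ) := {p | p ∈ W ∧ ¬ E p.1 p.2} with hBad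
  have hBc : IsClosed Bad := by
    refine isClosed_of_closure_subset fun q hq => ?_
    have hqW : q ∈ W := hWc.closure_subset (closure_mono (fun p hp => hp.1) hq)
    obtain ⟨δ, hδ, hl⟩ := hloc q.1 hqW.1.1 q.2 hqW.1.2 hqW.2.2
    obtain ⟨q', hq', hd⟩ := Metric.mem_closure_iff.1 hq δ hδ
    rw [dist_comm, Prod.dist_eq, max_lt_iff, Real.dist_eq, Real.dist_eq] at hd
    exact ⟨hqW, fun hE => hq'.2 ((hl q'.1 hq'.1.1.1 q'.2 hq'.1.1.2 hq'.1.2.2 hd.1 hd.2).2 hE)⟩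
  have hBk : IsCompact Bad := (isCompact_Icc.prod isCompact_Icc).of_isClosed_subset hBc
    (fun p hp => hp.1.1)
  obtain ⟨⟨t, t'⟩, ⟨⟨⟨ht, ht'⟩, hle, heq⟩, hnE⟩, hmin⟩ := hBk.exists_isMinOn
    ⟨(0, 1), ⟨⟨⟨le_rfl, zero_le_one⟩, ⟨zero_le_one, le_rfl⟩⟩, zero_le_one, h01⟩, hno⟩
    (f := fun p => p.2 - p.1) (by fun_prop)
  simp only at ht ht' hle heq hnE
  have good : ∀ s ∈ Icc (0:ℝ) 1, ∀ s' ∈ Icc (0:ℝ) 1, s ≤ s' → h s = h s' → s' - s < t' - t →
      E s s' := by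
    intro s hs s' hs' h1 h2 h3
    by_contra h4
    have : t' - t ≤ s' - s := hmin (show (s, s') ∈ Bad from ⟨⟨⟨hs, hs'⟩, h1, h2⟩, h4⟩)
    linarith
  have hlt : t < t' := by
    rcases eq_or_lt_of_le hle with h1 | h1
    · rw [← h1] at hnE; exact absurd (hrefl t ht) hnE
    · exact h1
  have hne : ∀ s ∈ Ioo t t', h s ≠ h t := by
    intro s hs hst
    have hs01 : s ∈ Icc (0:ℝ) 1 := ⟨ht.1.trans hs.1.le, hs.2.le.trans ht'.2⟩
    exact hnE (htrans t ht s hs01 t' ht' hst.symm (hst.trans heq)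
      (good t ht s hs01 hs.1.le hst.symm (by linarith [hs.2]))
      (good s hs01 t' ht' hs.2.le (hst.trans heq) (by linarith [hs.1])))
  obtain ⟨δ, hδ, hl⟩ := hloc t ht t' ht' heq
  have key : ∃ s s', t < s ∧ s ≤ s' ∧ s' ≤ t' ∧ s < t + δ ∧ t' - δ < s' ∧ h s = h s' := by
    rcases sign_const hh hne with hs | hs
    · exact inner_pair_pos hh hlt heq hs hδ
    · obtain ⟨s, s', h1, h2, h3, h4, h5, h6⟩ := inner_pair_pos (h := fun t => - h t) hh.neg hlt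
        (by simp only [heq]) (fun s hs' => neg_lt_neg (hs s hs')) hδ
      exact ⟨s, s', h1, h2, h3, h4, h5, neg_injective h6⟩
  obtain ⟨s, s', h1, h2, h3, h4, h5, h6⟩ := key
  have hs01 : s ∈ Icc (0:ℝ) 1 := ⟨by linarith [ht.1], by linarith [ht'.2]⟩
  have hs01' : s' ∈ Icc (0:ℝ) 1 := ⟨by linarith [ht.1], by linarith [ht'.2]⟩
  exact hnE ((hl s hs01 s' hs01' h6 (by rw [abs_lt]; constructor <;> linarith)
    (by rw [abs_lt]; constructor <;> linarith)).1 (good s hs01 s' hs01' h2 h6 (by linarith)))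

/-- A sub-interval on which a continuous function runs through a band. -/
theorem band {k : ℝ → ℝ} (hk : Continuous k) {a b : ℝ} (hab : a ≤ b) (h0 : k 0 ≤ a)
    (h1 : b ≤ k 1) : ∃ u v, u ≤ v ∧ k u = a ∧ k v = b ∧ ∀ t ∈ Icc u v, k t ∈ Icc a b := by
  have k1 : IsCompact {t ∈ Icc (0:ℝ) 1 | k t = b} :=
    isCompact_Icc.inter_right (isClosed_eq hk continuous_const)
  obtain ⟨v, ⟨hv, hvb⟩, hvm⟩ := k1.exists_isLeast (by
    obtain ⟨t, ht, htb⟩ := intermediate_value_Icc (zero_le_one' ℝ) hk.continuousOn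
      ⟨h0.trans hab, h1⟩
    exact ⟨t, ht, htb⟩)
  have k2 : IsCompact {t ∈ Icc (0:ℝ) v | k t = a} :=
    isCompact_Icc.inter_right (isClosed_eq hk continuous_const)
  obtain ⟨u, ⟨hu, hua⟩, hum⟩ := k2.exists_isGreatest (by
    obtain ⟨t, ht, htb⟩ := intermediate_value_Icc hv.1 hk.continuousOn
      (show a ∈ Icc (k 0) (k v) from ⟨h0, hvb ▸ hab⟩)
    exact ⟨t, ht, htb⟩)
  refine ⟨u, v, hu.2, hua, hvb, fun t ht => ⟨?_, ?_⟩⟩
  · by_contra h; push Not at h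
    obtain ⟨s, hs, hsa⟩ := intermediate_value_Icc ht.2 hk.continuousOn
      (show a ∈ Icc (k t) (k v) from ⟨h.le, hvb ▸ hab⟩)
    have h2 : s ≤ u := hum ⟨⟨hu.1.trans (ht.1.trans hs.1), hs.2⟩, hsa⟩
    have h3 : t = u := le_antisymm (hs.1.trans h2) ht.1
    rw [h3, hua] at h; exact lt_irrefl _ h
  · by_contra h; push Not at h
    obtain ⟨s, hs, hsa⟩ := intermediate_value_Icc (hu.1.trans ht.1) hk.continuousOn
      (show b ∈ Icc (k 0) (k t) from ⟨h0.trans hab, h.le⟩)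
    have h2 : v ≤ s := hvm ⟨⟨hs.1, hs.2.trans (ht.2.trans hv.2)⟩, hsa⟩
    have h3 : t = v := le_antisymm ht.2 (h2.trans hs.2)
    rw [h3, hvb] at h; exact lt_irrefl _ h

end Pool.Agent.Lib.AH
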