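import Pool.Agent.Lib.AH.Box

set_option autoImplicit false

namespace Pool.Agent.Lib.AH

open Set Filter Topology Metric TopologicalSpace

variable {X : Type*} [MetricSpace X]

/-- The set contains separated sequences of arbitrarily small diameter. -/
def NC (V : Set X) : Prop :=
  ∀ η > 0, ∃ (z : ℕ → X) (t : ℝ), 0 < t ∧ (∀ j, z j ∈ V ∧ dist (z 0) (z j) ≤ η) ∧
    ∀ᶠ l in UU, ∀ᶠ j in UU, t < dist (z l) (z j)

theorem not_sep {z : ℕ → X} {t : ℝ} (ht : 0 < t)
    (hs : ∀ᶠ l in UU, ∀ᶠ j in UU, t < dist (z l) (z j)) {K : Set X} (hK : IsCompact K) :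
    ∃ j, z j ∉ K := by
  by_contra h
  push Not at h
  obtain ⟨w, -, hle⟩ := hK.ultrafilter_le_nhds ((hyperfilter ℕ).map z)
    (le_principal_iff.2 (mem_map.2 (Eventually.of_forall h)))
  have hw : Tendsto z UU (𝓝 w) := hle
  have k := Metric.tendsto_nhds.1 hw _ (half_pos ht)
  obtain ⟨l, l1, l2⟩ := (hs.and k).exists
  obtain ⟨j, j1, j2⟩ := (l1.and k).exists
  linarith [dist_triangle_right (z l) (z j) w]

theorem IsAH.off (H : IsAH X) (h : NC (univ : Set X)) (c : X) {η : ℝ} (hη : 0 < η) {K : Set X}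
    (hK : IsCompact K) : ∃ w, dist c w ≤ η ∧ w ∉ K := by
  obtain ⟨z, t, ht, h1, h2⟩ := h η hη
  obtain ⟨g, rfl⟩ := H.one (z 0) c
  obtain ⟨j, hj⟩ := not_sep (z := fun j => g (z j)) ht (by simpa only [g.dist_eq] using h2) hK
  exact ⟨_, by rw [g.dist_eq]; exact (h1 j).2, hj⟩

theorem IsAH.nc_sphere [PathConnectedSpace X] (H : IsAH X) (h : NC (univ : Set X)) {e : ℝ}
    (e0 : 0 < e) {p q : X} (he : e < dist p q) (a : X) : NC (sphere a e) := by
  classical
  intro η hη
  set θ := min (η / 4) (min e (dist p q - e)) with hθ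
  have θ0 : 0 < θ := lt_min (by linarith) (lt_min e0 (by linarith))
  have θ1 : θ ≤ η / 4 := min_le_left _ _
  have θ2 : θ ≤ e := (min_le_right _ _).trans (min_le_left _ _)
  have θ3 : θ ≤ dist p q - e := (min_le_right _ _).trans (min_le_right _ _)
  obtain ⟨z, t, ht, h1, h2⟩ := h θ θ0
  have e1 : ∀ y : X, ∃ r ∈ Icc 0 (dist y (z 0) + θ),
      Tendsto (fun j => dist y (z j)) UU (𝓝 r) := fun y =>
    exists_ulim _ fun j => ⟨dist_nonneg, by linarith [dist_triangle y (z 0) (z j), (h1 j).2]⟩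
  choose φ φm φt using e1
  have φc : Continuous φ := by
    refine (LipschitzWith.of_dist_le_mul (K := 1) fun a b => ?_).continuous
    rw [Real.dist_eq, NNReal.coe_one, one_mul]
    exact lim_lip (φt a) (φt b) fun n => abs_dist_sub_le _ _ _
  obtain ⟨q', hq'⟩ := H.realized' (z 0) p q dist_nonneg le_rfl
  obtain ⟨y, hy⟩ := intermediate_value_univ (z 0) q' φc (show e ∈ _ from ⟨by
    have := (φm (z 0)).2
    rw [dist_self] at this
    linarith, ge_of_tendsto' (φt q') fun j => by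
      linarith [dist_triangle_right (z 0) q' (z j), (h1 j).2]⟩)
  obtain ⟨w, hw⟩ := realized p q e0.le he.le
  obtain ⟨v, hv, hd⟩ := H.move_sphere ⟨p, w, hw⟩ y (hy ▸ φt y)
  obtain ⟨g, rfl⟩ := H.one y a
  have G : ∀ᶠ j in UU, dist (z j) (v j) < min θ (t / 3) :=
    hd.eventually (gt_mem_nhds (lt_min θ0 (by linarith)))
  obtain ⟨j0, hj0⟩ := G.exists
  let n : ℕ → ℕ := fun j => if dist (z j) (v j) < min θ (t / 3) then j else j0
  have hn : ∀ j, dist (z (n j)) (v (n j)) < θ := fun j => by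
    refine lt_of_lt_of_le ?_ (min_le_left θ (t / 3))
    by_cases k : dist (z j) (v j) < min θ (t / 3)
    · simpa only [n, if_pos k] using k
    · simpa only [n, if_neg k] using hj0
  refine ⟨fun j => g (v (n j)), t / 3, by linarith, fun j => ⟨?_, ?_⟩, ?_⟩
  · rw [mem_sphere, g.dist_eq]; exact hv _
  · rw [g.dist_eq]
    linarith [hn 0, hn j, (h1 (n 0)).2, (h1 (n j)).2, dist_triangle_left (z (n 0)) (z (n j)) (z 0),
      dist_triangle4 (v (n 0)) (z (n 0)) (z (n j)) (v (n j)), dist_comm (v (n 0)) (z (n 0))]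
  · filter_upwards [h2, G] with l l1 l2
    filter_upwards [l1, G] with j j1 j2
    simp only [n, if_pos l2, if_pos j2, g.dist_eq]
    linarith [l2.trans_le (min_le_right _ _), j2.trans_le (min_le_right _ _),
      dist_triangle4 (z l) (v l) (v j) (z j), dist_comm (v j) (z j)]

theorem IsAH.level (H : IsAH X) {ι : Type*} (b : ι → X) (φ : ι → ℝ) :
    IsAH {w | ∀ i, dist w (b i) = φ i} := by
  intro R hR
  obtain ⟨g, hg⟩ := H ((range fun i => (b i, b i)) ∪ (fun r : {w | ∀ i, dist w (b i) = φ i} ×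
      {w | ∀ i, dist w (b i) = φ i} => ((r.1 : X), (r.2 : X))) '' R) (by
    rintro _ (⟨i, rfl⟩ | ⟨a, ha, rfl⟩) _ (⟨j, rfl⟩ | ⟨c, hc, rfl⟩)
    · rfl
    · simp only
      rw [dist_comm, dist_comm (b i), c.1.2 i, c.2.2 i]
    · simp only
      rw [a.1.2 j, a.2.2 j]
    · exact hR a ha c hc)
  have gb : ∀ i, g (b i) = b i := fun i => hg (b i, b i) (Or.inl ⟨i, rfl⟩)
  refine ⟨⟨⟨fun w => ⟨g w, fun i => ?_⟩, fun w => ⟨g.symm w, fun i => ?_⟩, fun w => by simp,
    fun w => by simp⟩, Isometry.of_dist_eq fun u v => g.dist_eq u v⟩, fun r hr => Subtype.ext ?_⟩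
  · rw [← gb i, g.dist_eq]; exact w.2 i
  · rw [← g.dist_eq, g.apply_symm_apply, gb]; exact w.2 i
  · exact hg (r.1, r.2) (Or.inr ⟨r, hr, rfl⟩)

/-- Geodesics of length at most `r` do not branch. -/
def NBr (X : Type*) [MetricSpace X] (r : ℝ) : Prop :=
  ∀ x y z z' : X, x ≠ y → dist x z ≤ r → Col x y z → Col x y z' → dist y z = dist y z' → z = z'

/-- `y` and `z` lie on one ray from `c`. -/
def Ray (c y z : X) : Prop := Col c y z ∨ Col c z y

theorem Ray.map (g : X ≃ᵢ X) {c y z : X} (h : Ray c y z) : Ray (g c) (g y) (g z) :=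
  h.imp (Col.map g) (Col.map g)

theorem Ray.dist {c y z : X} (h : Ray c y z) : dist y z = |dist c y - dist c z| := by
  rcases h with h | h
  · have : _ = _ := h
    rw [abs_sub_comm, abs_of_nonneg (sub_nonneg.2 h.le1)]; linarith
  · have : _ = _ := h
    rw [abs_of_nonneg (sub_nonneg.2 h.le1), dist_comm]; linarith

theorem Seg.ray {γ : ℝ → X} {x y : X} (h : Seg γ x y) {s t u : ℝ} (h0 : 0 ≤ s) (h1 : s ≤ t)
    (h2 : s ≤ u) (h3 : t ≤ dist x y) (h4 : u ≤ dist x y) :
    Ray (γ s) (γ t) (γ u) ∧ dist (γ s) (γ u) = u - s := by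
  have key : ∀ a b, 0 ≤ a → a ≤ b → b ≤ dist x y → dist (γ a) (γ b) = b - a := fun a b k1 k2 k3 => by
    rw [h.iso a ⟨k1, k2.trans k3⟩ b ⟨k1.trans k2, k3⟩, abs_sub_comm, abs_of_nonneg (sub_nonneg.2 k2)]
  refine ⟨?_, key s u h0 h2 h4⟩
  rcases le_total t u with k | k
  · left; unfold Col
    rw [key s t h0 h1 h3, key t u (h0.trans h1) k h4, key s u h0 h2 h4]; ring
  · right; unfold Col
    rw [key s t h0 h1 h3, key u t (h0.trans h2) k h3, key s u h0 h2 h4]; ring

/-- The case without branching. -/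
structure Rg (X : Type*) [MetricSpace X] (ρ : ℝ) : Prop where
  pos : 0 < ρ
  C : Ctx X (6 * ρ)
  U : Uni X (6 * ρ)
  N : NBr X (6 * ρ)
  nc : NC (univ : Set X)

variable {ρ : ℝ}

theorem Rg.ray (G : Rg X ρ) {c y z z' : X} (hy : c ≠ y) (h1 : dist c y ≤ 6 * ρ)
    (h2 : dist c z ≤ 6 * ρ) (h : Ray c y z) (h' : Ray c y z') (he : dist c z = dist c z') :
    z = z' := by
  rcases h with h | h <;> rcases h' with h' | h'
  · have k1 : _ = _ := h
    have k2 : _ = _ := h'
    exact G.N c y z z' hy h2 h h' (by linarith)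
  · rw [← h.eq_of (he ▸ h'.le1), h'.eq_of (he ▸ h.le1)]
  · rw [h.eq_of (he ▸ h'.le1), ← h'.eq_of (he ▸ h.le1)]
  · exact G.U c y z z' h1 h h' he

variable [CompleteSpace X]

theorem Rg.stab (G : Rg X ρ) {c y z : X} (hy : c ≠ y) (h1 : dist c y ≤ 4 * ρ) (hz : dist c z = ρ)
    (h : Ray c y z) {ε : ℝ} (hε : 0 < ε) : ∃ δ > 0, ∀ z', dist c z' = ρ →
      dist y z' ≤ |dist c y - ρ| + δ → dist z z' ≤ ε := by
  have ρ0 := G.pos
  have h0 := dist_pos.2 hy
  by_cases hh : dist c y = ρ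
  · refine ⟨ε, hε, fun z' _ k => ?_⟩
    rw [hh, sub_self, abs_zero, zero_add] at k
    rwa [← G.ray hy (by linarith) (by linarith) (Or.inl (col_right c y)) h (hh.trans hz.symm)]
  obtain ⟨κ, κ1, κ2⟩ : ∃ κ : ℝ, (κ = 1 ∨ κ = -1) ∧ 0 < κ * (dist c y - ρ) := by
    rcases lt_or_gt_of_ne hh with k | k
    · exact ⟨-1, Or.inr rfl, by linarith⟩
    · exact ⟨1, Or.inl rfl, by linarith⟩
  set σ := min (ε / 2) (min ρ (κ * (dist c y - ρ))) with hσ
  have σ0 : 0 < σ := lt_min (by linarith) (lt_min ρ0 κ2)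
  have σ1 : σ ≤ ε / 2 := min_le_left _ _
  have σ2 : σ ≤ ρ := (min_le_right _ _).trans (min_le_left _ _)
  have σ3 : σ ≤ κ * (dist c y - ρ) := (min_le_right _ _).trans (min_le_right _ _)
  obtain ⟨Q, -, hQ⟩ := G.C.ext c c (6 * ρ) (by linarith) (by simp)
  obtain ⟨l, hl⟩ := G.C.geo.seg hQ.le
  obtain ⟨w, w1, w2⟩ := G.C.H.off G.nc (l (σ + ρ)) σ0 ((isCompact_Icc (a := 0)
    (b := dist c Q)).image hl.cont)
  obtain ⟨α, hα⟩ := G.C.geo.seg (x := l (σ + ρ)) (y := w) (by linarith)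
  have lc := hl.cont
  have αc := hα.cont
  have a0 : ∀ u ∈ Icc (0:ℝ) 1, dist (l (σ + ρ)) (α (u * dist (l (σ + ρ)) w)) ≤ σ := fun u hu => by
    have k := mul_le_of_le_one_left (dist_nonneg (x := l (σ + ρ)) (y := w)) hu.2
    rw [hα.left (mul_nonneg hu.1 dist_nonneg) k]
    linarith
  have b0 : ∀ x ∈ Icc (0:ℝ) 1, 0 ≤ 2 * σ * x ∧ 2 * σ * x ≤ 2 * σ := fun x hx =>
    ⟨mul_nonneg (by linarith) hx.1, mul_le_of_le_one_right (by linarith) hx.2⟩
  have r0 : ∀ x ∈ Icc (0:ℝ) 1, ∀ u, 2 * σ * x ≤ u → u ≤ 6 * ρ →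
      Ray (l (2 * σ * x)) (l (2 * σ * x + dist c y)) (l u) ∧
        dist (l (2 * σ * x)) (l u) = u - 2 * σ * x := fun x hx u k1 k2 =>
    hl.ray (b0 x hx).1 (by linarith) k1 (by linarith [(b0 x hx).2]) (by linarith)
  have d0 : ∀ x ∈ Icc (0:ℝ) 1, dist (l (2 * σ * x)) (l (2 * σ * x + dist c y)) = dist c y :=
    fun x hx => by
      rw [(r0 x hx _ (by linarith) (by linarith [(b0 x hx).2])).2]; ring
  obtain ⟨δ, δ0, hδ⟩ := (isCompact_Icc (a := (0:ℝ)) (b := 1)).exists_forall_le'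
    (f := fun x => dist (l (2 * σ * x + dist c y)) w + κ * (dist (l (2 * σ * x)) w - dist c y))
    (by fun_prop) (a := 0) fun x hx => by
      by_contra k
      have k1 := d0 x hx
      have k2 := r0 x hx (σ + ρ) (by linarith [(b0 x hx).2]) (by linarith)
      have k3 := dist_triangle (l (2 * σ * x)) (l (σ + ρ)) w
      have k4 := r0 x hx (2 * σ * x + dist (l (2 * σ * x)) w) (by simp) (by linarith [k2.2])
      have k5 : Ray (l (2 * σ * x)) (l (2 * σ * x + dist c y)) w := by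
        rcases κ1 with rfl | rfl
        · exact Or.inr (col_of_le (by rw [dist_comm w]; linarith))
        · exact Or.inl (col_of_le (by linarith))
      refine w2 ⟨2 * σ * x + dist (l (2 * σ * x)) w, ⟨add_nonneg (b0 x hx).1 dist_nonneg,
        by linarith [k2.2]⟩, (G.ray (dist_pos.1 (by linarith)) (by linarith)
          (by linarith [k2.2, (b0 x hx).1]) k5 k4.1 (by rw [k4.2]; ring)).symm⟩
  refine ⟨δ, δ0, fun z' z1 z2 => ?_⟩
  have ab : |dist c y - ρ| = κ * (dist c y - ρ) := by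
    rcases κ1 with rfl | rfl
    · rw [abs_of_pos (by linarith), one_mul]
    · rw [abs_of_neg (by linarith)]; ring
  obtain ⟨x, hx, u, hu, f0, g0⟩ := pm2
    (fun q => ρ - dist (l (2 * σ * q.1)) (α (q.2 * dist (l (σ + ρ)) w)))
    (fun q => dist (l (2 * σ * q.1 + dist c y)) (α (q.2 * dist (l (σ + ρ)) w)) +
      κ * (dist (l (2 * σ * q.1)) (α (q.2 * dist (l (σ + ρ)) w)) - dist c y) -
      (dist y z' - κ * (dist c y - ρ)))
    (by fun_prop) (by fun_prop)
    (fun u hu => by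
      have k := (r0 0 ⟨le_rfl, zero_le_one⟩ (σ + ρ) (by linarith) (by linarith)).2
      have := dist_triangle_right (l (2 * σ * 0)) (l (σ + ρ)) (α (u * dist (l (σ + ρ)) w))
      simp only
      linarith [a0 u hu])
    (fun u hu => by
      have k := (r0 1 ⟨zero_le_one, le_rfl⟩ (σ + ρ) (by linarith) (by linarith)).2
      have := dist_triangle (l (2 * σ * 1)) (l (σ + ρ)) (α (u * dist (l (σ + ρ)) w))
      simp only
      linarith [a0 u hu])
    (fun x hx => by
      have k := r0 x hx (σ + ρ) (by linarith [(b0 x hx).2]) (by linarith)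
      have k1 := k.1.dist
      have k2 := b0 x hx
      have k3 := dist_triangle_left y z' c
      have k4 := abs_dist_sub_le y z' c
      rw [dist_comm y, dist_comm z', z1, ab] at k4
      simp only [zero_mul, hα.h0]
      rw [k1, d0 x hx, k.2]
      rcases κ1 with rfl | rfl
      · rw [abs_of_nonneg (by linarith)]; linarith
      · rw [abs_of_nonpos (by linarith)]; linarith)
    (fun x hx => by
      simp only [one_mul, hα.h1]
      linarith [hδ x hx])
  simp only at f0 g0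
  rw [show dist (l (2 * σ * x)) (α (u * dist (l (σ + ρ)) w)) = ρ by linarith] at g0
  obtain ⟨g, g1, g2, g3⟩ := G.C.H.three (a := l (2 * σ * x)) (b := l (2 * σ * x + dist c y))
    (c := α (u * dist (l (σ + ρ)) w)) (a' := c) (b' := y) (c' := z') (d0 x hx) (by linarith)
    (by linarith)
  have k := r0 x hx (2 * σ * x + ρ) (by linarith) (by linarith [(b0 x hx).2])
  have k1 := k.1.map g
  have k2 : dist c (g (l (2 * σ * x + ρ))) = ρ := by rw [← g1, g.dist_eq, k.2]; ring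
  rw [g1, g2] at k1
  rw [G.ray hy (by linarith) (by linarith) h k1 (hz.trans k2.symm), ← g3, g.dist_eq]
  have k3 := hl.iso (2 * σ * x + ρ) ⟨by linarith [(b0 x hx).1], by linarith [(b0 x hx).2]⟩
    (σ + ρ) ⟨by linarith, by linarith⟩
  have k4 : |2 * σ * x + ρ - (σ + ρ)| ≤ σ := by
    rw [abs_le]; constructor <;> linarith [(b0 x hx).1, (b0 x hx).2]
  linarith [a0 u hu, dist_triangle (l (2 * σ * x + ρ)) (l (σ + ρ)) (α (u * dist (l (σ + ρ)) w))]

/-- The radial projection of a geodesic to the sphere. -/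
theorem Rg.arc (G : Rg X ρ) {c w w' : X} (hw : dist c w = ρ) (hw' : dist c w' = ρ)
    (hne : ¬ Col w c w') : ∃ P γ : ℝ → X, Continuous P ∧ P 0 = w ∧ P 1 = w' ∧
      ∀ t, dist c (P t) = ρ ∧ Col w (γ t) w' ∧ Ray c (γ t) (P t) ∧ c ≠ γ t := by
  have ρ0 := G.pos
  have d2 : dist w w' ≤ 2 * ρ := by linarith [dist_triangle_left w w' c]
  obtain ⟨β, hβ⟩ := G.C.geo.seg (x := w) (y := w') (by linarith)
  let γ : ℝ → X := fun t => β (max 0 (min 1 t) * dist w w')
  have βc := hβ.cont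
  have γc : Continuous γ := by fun_prop
  have γ1 : ∀ t, Col w (γ t) w' := fun t =>
    hβ.col (mul_nonneg (le_max_left _ _) dist_nonneg)
      (mul_le_of_le_one_left dist_nonneg (max_le zero_le_one (min_le_left _ _)))
  have γ2 : ∀ t, c ≠ γ t := fun t e => hne (e ▸ γ1 t)
  have γ3 : ∀ t, dist c (γ t) ≤ 3 * ρ := fun t => by
    linarith [dist_triangle c w (γ t), (γ1 t).le1]
  have hP : ∀ t, ∃ z, dist c z = ρ ∧ Ray c (γ t) z := fun t => by
    rcases le_total ρ (dist c (γ t)) with k | k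
    · obtain ⟨z, z1, z2⟩ := G.C.geo c (γ t) (by linarith [γ3 t]) ρ ρ0.le k
      exact ⟨z, z2, Or.inr z1⟩
    · obtain ⟨z, z1, z2⟩ := G.C.ext c (γ t) (ρ - dist c (γ t)) (by linarith) (by linarith)
      have : _ = _ := z1
      exact ⟨z, by linarith, Or.inl z1⟩
  choose P P1 P2 using hP
  have fix : ∀ t, dist c (γ t) = ρ → P t = γ t := fun t e =>
    G.ray (γ2 t) (by linarith) (by linarith [P1 t]) (P2 t) (Or.inl (col_right _ _))
      ((P1 t).trans e.symm)
  have g0 : γ 0 = w := by simp [γ, hβ.h0]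
  have g1 : γ 1 = w' := by simp [γ, hβ.h1]
  refine ⟨P, γ, continuous_iff_continuousAt.2 fun t => Metric.continuousAt_iff'.2 fun ε hε => ?_,
    (fix 0 (g0 ▸ hw)).trans g0, (fix 1 (g1 ▸ hw')).trans g1, fun t => ⟨P1 t, γ1 t, P2 t, γ2 t⟩⟩
  obtain ⟨δ, δ0, hδ⟩ := G.stab (γ2 t) (by linarith [γ3 t]) (P1 t) (P2 t) (half_pos hε)
  filter_upwards [Metric.continuousAt_iff'.1 (γc.continuousAt (x := t)) _ (half_pos δ0)] with s hs
  have k1 := (P2 s).dist
  have k2 := abs_dist_sub_le (γ s) (γ t) c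
  have k3 := abs_sub_le (dist c (γ s)) (dist c (γ t)) ρ
  rw [P1 s] at k1
  rw [dist_comm (γ s) c, dist_comm (γ t) c] at k2
  have := hδ (P s) (P1 s) (by linarith [dist_triangle_left (γ t) (P s) (γ s)])
  rw [dist_comm]
  linarith

theorem Rg.false [PathConnectedSpace X] (G : Rg X ρ) : False := by
  have ρ0 := G.pos
  have H := G.C.H
  obtain ⟨c⟩ : Nonempty X := inferInstance
  have hA : ∀ w, ∃ w', dist c w = ρ → Col w c w' ∧ dist c w' = ρ := fun w => by
    by_cases k : dist c w = ρ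
    · obtain ⟨z, hz⟩ := G.C.ext w c ρ ρ0.le (by rw [dist_comm]; linarith)
      exact ⟨z, fun _ => hz⟩
    · exact ⟨w, fun k' => absurd k' k⟩
  choose A hA using hA
  have A2 : ∀ w, dist c w = ρ → dist w (A w) = 2 * ρ := fun w k => by
    have : _ = _ := (hA w k).1
    rw [dist_comm w c, k, (hA w k).2] at this
    linarith
  have Au : ∀ w w', dist c w = ρ → dist c w' = ρ → Col w c w' → w' = A w := fun w w' k k' h =>
    (G.N w c (A w) w' (dist_pos.1 (by rw [dist_comm]; linarith)) (by linarith [A2 w k]) (hA w k).1 h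
      ((hA w k).2.trans k'.symm)).symm
  have Ag : ∀ g : X ≃ᵢ X, g c = c → ∀ w, dist c w = ρ → g (A w) = A (g w) := fun g hg w k => by
    have k1 := (hA w k).1.map g
    have k2 : ∀ v, dist c (g v) = dist c v := fun v => by conv_lhs => rw [← hg, g.dist_eq]
    rw [hg] at k1
    exact Au _ _ ((k2 w).trans k) ((k2 _).trans (hA w k).2) k1
  have tr : ∀ w f w' f', dist c w = ρ → dist c f = ρ → dist c w' = ρ → dist c f' = ρ →
      dist w f = dist w' f' → dist w (A f) = dist w' (A f') := fun w f w' f' k1 k2 k3 k4 k5 => by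
    obtain ⟨g, g1, rfl, rfl⟩ := H.three (a := c) (a' := c) (k1.trans k3.symm) (k2.trans k4.symm) k5
    rw [← Ag g g1 f k2, g.dist_eq]
  have AA : ∀ w, dist c w = ρ → A (A w) = w := fun w k =>
    (Au _ _ (hA w k).2 k (hA w k).1.symm).symm
  let W : ℕ → (ℕ → X) → Set X := fun n f =>
    {w | dist c w = ρ ∧ ∀ i < n, dist w (f i) = dist w (A (f i))}
  have WA : ∀ n f, (∀ i < n, dist c (f i) = ρ) → ∀ w ∈ W n f, A w ∈ W n f := fun n f hf w hw => by
    refine ⟨(hA w hw.1).2, fun i hi => ?_⟩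
    have k := hA (f i) (hf i hi)
    rw [dist_comm (A w), dist_comm (A w), tr (f i) w w (f i) (hf i hi) hw.1 hw.1 (hf i hi)
      (dist_comm _ _), tr (A (f i)) w w (A (f i)) k.2 hw.1 hw.1 k.2 (dist_comm _ _),
      AA _ (hf i hi), hw.2 i hi]
  have WJ : ∀ n f, (∀ i < n, dist c (f i) = ρ) → ∀ w ∈ W n f, ∀ w' ∈ W n f, w' ≠ A w →
      JoinedIn (W n f) w w' := fun n f hf w hw w' hw' hne => by
    obtain ⟨P, γ, Pc, P0, P1, hP⟩ := G.arc hw.1 hw'.1 fun k => hne (Au _ _ hw.1 hw'.1 k)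
    rw [← P0, ← P1]
    refine joinedIn_of_path Pc (a := 0) (b := 1) ⟨le_rfl, zero_le_one⟩ ⟨zero_le_one, le_rfl⟩
      fun t _ => ⟨(hP t).1, fun i hi => ?_⟩
    obtain ⟨g, g1, g2, g3, g4⟩ := H.four (a := c) (b := w) (c := w') (d := f i) (a' := c) (b' := w)
      (c' := w') (d' := A (f i)) rfl rfl rfl ((hf i hi).trans (hA _ (hf i hi)).2.symm)
      (hw.2 i hi) (hw'.2 i hi)
    obtain ⟨p1, p2, p3, p4⟩ := hP t
    have d2 : dist w w' ≤ 2 * ρ := by linarith [dist_triangle_left w w' c, hw.1, hw'.1]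
    have k1 := p2.map g
    have k2 := p3.map g
    rw [g2, g3] at k1
    have k3 : γ t = g (γ t) := G.U w w' _ _ (by linarith) p2 k1 (by
      conv_rhs => rw [← g2, g.dist_eq])
    rw [g1, ← k3] at k2
    have k4 : P t = g (P t) := G.ray p4 (by linarith [dist_triangle c w (γ t), p2.le1, hw.1])
      (by linarith) p3 k2 (by conv_rhs => rw [← g1, g.dist_eq])
    rw [← g4]
    conv_rhs => rw [k4, g.dist_eq]
  have WP : ∀ n f, (∀ i < n, dist c (f i) = ρ) → NC (W n f) → IsPathConnected (W n f) :=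
    fun n f hf hn => by
    obtain ⟨z, t, ht, h1, h2⟩ := hn 1 one_pos
    refine ⟨z 0, (h1 0).1, fun w hw => ?_⟩
    by_cases k : w = A (z 0)
    · obtain ⟨j, hj⟩ := not_sep ht h2 (Set.toFinite {w, A w}).isCompact
      simp only [mem_insert_iff, mem_singleton_iff, not_or] at hj
      exact (WJ n f hf _ (h1 0).1 _ (h1 j).1 (k ▸ hj.1)).trans
        (WJ n f hf _ hw _ (h1 j).1 hj.2).symm
    · exact WJ n f hf _ (h1 0).1 _ hw k
  obtain ⟨f0, -, hf0⟩ := G.C.ext c c ρ ρ0.le (by rw [dist_self]; linarith)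
  have N0 : ∀ f, NC (W 0 f) := fun f => by
    have := H.nc_sphere G.nc ρ0 (p := f0) (q := A f0) (by linarith [A2 f0 hf0]) c
    rwa [show sphere c ρ = W 0 f by ext w; simp [W, dist_comm]] at this
  obtain ⟨w0, hw0, he⟩ := (WP 0 (fun _ => c) (by simp) (N0 _)).isConnected.isPreconnected.intermediate_value
    (f := fun w => dist w f0 - dist w (A f0)) (a := f0) (b := A f0) ⟨hf0, by simp⟩
    ⟨(hA f0 hf0).2, by simp⟩ (by fun_prop) (show (0:ℝ) ∈ _ from ⟨by simp, by simp⟩)
  have he' : dist w0 f0 = dist w0 (A f0) := sub_eq_zero.1 he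
  have lt2 : ∀ w f, dist c w = ρ → dist c f = ρ → dist w f = dist w (A f) →
      ρ ≤ dist w f ∧ w ≠ A f := fun w f k1 k2 k3 => by
    have := dist_triangle_left f (A f) w
    rw [A2 f k2] at this
    refine ⟨by linarith, fun e => ?_⟩
    rw [← e, dist_self] at k3
    rw [← e, dist_self] at this
    linarith
  have uq : ∀ w f w' f', dist c w = ρ → dist c f = ρ → dist c w' = ρ → dist c f' = ρ →
      dist w f = dist w (A f) → dist w' f' = dist w' (A f') → dist w f ≤ dist w' f' :=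
    fun w f w' f' k1 k2 k3 k4 k5 k6 => by
    by_contra hlt
    push Not at hlt
    obtain ⟨P, γ, Pc, P0, P1, hP⟩ := G.arc k2 k1 fun k => (lt2 w f k1 k2 k5).2 (Au _ _ k2 k1 k)
    obtain ⟨t, -, ht⟩ := intermediate_value_Icc (zero_le_one' ℝ) (f := fun t => dist (P t) f)
      (by fun_prop) (show dist w' f' ∈ _ from ⟨by simp [P0], by simp [P1, hlt.le]⟩)
    simp only at ht
    obtain ⟨p1, p2, p3, p4⟩ := hP t
    obtain ⟨g, g1, g2, g3, g4⟩ := H.four (a := c) (b := w) (c := P t) (d := f) (a' := c) (b' := w)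
      (c' := P t) (d' := A f) rfl rfl rfl (k2.trans (hA _ k2).2.symm) k5
      (by rw [tr (P t) f w' f' p1 k2 k3 k4 ht, ht, k6])
    have d2 : dist f w ≤ 2 * ρ := by linarith [dist_triangle_left f w c]
    have d3 : dist c (γ t) ≤ 6 * ρ := by linarith [dist_triangle c f (γ t), p2.le1]
    have m1 := p3.map g
    rw [g1, g3] at m1
    have m2 : γ t = g (γ t) := G.ray (dist_pos.1 (by linarith)) (by linarith) d3 p3.symm m1.symm
      (by conv_rhs => rw [← g1, g.dist_eq])
    have m3 := p2.symm.map g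
    rw [g2, ← m2, g4] at m3
    have m4 : w ≠ γ t := fun e => by
      rw [G.ray p4 d3 (by linarith) p3 (e ▸ Or.inl (col_right c w)) (p1.trans k1.symm)] at ht
      exact hlt.ne' ht
    have m5 := G.N w (γ t) f (A f) m4 (by rw [dist_comm]; linarith) p2.symm m3 (by
      rw [← g4]; conv_rhs => rw [m2, g.dist_eq])
    have := A2 f k2
    rw [← m5, dist_self] at this
    linarith
  have hw1 : dist c w0 = ρ := hw0.1
  have eqv : ∀ w f, dist c w = ρ → dist c f = ρ →
      (dist w f = dist w (A f) ↔ dist w f = dist w0 f0) := fun w f k1 k2 =>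
    ⟨fun k => le_antisymm (uq w f w0 f0 k1 k2 hw1 hf0 k he') (uq w0 f0 w f hw1 hf0 k1 k2 he' k),
      fun k => by rw [tr w f w0 f0 k1 k2 hw1 hf0 k, k, he']⟩
  have e0 : 0 < dist w0 f0 := ρ0.trans_le (lt2 w0 f0 hw1 hf0 he').1
  have e1 : dist w0 f0 < 2 * ρ := by
    refine lt_of_le_of_ne (by linarith [dist_triangle_left w0 f0 c]) fun e => ?_
    exact (lt2 w0 f0 hw1 hf0 he').2 (Au _ _ hf0 hw1 (col_of_le (by
      rw [dist_comm f0, dist_comm f0]; linarith)))
  have main : ∀ n, ∃ f : ℕ → X, (∀ i < n, dist c (f i) = ρ) ∧ NC (W n f) ∧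
      ∀ i < n, ∀ j < n, i ≠ j → dist (f i) (f j) = dist w0 f0 := by
    intro n
    induction n with
    | zero => exact ⟨fun _ => c, by simp, N0 _, by simp⟩
    | succ n ih =>
      obtain ⟨f, hf, hn, hd⟩ := ih
      have HW : IsAH (W n f) := by
        have := H.level (fun o : Option (Fin n) => o.elim c fun i => f i)
          fun o => o.elim ρ fun _ => dist w0 f0
        rwa [show {w | ∀ o : Option (Fin n), dist w (o.elim c fun i => f i) =
            o.elim ρ fun _ => dist w0 f0} = W n f from ?_] at this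
        ext w
        simp only [mem_ofPred_eq, Option.forall, Option.elim_none, Option.elim_some, W, dist_comm w c]
        exact and_congr_right fun k => ⟨fun h i hi => (eqv w _ k (hf i hi)).2 (h ⟨i, hi⟩),
          fun h i => (eqv w _ k (hf i i.2)).1 (h i i.2)⟩
      have := isPathConnected_iff_pathConnectedSpace.1 (WP n f hf hn)
      obtain ⟨a, ha⟩ := (WP n f hf hn).nonempty
      have N1 : NC (univ : Set (W n f)) := fun η hη => by
        obtain ⟨z, t, ht, h1, h2⟩ := hn η hη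
        exact ⟨fun j => ⟨z j, (h1 j).1⟩, t, ht, fun j => ⟨mem_univ _, (h1 j).2⟩, h2⟩
      have N2 := HW.nc_sphere N1 e0 (p := ⟨a, ha⟩) (q := ⟨A a, WA n f hf a ha⟩)
        (by rw [Subtype.dist_eq, A2 a ha.1]; exact e1) ⟨a, ha⟩
      have u1 : ∀ i < n, Function.update f n a i = f i := fun i hi => Function.update_of_ne hi.ne _ _
      have u2 : Function.update f n a n = a := Function.update_self _ _ _
      have u3 : ∀ i < n, dist a (f i) = dist w0 f0 := fun i hi =>
        (eqv a _ ha.1 (hf i hi)).1 (ha.2 i hi)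
      refine ⟨Function.update f n a, fun i hi => ?_, fun η hη => ?_, fun i hi j hj hij => ?_⟩
      · rcases Nat.lt_succ_iff_lt_or_eq.1 hi with k | rfl
        · rw [u1 i k]; exact hf i k
        · rw [u2]; exact ha.1
      · obtain ⟨z, t, ht, h1, h2⟩ := N2 η hη
        refine ⟨fun j => z j, t, ht, fun j => ⟨⟨(z j).2.1, fun i hi => ?_⟩, (h1 j).2⟩, h2⟩
        rcases Nat.lt_succ_iff_lt_or_eq.1 hi with k | rfl
        · rw [u1 i k]; exact (z j).2.2 i k
        · rw [u2]; exact (eqv _ _ (z j).2.1 ha.1).2 (h1 j).1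
      · rcases Nat.lt_succ_iff_lt_or_eq.1 hi with k | rfl <;>
          rcases Nat.lt_succ_iff_lt_or_eq.1 hj with k' | rfl
        · rw [u1 i k, u1 j k']; exact hd i k j k' hij
        · rw [u1 i k, u2, dist_comm]; exact u3 i k
        · rw [u1 j k', u2]; exact u3 j k'
        · exact absurd rfl hij
  exact H.no_equi e0 fun n => (main n).imp fun f h => h.2.2

end Pool.Agent.Lib.AH
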