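import Pool.Agent.Lib.AH.Std
import Pool.Agent.Lib.AH.PM

set_option autoImplicit false

namespace Pool.Agent.Lib.AH

open Set Filter Topology Metric TopologicalSpace

variable {X : Type*} [MetricSpace X]

/-- Three paths out of `c` inside a small ball, the end of each being away from the others. -/
structure Legs (c : X) (ε0 e1 : ℝ) (lam : Fin 3 → ℝ → X) : Prop where
  cont : ∀ i, Continuous (lam i)
  zero : ∀ i, lam i 0 = c
  small : ∀ i t, dist c (lam i t) ≤ ε0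
  far : ∀ i j, i ≠ j → ∀ t ∈ Icc (0:ℝ) 1, e1 ≤ dist (lam i 1) (lam j t)

theorem IsAH.legs [PathConnectedSpace X] (H : IsAH X) (c : X) {ε0 : ℝ} (p : Fin 3 → X)
    (hp : ∀ i, dist c (p i) = ε0) (hinj : Function.Injective p) :
    ∃ e1 > 0, ∃ lam, Legs c ε0 e1 lam := by
  choose lam hc h0 h1 hm using fun i => exists_path_in (H.access c (p i))
  have hev : ∀ᶠ e in 𝓝[>] (0:ℝ), ∀ i j, i ≠ j → ∀ t ∈ Icc (0:ℝ) 1,
      e ≤ dist (lam i 1) (lam j t) := by
    refine eventually_all.2 fun i => eventually_all.2 fun j => ?_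
    by_cases hij : i = j
    · exact Eventually.of_forall fun e h => absurd hij h
    obtain ⟨t, -, hmin⟩ := isCompact_Icc.exists_isMinOn (nonempty_Icc.2 (zero_le_one' ℝ))
      (f := fun t => dist (lam i 1) (lam j t)) (by have := hc j; fun_prop)
    have hpos : 0 < dist (lam i 1) (lam j t) := by
      refine dist_pos.2 fun h => ?_
      rw [h1] at h
      rcases hm j t with k | k
      · rw [← h, mem_ball, dist_comm, hp, hp] at k
        exact lt_irrefl _ k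
      · exact hij (hinj (h.trans k))
    filter_upwards [nhdsWithin_le_nhds (eventually_lt_nhds hpos)] with e he _ s hs
    exact he.le.trans (hmin hs)
  obtain ⟨e, he, he0⟩ := (hev.and self_mem_nhdsWithin).exists
  refine ⟨e, he0, lam, hc, h0, fun i t => ?_, he⟩
  rcases hm i t with k | k
  · rw [mem_ball, dist_comm, hp] at k; exact k.le
  · rw [k, hp]

theorem three_between (s : ℝ) (b : Fin 3 → ℝ) : ∃ i j, i ≠ j ∧ b i ∈ uIcc s (b j) := by
  have two : ∀ i j, i ≠ j → ((s ≤ b i ∧ s ≤ b j) ∨ (b i ≤ s ∧ b j ≤ s)) →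
      ∃ i j, i ≠ j ∧ b i ∈ uIcc s (b j) := by
    intro i j hij h
    rcases le_total (b i) (b j) with k | k
    · rcases h with h | h
      · exact ⟨i, j, hij, mem_uIcc.2 (Or.inl ⟨h.1, k⟩)⟩
      · exact ⟨j, i, hij.symm, mem_uIcc.2 (Or.inr ⟨k, h.2⟩)⟩
    · rcases h with h | h
      · exact ⟨j, i, hij.symm, mem_uIcc.2 (Or.inl ⟨h.2, k⟩)⟩
      · exact ⟨i, j, hij, mem_uIcc.2 (Or.inr ⟨k, h.1⟩)⟩
  rcases le_total s (b 0) with h0 | h0 <;> rcases le_total s (b 1) with h1 | h1 <;>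
    rcases le_total s (b 2) with h2 | h2
  · exact two 0 1 (by decide) (Or.inl ⟨h0, h1⟩)
  · exact two 0 1 (by decide) (Or.inl ⟨h0, h1⟩)
  · exact two 0 2 (by decide) (Or.inl ⟨h0, h2⟩)
  · exact two 1 2 (by decide) (Or.inr ⟨h1, h2⟩)
  · exact two 1 2 (by decide) (Or.inl ⟨h1, h2⟩)
  · exact two 0 2 (by decide) (Or.inr ⟨h0, h2⟩)
  · exact two 0 1 (by decide) (Or.inr ⟨h0, h1⟩)
  · exact two 0 1 (by decide) (Or.inr ⟨h0, h1⟩)

/-- Almost exact loops: the data produced by three legs and a moving centre. -/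
def Loops (x : ℝ → X) (C : Set X) (a e1 : ℝ) : Prop :=
  ∀ ε > 0, ∃ (h : ℝ → ℝ) (A : ℝ → X), Continuous h ∧ Continuous A ∧
    (∀ t, h t ∈ Icc (0:ℝ) 1 ∧ A t ∈ C ∧ |dist (x (h t)) (A t) - a| < ε) ∧ h 0 = h 1 ∧
    e1 ≤ dist (A 0) (A 1)

theorem Legs.loops {c : X} {ε0 e1 : ℝ} {lam : Fin 3 → ℝ → X} (hl : Legs c ε0 e1 lam)
    {x : ℝ → X} (hx : Continuous x) (hx0 : x 0 = c) {a σ0 : ℝ} (ha0 : ε0 < a)
    (ha1 : a + ε0 < dist c (x 1)) (hσ : ∀ σ ∈ Icc (0:ℝ) 1, dist c (x σ) = a → σ = σ0) :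
    Loops x (⋃ i, lam i '' Icc 0 1) a e1 := by
  intro ε hε
  let M : Fin 3 → Set (ℝ × X) := fun i =>
    {q | q.1 ∈ Icc (0:ℝ) 1 ∧ q.2 ∈ lam i '' Icc 0 1 ∧ |dist (x q.1) q.2 - a| < ε}
  have h1 : ∀ i, ∃ b : ℝ, JoinedIn (M i) (σ0, c) (b, lam i 1) := by
    intro i
    have hci := hl.cont i
    obtain ⟨s, hs, b, hF, hj⟩ := cross (fun p => dist (x p.1) (lam i p.2) - a) (by fun_prop)
      (fun y _ => by
        simp only [hx0]; linarith [hl.small i y])
      (fun y _ => by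
        simp only
        linarith [hl.small i y, dist_triangle c (lam i y) (x 1), dist_comm (x 1) (lam i y)]) hε
    simp only [hl.zero] at hF
    have hs0 : s = σ0 := hσ s hs (by rw [dist_comm]; linarith)
    refine ⟨b, ?_⟩
    have := (hj.map (f := fun p : ℝ × ℝ => (p.1, lam i p.2)) (by fun_prop)).mono
      (show _ ⊆ M i by
        rintro _ ⟨p, hp, rfl⟩
        exact ⟨hp.1.1, ⟨p.2, hp.1.2, rfl⟩, hp.2⟩)
    simpa only [hl.zero, hs0] using this
  choose b hb using h1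
  obtain ⟨i, j, hij, hbi⟩ := three_between σ0 b
  obtain ⟨γ, hγ, g0, g1, hm⟩ := exists_path_in (hb j)
  obtain ⟨t, ht, htb⟩ := intermediate_value_uIcc (a := (0:ℝ)) (b := 1)
    (f := fun t => (γ t).1) (by fun_prop) (show b i ∈ _ by simpa [g0, g1] using hbi)
  rw [uIcc_of_le zero_le_one] at ht
  have j2 : JoinedIn (M j) (γ 0) (γ t) :=
    joinedIn_of_path hγ ⟨le_rfl, zero_le_one⟩ ht fun u _ => hm u
  rw [g0] at j2
  let M' : Set (ℝ × X) :=
    {q | q.1 ∈ Icc (0:ℝ) 1 ∧ q.2 ∈ (⋃ i, lam i '' Icc 0 1) ∧ |dist (x q.1) q.2 - a| < ε}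
  have sub : ∀ k, M k ⊆ M' := fun k q hq => ⟨hq.1, mem_iUnion.2 ⟨k, hq.2.1⟩, hq.2.2⟩
  obtain ⟨Γ, hΓ, G0, G1, hM⟩ := exists_path_in
    (((hb i).mono (sub i)).symm.trans (j2.mono (sub j)))
  refine ⟨fun t => (Γ t).1, fun t => (Γ t).2, by fun_prop, by fun_prop, fun t => hM t, ?_, ?_⟩
  · simp only [G0, G1]; exact htb.symm
  · simp only [G0, G1]
    obtain ⟨u, hu, hue⟩ := (hm t).2.1
    rw [← hue]
    exact hl.far i j hij u hu

theorem Loops.bases {x : ℝ → X} (hx : Continuous x) {C : Set X} (hC : IsCompact C) {a e1 : ℝ}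
    (he1 : 0 < e1) (hL : Loops x C a e1) : ∃ e0 > 0, ∀ e ∈ Icc 0 e0,
      ∃ k ∈ (x '' Icc 0 1) ×ˢ C ×ˢ C, dist k.1 k.2.1 = a ∧ dist k.1 k.2.2 = a ∧
        dist k.2.1 k.2.2 = e := by
  set K : Set (X × X × X) := (x '' Icc 0 1) ×ˢ C ×ˢ C with hK
  have hKc : IsCompact K := (isCompact_Icc.image hx).prod (hC.prod hC)
  have hclosed : ∀ e, (∀ η > 0, ∃ k ∈ K, |dist k.1 k.2.1 - a| < η ∧ |dist k.1 k.2.2 - a| < η ∧
      |dist k.2.1 k.2.2 - e| < η) → ∃ k ∈ K, dist k.1 k.2.1 = a ∧ dist k.1 k.2.2 = a ∧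
        dist k.2.1 k.2.2 = e := by
    intro e he
    have hc := (hKc.image (f := fun k : X × X × X =>
      (dist k.1 k.2.1, dist k.1 k.2.2, dist k.2.1 k.2.2)) (by fun_prop)).isClosed
    have : (a, a, e) ∈ closure ((fun k : X × X × X =>
        (dist k.1 k.2.1, dist k.1 k.2.2, dist k.2.1 k.2.2)) '' K) := by
      refine Metric.mem_closure_iff.2 fun η hη => ?_
      obtain ⟨k, hk, h1, h2, h3⟩ := he η hη
      refine ⟨_, ⟨k, hk, rfl⟩, ?_⟩
      rw [dist_comm]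
      simp only [Prod.dist_eq, max_lt_iff, Real.dist_eq]
      exact ⟨h1, h2, h3⟩
    obtain ⟨k, hk, hke⟩ := hc.closure_subset this
    simp only [Prod.mk.injEq] at hke
    exact ⟨k, hk, hke⟩
  by_contra hno
  refine hno ⟨e1, he1, fun e he => hclosed e fun η hη => ?_⟩
  have : ∃ e' ∈ Icc 0 (η / 2), ¬ ∃ k ∈ K, dist k.1 k.2.1 = a ∧ dist k.1 k.2.2 = a ∧
      dist k.2.1 k.2.2 = e' := by
    by_contra h
    push Not at h
    exact hno ⟨η / 2, half_pos hη, h⟩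
  obtain ⟨e', he', hne⟩ := this
  have : ∃ η' > 0, ¬ ∃ k ∈ K, |dist k.1 k.2.1 - a| < η' ∧ |dist k.1 k.2.2 - a| < η' ∧
      |dist k.2.1 k.2.2 - e'| < η' := by
    by_contra h
    push Not at h
    exact hne (hclosed e' h)
  obtain ⟨η', hη', hne'⟩ := this
  obtain ⟨h, A, hh, hA, hm, h01, hfar⟩ := hL (min η η') (lt_min hη hη')
  rcases chord h hh A hA h01 he.1 (he.2.trans hfar) he'.1 with ⟨t, -, t', -, k1, k2⟩ |
    ⟨t, -, k1, k2⟩
  · refine absurd ⟨(x (h t), A t, A t'), ⟨⟨_, (hm t).1, rfl⟩, (hm t).2.1, (hm t').2.1⟩,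
      (hm t).2.2.trans_le (min_le_right _ _), ?_, by simpa [k2] using hη'⟩ hne'
    simp only [k1]
    exact (hm t').2.2.trans_le (min_le_right _ _)
  · refine ⟨(x (h 0), A 0, A t), ⟨⟨_, (hm 0).1, rfl⟩, (hm 0).2.1, (hm t).2.1⟩,
      (hm 0).2.2.trans_le (min_le_left _ _), ?_, by simp only; linarith [he'.2]⟩
    simp only [k1]
    exact (hm t).2.2.trans_le (min_le_left _ _)

theorem IsAH.cl_sphere (H : IsAH X) (x0 : X) {a ε : ℝ} {x' z w w' : X} (hz : dist x' z = a)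
    (hw : dist x' w = a) (hw' : dist x' w' = a) (h : dist w w' < ε) :
    Cl (sphere x0 a) ε (dist z w) (dist z w') := by
  obtain ⟨g, hg⟩ := H.one x' x0
  have m : ∀ y, dist x' y = a → g y ∈ sphere x0 a := fun y hy => by
    rw [mem_sphere, ← hg, g.dist_eq, dist_comm, hy]
  have := (H.sph x0 a).cl (z := ⟨g z, m z hz⟩) (w := ⟨g w, m w hw⟩) (w' := ⟨g w', m w' hw'⟩)
    (ε := ε) (by rw [Subtype.dist_eq, g.dist_eq]; exact h)
  simpa only [Subtype.dist_eq, g.dist_eq] using this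

theorem IsAH.iso_near [CompleteSpace X] [SeparableSpace X] (H : IsAH X) {a : ℝ} {x' z w : X}
    (hz : dist x' z = a) (hw : dist x' w = a) {ε : ℝ} (hε : 0 < ε) :
    ∃ δ > 0, ∀ x'' z'' w'' : X, dist x'' z'' = a → dist x'' w'' = a → dist x'' x' < δ →
      dist z'' z < δ → dist w'' w < δ →
      ∃ w2, dist x' w2 = a ∧ dist z w2 = dist z'' w'' ∧ dist w w2 < ε := by
  have : SecondCountableTopology X := UniformSpace.secondCountable_of_separable X
  have : CompleteSpace (sphere x' a) := isClosed_sphere.completeSpace_coe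
  have mz : z ∈ sphere x' a := by rw [mem_sphere, dist_comm, hz]
  have mw : w ∈ sphere x' a := by rw [mem_sphere, dist_comm, hw]
  obtain ⟨δ2, d2, h2⟩ := (H.sph x' a).effros ⟨z, mz⟩ ⟨w, mw⟩ ⟨w, mw⟩ (half_pos hε)
  have hη : 0 < min (δ2 / 2) (ε / 4) := lt_min (by linarith) (by linarith)
  obtain ⟨δ1, d1, h1⟩ := H.effros x' z w hη
  refine ⟨min δ1 (min (δ2 / 2) (ε / 4)), lt_min d1 hη, fun x'' z'' w'' k1 k2 k3 k4 k5 => ?_⟩
  obtain ⟨g, g1, g2, g3⟩ := h1 x'' (k3.trans_le (min_le_left _ _))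
  simp only [lt_min_iff] at k4 k5 g2 g3
  have m : ∀ y, dist x'' y = a → g.symm y ∈ sphere x' a := fun y hy => by
    rw [mem_sphere, ← g.dist_eq, g.apply_symm_apply, g1, dist_comm, hy]
  have e1 : ∀ y u, dist (g.symm y) u = dist y (g u) := fun y u => by
    rw [← g.dist_eq, g.apply_symm_apply]
  obtain ⟨f, f1, f2, -⟩ := h2 ⟨g.symm z'', m _ k1⟩ (by
    rw [Subtype.dist_eq, e1]
    linarith [dist_triangle_right z'' (g z) z])
  refine ⟨(f.symm ⟨g.symm w'', m _ k2⟩ : sphere x' a), ?_, ?_, ?_⟩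
  · rw [dist_comm]; exact (f.symm ⟨g.symm w'', m _ k2⟩).2
  · have := f.dist_eq ⟨z, mz⟩ (f.symm ⟨g.symm w'', m _ k2⟩)
    rw [f.apply_symm_apply, f1, Subtype.dist_eq, Subtype.dist_eq, g.symm.dist_eq] at this
    exact this.symm
  · have := f.dist_eq ⟨w, mw⟩ (f.symm ⟨g.symm w'', m _ k2⟩)
    rw [f.apply_symm_apply, Subtype.dist_eq, Subtype.dist_eq] at this
    rw [Subtype.dist_eq] at f2
    simp only at this f2
    rw [← this]
    have t1 := dist_triangle_right (f ⟨w, mw⟩ : X) (g.symm w'') w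
    have t2 := e1 w'' w
    linarith [dist_triangle_right w'' (g w) w]

theorem IsAH.stage1 [CompleteSpace X] [SeparableSpace X] (H : IsAH X) {x : ℝ → X}
    (hx : Continuous x) {C : Set X} (hC : IsCompact C) {a e1 : ℝ} (he1 : 0 < e1)
    (hL : Loops x C a e1) : ∃ e0 > 0, ∀ x0 : X, ∀ w ∈ sphere x0 a, ∀ w' ∈ sphere x0 a,
      dist w w' ≤ e0 → JoinedIn (sphere x0 a) w w' := by
  obtain ⟨e0, he0, hb⟩ := hL.bases hx hC he1
  refine ⟨e0, he0, fun x0 w hw w' hw' hd => ?_⟩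
  let W : Set (X × X × X) := {k | k ∈ (x '' Icc 0 1) ×ˢ C ×ˢ C ∧ dist k.1 k.2.1 = a ∧
    dist k.1 k.2.2 = a}
  have hW : IsCompact W := ((isCompact_Icc.image hx).prod (hC.prod hC)).inter_right
    ((isClosed_eq (by fun_prop) continuous_const).inter
      (isClosed_eq (by fun_prop) continuous_const))
  have : CompactSpace W := isCompact_iff_compactSpace.1 hW
  have : CompleteSpace (sphere x0 a) := isClosed_sphere.completeSpace_coe
  have hU : Unif (sphere x0 a) e0 := by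
    refine std_of_compact (K := W) (fun k => dist k.1.2.1 k.1.2.2) (by fun_prop)
      (fun k ε hε => ?_) (fun e he => ?_)
    · obtain ⟨δ, hδ, h⟩ := H.iso_near k.2.2.1 k.2.2.2 hε
      filter_upwards [ball_mem_nhds k hδ] with k' hk'
      simp only [mem_ball, Subtype.dist_eq, Prod.dist_eq, max_lt_iff] at hk'
      obtain ⟨w2, h1, h2, h3⟩ := h _ _ _ k'.2.2.1 k'.2.2.2 hk'.1 hk'.2.1 hk'.2.2
      rw [← h2]
      exact ⟨H.cl_sphere x0 k.2.2.1 k.2.2.2 h1 h3,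
        H.cl_sphere x0 k.2.2.1 h1 k.2.2.2 (by rwa [dist_comm])⟩
    · obtain ⟨k, hk, h1, h2, h3⟩ := hb e he
      exact ⟨⟨k, hk, h1, h2⟩, h3⟩
  exact (joinedIn_iff_joined hw hw').2 (hU.joined hd)

theorem IsAH.stage2 [CompleteSpace X] [SeparableSpace X] [PathConnectedSpace X] (H : IsAH X)
    {x : ℝ → X} (hx : Continuous x) {C : Set X} (hC : IsCompact C) {a e1 : ℝ} (he1 : 0 < e1)
    (ha : ∃ p q : X, dist p q = a) (hL : Loops x C a e1) :
    ∀ x0 : X, ∀ w ∈ sphere x0 a, ∀ w' ∈ sphere x0 a,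
      dist w w' ≤ e1 / 2 → JoinedIn (sphere x0 a) w w' := by
  obtain ⟨e0, he0, J0⟩ := H.stage1 hx hC he1 hL
  set η := min (e0 / 2) (e1 / 4) with hη
  have η0 : 0 < η := lt_min (by linarith) (by linarith)
  have η1 : η ≤ e0 / 2 := min_le_left _ _
  have η2 : η ≤ e1 / 4 := min_le_right _ _
  obtain ⟨ε, hε, hstd⟩ := H.std_pt ha η0
  obtain ⟨h, A, hh, hA, hm, h01, hfar⟩ := hL ε hε
  have ex : ∀ t, ∃ w ∈ sphere (x (h t)) a, dist (A t) w < η := fun t => by
    obtain ⟨w, h1, h2⟩ := hstd _ _ (hm t).2.2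
    exact ⟨w, by rw [mem_sphere, dist_comm, h1], h2⟩
  let E : ℝ → ℝ → Prop := fun t t' => ∀ w ∈ sphere (x (h t)) a, ∀ w' ∈ sphere (x (h t)) a,
    dist (A t) w < η → dist (A t') w' < η → JoinedIn (sphere (x (h t)) a) w w'
  have near : ∀ (y u : X), ∀ w ∈ sphere y a, ∀ w' ∈ sphere y a, dist u w < η → dist u w' < η →
      JoinedIn (sphere y a) w w' := fun y u w hw w' hw' k1 k2 =>
    J0 y w hw w' hw' (by linarith [dist_triangle_left w w' u])
  have Eiff : ∀ t t', ∀ w ∈ sphere (x (h t)) a, ∀ w' ∈ sphere (x (h t)) a,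
      dist (A t) w < η → dist (A t') w' < η → (E t t' ↔ JoinedIn (sphere (x (h t)) a) w w') := by
    intro t t' w hw w' hw' k1 k2
    exact ⟨fun hE => hE w hw w' hw' k1 k2, fun hj v hv v' hv' l1 l2 =>
      ((near _ _ v hv w hw l1 k1).trans hj).trans (near _ _ w' hw' v' hv' k2 l2)⟩
  have hE : E 0 1 := by
    refine climb h hh E (fun t _ w hw w' hw' k1 k2 => near _ _ w hw w' hw' k1 k2)
      (fun t _ s _ t' _ e1 _ E1 E2 w hw w' hw' k1 k2 => ?_) (fun t _ t' _ e => ?_) h01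
    · obtain ⟨m, hm1, hm2⟩ := ex s
      have := E2 m hm1 w' (e1 ▸ hw') hm2 k2
      rw [← e1] at this hm1
      exact (E1 w hw m hm1 k1 hm2).trans this
    · obtain ⟨w, hw, k1⟩ := ex t
      obtain ⟨w', hw', k2⟩ := ex t'
      rw [← e] at hw'
      set θ := min (η - dist (A t) w) (η - dist (A t') w') / 2 with hθ
      have θ0 : 0 < θ := half_pos (lt_min (by linarith) (by linarith))
      have θ1 : 2 * θ ≤ η - dist (A t) w := by
        linarith [min_le_left (η - dist (A t) w) (η - dist (A t') w')]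
      have θ2 : 2 * θ ≤ η - dist (A t') w' := by
        linarith [min_le_right (η - dist (A t) w) (η - dist (A t') w')]
      obtain ⟨δ1, d1, hg⟩ := H.effros (x (h t)) w w' θ0
      obtain ⟨r1, r1p, c1⟩ := Metric.continuous_iff.1 (hx.comp hh) t δ1 d1
      obtain ⟨r2, r2p, c2⟩ := Metric.continuous_iff.1 hA t θ θ0
      obtain ⟨r3, r3p, c3⟩ := Metric.continuous_iff.1 hA t' θ θ0
      refine ⟨min r1 (min r2 r3), lt_min r1p (lt_min r2p r3p), fun s _ s' _ _ l1 l2 => ?_⟩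
      simp only [lt_min_iff] at l1 l2
      obtain ⟨g, g1, g2, g3⟩ := hg _ (c1 s l1.1)
      have g1' : g (x (h t)) = x (h s) := g1
      have m : ∀ y ∈ sphere (x (h t)) a, g y ∈ sphere (x (h s)) a := fun y hy => by
        rw [mem_sphere, ← g1', g.dist_eq]; exact hy
      rw [Eiff t t' w hw w' hw' k1 k2, Eiff s s' (g w) (m w hw) (g w') (m w' hw')
        (by linarith [c2 s l1.2.1, dist_triangle4 (A s) (A t) w (g w), dist_comm w (g w)])
        (by linarith [c3 s' l2.2.2, dist_triangle4 (A s') (A t') w' (g w'), dist_comm w' (g w')]),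
        ← g1']
      refine ⟨fun hj => ?_, joinedIn_sphere_map g⟩
      simpa only [g.symm_apply_apply] using joinedIn_sphere_map g.symm hj
  obtain ⟨w0, hw0, k0⟩ := ex 0
  obtain ⟨w1, hw1, k1⟩ := ex 1
  rw [← h01] at hw1
  obtain ⟨γ, hγ, g0, g1, hγm⟩ := exists_path_in (hE w0 hw0 w1 hw1 k0 k1)
  intro x0 w hw w' hw' hd
  obtain ⟨t, ht, hte⟩ := intermediate_value_Icc (zero_le_one' ℝ)
    (f := fun t => dist w0 (γ t)) (by fun_prop) (show dist w w' ∈ _ from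
      ⟨by simp [g0], by
        simp only [g1]
        linarith [dist_triangle4 (A 0) w0 w1 (A 1), dist_comm w1 (A 1)]⟩)
  have j1 : JoinedIn (sphere (x (h 0)) a) (γ 0) (γ t) :=
    joinedIn_of_path hγ ⟨le_rfl, zero_le_one⟩ ht fun u _ => hγm u
  rw [g0] at j1
  obtain ⟨g, f1, f2, f3⟩ := H.three (a := x (h 0)) (b := w0) (c := γ t) (a' := x0) (b' := w)
    (c' := w') (by rw [dist_comm, dist_comm x0, mem_sphere.1 hw0, mem_sphere.1 hw])
    (by rw [dist_comm, dist_comm x0, mem_sphere.1 (hγm t), mem_sphere.1 hw']) hte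
  have := joinedIn_sphere_map g j1
  rwa [f1, f2, f3] at this

/-- Arbitrarily small spheres have three points. -/
def Three (X : Type*) [MetricSpace X] : Prop :=
  ∀ η > 0, ∃ ε0, 0 < ε0 ∧ ε0 < η ∧ ∃ (c : X) (p : Fin 3 → X), (∀ i, dist c (p i) = ε0) ∧
    Function.Injective p

theorem IsAH.ulc [CompleteSpace X] [SeparableSpace X] [PathConnectedSpace X] (H : IsAH X)
    (h3 : Three X) {a1 a2 : ℝ} (ha1 : 0 < a1) {p q : X} (ha2 : a2 < dist p q) :
    ∃ e > 0, ∀ a ∈ Icc a1 a2, ∀ x0 : X, ∀ w ∈ sphere x0 a, ∀ w' ∈ sphere x0 a,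
      dist w w' ≤ e → JoinedIn (sphere x0 a) w w' := by
  obtain ⟨ε0, e0, e1, c, P, hP, hinj⟩ := h3 (min a1 (dist p q - a2)) (lt_min ha1 (by linarith))
  rw [lt_min_iff] at e1
  obtain ⟨e, he, lam, hl⟩ := H.legs c P hP hinj
  refine ⟨e / 2, half_pos he, fun a ha => ?_⟩
  obtain ⟨qR, hq⟩ := H.realized' c p q dist_nonneg le_rfl
  obtain ⟨x, hx, x0, x1, σ0, hσ⟩ := H.xpath c qR (a := a) (by linarith [ha.1])
    (by linarith [ha.2])
  obtain ⟨y, hy⟩ := realized p q (s := a) (by linarith [ha.1]) (by linarith [ha.2])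
  exact H.stage2 hx (isCompact_iUnion fun i => isCompact_Icc.image (hl.cont i)) he ⟨p, y, hy⟩
    (hl.loops hx x0 (by linarith [ha.1]) (by linarith [ha.2]) hσ)

theorem transfer {S S' : Set X} {e : ℝ}
    (hS : ∀ w ∈ S', ∀ w' ∈ S', dist w w' ≤ e → JoinedIn S' w w')
    (hnear : ∀ y ∈ S, ∃ w ∈ S', dist y w < e / 2) {u u' v v' : X} (hj : JoinedIn S u u')
    (hv : v ∈ S') (hv' : v' ∈ S') (h1 : dist u v < e / 2) (h2 : dist u' v' < e / 2) :
    JoinedIn S' v v' := by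
  obtain ⟨γ, hγ, g0, g1, hm⟩ := exists_path_in hj
  let T : Set X := ⋃ w ∈ {w | w ∈ S' ∧ JoinedIn S' v w}, ball w (e / 2)
  let T' : Set X := ⋃ w ∈ {w | w ∈ S' ∧ ¬ JoinedIn S' v w}, ball w (e / 2)
  have hT : IsOpen T := isOpen_biUnion fun _ _ => isOpen_ball
  have hT' : IsOpen T' := isOpen_biUnion fun _ _ => isOpen_ball
  have hdis : Disjoint T T' := by
    rw [Set.disjoint_left]
    intro y hy hy'
    obtain ⟨w, hw, k⟩ := mem_iUnion₂.1 hy
    obtain ⟨w', hw', k'⟩ := mem_iUnion₂.1 hy'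
    rw [mem_ball] at k k'
    exact hw'.2 (hw.2.trans (hS w hw.1 w' hw'.1 (by linarith [dist_triangle_left w w' y])))
  have hsub : range γ ⊆ T := (isPreconnected_range hγ).subset_left_of_subset_union hT hT' hdis
    (by
      rintro _ ⟨t, rfl⟩
      obtain ⟨w, hw, k⟩ := hnear _ (hm t)
      by_cases hc : JoinedIn S' v w
      · exact Or.inl (mem_iUnion₂.2 ⟨w, ⟨hw, hc⟩, k⟩)
      · exact Or.inr (mem_iUnion₂.2 ⟨w, ⟨hw, hc⟩, k⟩))
    ⟨u, ⟨0, g0⟩, mem_iUnion₂.2 ⟨v, ⟨hv, JoinedIn.refl hv⟩, h1⟩⟩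
  obtain ⟨w, hw, k⟩ := mem_iUnion₂.1 (hsub ⟨1, g1⟩)
  rw [mem_ball] at k
  exact hw.2.trans (hS w hw.1 v' hv' (by linarith [dist_triangle_left w v' u']))

theorem IsAH.level_joined [CompleteSpace X] [SeparableSpace X] [PathConnectedSpace X]
    (H : IsAH X) (h3 : Three X) {a1 a2 : ℝ} (ha1 : 0 < a1) {p q : X} (ha2 : a2 < dist p q)
    (c : X) {B : ℝ → X} (hB : Continuous B) (hl : ∀ t ∈ Icc (0:ℝ) 1, dist (B t) c ∈ Icc a1 a2)
    (h01 : dist (B 0) c = dist (B 1) c) : JoinedIn (sphere c (dist (B 0) c)) (B 0) (B 1) := by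
  obtain ⟨e, he, hJ⟩ := H.ulc h3 ha1 ha2
  obtain ⟨δ0, d0, hU⟩ := H.unif p q _ (half_pos he)
  have one : ∀ t ∈ Icc (0:ℝ) 1, ∀ t' s, s ∈ Icc (0:ℝ) 1 → ∀ s',
      dist (B t) c = dist (B t') c → dist (B s) (B t) < min (e / 2) δ0 →
      dist (B s') (B t') < min (e / 2) δ0 → JoinedIn (sphere c (dist (B s) c)) (B s) (B s') →
      JoinedIn (sphere c (dist (B t) c)) (B t) (B t') := by
    intro t ht t' s hs s' e1 k1 k2 hj
    rw [lt_min_iff] at k1 k2
    refine transfer (hJ _ (hl t ht) c) (fun y hy => ?_) hj (mem_sphere.2 rfl)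
      (mem_sphere.2 e1.symm) k1.1 k2.1
    obtain ⟨w, w1, w2⟩ := hU (dist (B s) c) ⟨dist_nonneg, by linarith [(hl s hs).2]⟩
      (dist (B t) c) ⟨dist_nonneg, by linarith [(hl t ht).2]⟩
      ((abs_dist_sub_le _ _ _).trans_lt k1.2) c y (by rw [dist_comm]; exact hy)
    exact ⟨w, by rw [mem_sphere, dist_comm, w1], w2⟩
  refine climb (fun t => dist (B t) c) (by fun_prop)
    (fun t t' => JoinedIn (sphere c (dist (B t) c)) (B t) (B t'))
    (fun t _ => JoinedIn.refl (mem_sphere.2 rfl))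
    (fun t _ s _ t' _ e1 _ E1 E2 => E1.trans (e1 ▸ E2)) (fun t ht t' _ e1 => ?_) h01
  have hm : 0 < min (e / 2) δ0 := lt_min (half_pos he) d0
  obtain ⟨r2, r2p, c2⟩ := Metric.continuous_iff.1 hB t _ hm
  obtain ⟨r3, r3p, c3⟩ := Metric.continuous_iff.1 hB t' _ hm
  refine ⟨min r2 r3, lt_min r2p r3p, fun s hs s' _ e2 l1 l2 => ?_⟩
  rw [lt_min_iff] at l1 l2
  exact ⟨one t ht t' s hs s' e1 (c2 s l1.1) (c3 s' l2.2),
    one s hs s' t ht t' e2 (by rw [dist_comm]; exact c2 s l1.1)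
      (by rw [dist_comm]; exact c3 s' l2.2)⟩

/-- No ball is contained in a compact set. -/
def NoCpt (X : Type*) [MetricSpace X] : Prop :=
  ∀ (c : X), ∀ ε > 0, ∀ K : Set X, IsCompact K → ∃ y ∈ ball c ε, y ∉ K

theorem IsAH.sphere_joined [CompleteSpace X] [SeparableSpace X] [PathConnectedSpace X]
    (H : IsAH X) (h3 : Three X) (hN : NoCpt X) {a : ℝ} (ha : 0 < a) {p q : X}
    (haR : a < dist p q) (c : X) {z z' : X} (hz : z ∈ sphere c a) (hz' : z' ∈ sphere c a) :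
    JoinedIn (sphere c a) z z' := by
  obtain ⟨e, he, hJ⟩ := H.ulc h3 ha haR
  have hreal : ∃ p q : X, dist p q = a := ⟨z, c, hz⟩
  obtain ⟨δ0, d0, h0⟩ := H.std_pt hreal (half_pos he)
  set η := min (e / 2) (min ((dist p q - a) / 4) (a / 4)) with hη
  have η0 : 0 < η := lt_min (by linarith) (lt_min (by linarith) (by linarith))
  have η1 : η ≤ e / 2 := min_le_left _ _
  have η2 : η ≤ (dist p q - a) / 4 := (min_le_right _ _).trans (min_le_left _ _)
  have η3 : η ≤ a / 4 := (min_le_right _ _).trans (min_le_right _ _)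
  obtain ⟨δ1, d1, h1⟩ := H.std_pt hreal η0
  obtain ⟨β, hβ, b0, b1, bm⟩ := exists_path_in (H.ball_path c z)
  obtain ⟨β', hβ', b0', b1', bm'⟩ := exists_path_in (H.ball_path c z')
  obtain ⟨c', hc', hK⟩ := hN c (min δ0 (min δ1 η)) (lt_min d0 (lt_min d1 η0))
    (β '' Icc 0 1 ∪ β' '' Icc 0 1) ((isCompact_Icc.image hβ).union (isCompact_Icc.image hβ'))
  simp only [mem_ball, lt_min_iff] at hc'
  let Ω : Set X := {y | 0 < dist y c' ∧ dist y c' ≤ a + 2 * η}
  have half : ∀ (y : X) (γ : ℝ → X), y ∈ sphere c a → Continuous γ → γ 0 = c → γ 1 = y →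
      (∀ t, γ t ∈ closedBall c (dist c y)) → c' ∉ γ '' Icc 0 1 →
      ∃ u ∈ sphere c' a, dist u y < η ∧ JoinedIn Ω c u := by
    intro y γ hy hγ g0 g1 gm hn
    rw [mem_sphere] at hy
    have k0 : |dist c' y - a| ≤ dist c' c := by
      rw [← hy, dist_comm y c]; exact abs_dist_sub_le _ _ _
    obtain ⟨u, u1, u2⟩ := h1 c' y (k0.trans_lt hc'.2.1)
    refine ⟨u, by rw [mem_sphere, dist_comm, u1], by rwa [dist_comm], ?_⟩
    have j1 : JoinedIn Ω (γ 0) (γ 1) := joinedIn_of_path hγ (a := 0) (b := 1)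
      ⟨le_rfl, zero_le_one⟩ ⟨zero_le_one, le_rfl⟩ fun t ht =>
        ⟨dist_pos.2 fun h => hn ⟨t, ht, h⟩, by
          have := gm t
          rw [mem_closedBall, dist_comm c y, hy] at this
          linarith [dist_triangle (γ t) c c', dist_comm c c']⟩
    rw [g0, g1] at j1
    refine j1.trans ((H.ball_path y u).mono fun v hv => ?_)
    rw [mem_closedBall] at hv
    rw [abs_le] at k0
    exact ⟨by linarith [dist_triangle c' v y, dist_comm c' v],
      by linarith [dist_triangle v y c', dist_comm c' y]⟩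
  obtain ⟨u, hu, du, ju⟩ := half z β hz hβ b0 b1 bm fun h => hK (Or.inl h)
  obtain ⟨u', hu', du', ju'⟩ := half z' β' hz' hβ' b0' b1' bm' fun h => hK (Or.inr h)
  obtain ⟨B, hB, B0, B1, Bm⟩ := exists_path_in (ju.symm.trans ju')
  obtain ⟨t0, -, hmin⟩ := isCompact_Icc.exists_isMinOn (nonempty_Icc.2 (zero_le_one' ℝ))
    (f := fun t => dist (B t) c') (by fun_prop)
  have hj := H.level_joined h3 (Bm t0).1 (a2 := a + 2 * η) (p := p) (q := q) (by linarith) c' hB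
    (fun t ht => ⟨hmin ht, (Bm t).2⟩)
    (by rw [B0, B1, mem_sphere.1 hu, mem_sphere.1 hu'])
  rw [B0, B1, mem_sphere.1 hu] at hj
  refine transfer (hJ a ⟨le_rfl, le_rfl⟩ c) (fun y hy => ?_) hj hz hz' (by linarith)
    (by linarith)
  rw [mem_sphere] at hy
  obtain ⟨w, w1, w2⟩ := h0 c y (by
    rw [← hy, dist_comm y c']
    exact (abs_dist_sub_le _ _ _).trans_lt (by rw [dist_comm]; exact hc'.1))
  exact ⟨w, by rw [mem_sphere, dist_comm, w1], w2⟩

theorem IsAH.sphere_pathConnected [CompleteSpace X] [SeparableSpace X] [PathConnectedSpace X]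
    (H : IsAH X) (h3 : Three X) (hN : NoCpt X) {a : ℝ} (ha : 0 < a) {p q : X}
    (haR : a < dist p q) (c : X) : PathConnectedSpace (sphere c a) := by
  obtain ⟨z, hz⟩ := H.realized' c p q ha.le haR.le
  have hz' : z ∈ sphere c a := by rw [mem_sphere, dist_comm, hz]
  exact isPathConnected_iff_pathConnectedSpace.1
    ⟨z, hz', fun _ hy => H.sphere_joined h3 hN ha haR c hz' hy⟩

end Pool.Agent.Lib.AH
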