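import Pool.Agent.Lib.AH.Basic

set_option autoImplicit false

namespace Pool.Agent.Lib.AH

open Set Filter Topology Metric TopologicalSpace

variable {X : Type*} [MetricSpace X]

/-- Every pair at distance `e` can be changed into a pair at distance `e'` by moving the second
point less than `ε`. -/
def Cl (X : Type*) [MetricSpace X] (ε e e' : ℝ) : Prop :=
  ∀ z w : X, dist z w = e → ∃ w', dist z w' = e' ∧ dist w w' < ε

theorem Cl.trans {ε ε' e e' e'' : ℝ} (h : Cl X ε e e') (h' : Cl X ε' e' e'') :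
    Cl X (ε + ε') e e'' := by
  intro z w hw
  obtain ⟨w', h1, h2⟩ := h z w hw
  obtain ⟨w'', h3, h4⟩ := h' z w' h1
  exact ⟨w'', h3, by linarith [dist_triangle w w' w'']⟩

theorem IsAH.cl (H : IsAH X) {ε : ℝ} {z w w' : X} (h : dist w w' < ε) :
    Cl X ε (dist z w) (dist z w') := by
  intro a b hab
  obtain ⟨g, h1, h2⟩ := H.two hab.symm
  exact ⟨g w', by rw [← h1, g.dist_eq], by rw [← h2, g.dist_eq]; exact h⟩

/-- The distances up to `e0` carry the usual uniform structure. -/
def Unif (X : Type*) [MetricSpace X] (e0 : ℝ) : Prop :=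
  ∀ ε > 0, ∃ δ > 0, ∀ e ∈ Icc 0 e0, ∀ e' ∈ Icc 0 e0, |e - e'| < δ → Cl X ε e e'

theorem std_of_compact {K : Type*} [TopologicalSpace K] [CompactSpace K] (b : K → ℝ)
    (hb : Continuous b)
    (hloc : ∀ k : K, ∀ ε > 0, ∀ᶠ k' in 𝓝 k, Cl X ε (b k) (b k') ∧ Cl X ε (b k') (b k))
    {e0 : ℝ} (hsur : ∀ e ∈ Icc 0 e0, ∃ k, b k = e) : Unif X e0 := by
  intro ε hε
  set O : Set (K × K) := interior {p | Cl X ε (b p.1) (b p.2)} with hO
  have hdiag : ∀ p : K × K, b p.1 = b p.2 → p ∈ O := by
    rintro ⟨k, k'⟩ hk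
    simp only at hk
    rw [hO, mem_interior_iff_mem_nhds, nhds_prod_eq]
    filter_upwards [(hloc k _ (half_pos hε)).prod_mk (hloc k' _ (half_pos hε))] with p hp
    have := hp.1.2.trans (hk ▸ hp.2.1)
    rwa [add_halves] at this
  have hk : IsCompact Oᶜ := isOpen_interior.isClosed_compl.isCompact
  have hex : ∃ δ > 0, ∀ p ∈ Oᶜ, δ ≤ |b p.1 - b p.2| := by
    rcases (Oᶜ).eq_empty_or_nonempty with h | h
    · exact ⟨1, one_pos, by simp [h]⟩
    · obtain ⟨p, hp, hmin⟩ := hk.exists_isMinOn h (f := fun p => |b p.1 - b p.2|) (by fun_prop)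
      refine ⟨_, abs_pos.2 (sub_ne_zero.2 fun h => hp (hdiag p h)), fun q hq => hmin hq⟩
  obtain ⟨δ, hδ, hd⟩ := hex
  refine ⟨δ, hδ, fun e he e' he' hee => ?_⟩
  obtain ⟨k, rfl⟩ := hsur e he
  obtain ⟨k', rfl⟩ := hsur e' he'
  have : (k, k') ∈ O := by
    by_contra h
    exact absurd (hd _ h) (not_le.2 hee)
  exact interior_subset this

/-- All descendants at some finite depth satisfy `P`. -/
inductive Reach {S : Type*} (L R : S → S) (P : S → Prop) : S → Prop
  | base (s : S) : P s → Reach L R P s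
  | step (s : S) : Reach L R P (L s) → Reach L R P (R s) → Reach L R P s

/-- Step functions of a binary subdivision scheme. -/
noncomputable def stepF {S : Type*} (src : S → X) (L R : S → S) : ℕ → S → ℝ → X
  | 0, s, _ => src s
  | m + 1, s, t => if t ≤ 1 / 2 then stepF src L R m (L s) (2 * t)
      else stepF src L R m (R s) (2 * t - 1)

theorem joined_of_scheme [CompleteSpace X] {S : Type*} (src tgt : S → X) (L R : S → S)
    (sz : S → ℝ) (h1 : ∀ s, src (L s) = src s) (h2 : ∀ s, tgt (L s) = src (R s))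
    (h3 : ∀ s, tgt (R s) = tgt s) (h4 : ∀ s, sz (L s) ≤ sz s)
    (h5 : ∀ s, dist (src s) (src (R s)) + sz (R s) ≤ sz s)
    (h6 : ∀ s, dist (src s) (tgt s) ≤ sz s)
    (h7 : ∀ η > 0, ∀ s, Reach L R (fun s => sz s ≤ η) s) (s0 : S) :
    Joined (src s0) (tgt s0) := by
  have hR : ∀ s, sz (R s) ≤ sz s := fun s => by linarith [h5 s, dist_nonneg (x := src s) (y := src (R s))]
  have hA : ∀ m s t, dist (src s) (stepF src L R m s t) ≤ sz s := by
    intro m
    induction m with
    | zero => intro s t; simp only [stepF, dist_self]; exact dist_nonneg.trans (h6 s)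
    | succ m ih =>
      intro s t
      simp only [stepF]
      split_ifs
      · rw [← h1 s]; exact (ih _ _).trans (h4 s)
      · linarith [ih (R s) (2 * t - 1), h5 s,
          dist_triangle (src s) (src (R s)) (stepF src L R m (R s) (2 * t - 1))]
  have hB : ∀ η s, Reach L R (fun s => sz s ≤ η) s → ∃ M, ∀ m ≥ M, ∀ m' ≥ M, ∀ t,
      dist (stepF src L R m s t) (stepF src L R m' s t) ≤ 2 * η := by
    intro η s hs
    induction hs with
    | base s hs =>
      exact ⟨0, fun m _ m' _ t => by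
        linarith [hA m s t, hA m' s t,
          dist_triangle_left (stepF src L R m s t) (stepF src L R m' s t) (src s)]⟩
    | step s _ _ ih1 ih2 =>
      obtain ⟨M1, k1⟩ := ih1
      obtain ⟨M2, k2⟩ := ih2
      refine ⟨max M1 M2 + 1, fun m hm m' hm' t => ?_⟩
      obtain ⟨m, rfl⟩ : ∃ n, m = n + 1 := ⟨m - 1, by omega⟩
      obtain ⟨m', rfl⟩ : ∃ n, m' = n + 1 := ⟨m' - 1, by omega⟩
      simp only [stepF]
      split_ifs
      · exact k1 m (by omega) m' (by omega) _
      · exact k2 m (by omega) m' (by omega) _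
  have hC : ∀ s t, ∃ y, Tendsto (fun m => stepF src L R m s t) atTop (𝓝 y) := by
    intro s t
    refine cauchySeq_tendsto_of_complete (Metric.cauchySeq_iff.2 fun ε hε => ?_)
    obtain ⟨M, hM⟩ := hB (ε / 3) s (h7 _ (by linarith) s)
    exact ⟨M, fun m hm n hn => by linarith [hM m hm n hn t]⟩
  choose G hG using hC
  have hrec : ∀ s t, G s t = if t ≤ 1 / 2 then G (L s) (2 * t) else G (R s) (2 * t - 1) := by
    intro s t
    have := (hG s t).comp (tendsto_add_atTop_nat 1)
    split_ifs with h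
    · refine tendsto_nhds_unique this ((hG (L s) (2 * t)).congr fun m => ?_)
      simp only [Function.comp, stepF, if_pos h]
    · refine tendsto_nhds_unique this ((hG (R s) (2 * t - 1)).congr fun m => ?_)
      simp only [Function.comp, stepF, if_neg h]
  have hGA : ∀ s t, dist (src s) (G s t) ≤ sz s := fun s t =>
    le_of_tendsto' (tendsto_const_nhds.dist (hG s t)) fun m => hA m s t
  have hG0 : ∀ s, G s 0 = src s := by
    intro s
    have : ∀ m s, stepF src L R m s 0 = src s := by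
      intro m
      induction m with
      | zero => intro s; rfl
      | succ m ih => intro s; simp only [stepF]; norm_num [ih, h1]
    exact tendsto_nhds_unique (hG s 0) (tendsto_const_nhds.congr fun m => (this m s).symm)
  have hG1 : ∀ s, G s 1 = tgt s := by
    intro s
    have : ∀ η s, Reach L R (fun s => sz s ≤ η) s → dist (G s 1) (tgt s) ≤ 2 * η := by
      intro η s hs
      induction hs with
      | base s hs => linarith [hGA s 1, h6 s, dist_triangle_left (G s 1) (tgt s) (src s)]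
      | step s _ _ _ ih2 =>
        rw [hrec s 1, if_neg (by norm_num), ← h3 s]
        norm_num
        exact ih2
    refine dist_le_zero.1 (le_of_forall_pos_le_add fun ε hε => ?_)
    linarith [this (ε / 2) s (h7 _ (by linarith) s)]
  have hosc : ∀ η s, Reach L R (fun s => sz s ≤ η) s → ∀ t, ∀ᶠ t' in 𝓝 t,
      dist (G s t') (G s t) ≤ 2 * η := by
    intro η s hs
    induction hs with
    | base s hs =>
      exact fun t => Eventually.of_forall fun t' => by
        linarith [hGA s t, hGA s t', dist_triangle_left (G s t') (G s t) (src s)]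
    | step s _ _ ih1 ih2 =>
      intro t
      have c1 : Tendsto (fun x : ℝ => 2 * x) (𝓝 t) (𝓝 (2 * t)) :=
        (by fun_prop : Continuous fun x : ℝ => 2 * x).tendsto t
      have c2 : Tendsto (fun x : ℝ => 2 * x - 1) (𝓝 t) (𝓝 (2 * t - 1)) :=
        (by fun_prop : Continuous fun x : ℝ => 2 * x - 1).tendsto t
      rcases lt_trichotomy t (1 / 2) with h | h | h
      · filter_upwards [c1.eventually (ih1 _), eventually_lt_nhds h] with t' k1 k2
        rw [hrec s t', hrec s t, if_pos h.le, if_pos k2.le]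
        exact k1
      · filter_upwards [c1.eventually (ih1 _), c2.eventually (ih2 _)] with t' k1 k2
        rw [hrec s t', hrec s t, if_pos h.le]
        split_ifs
        · exact k1
        · have e1 : G (L s) (2 * t) = G (R s) (2 * t - 1) := by
            rw [h]; norm_num [hG0, hG1, h2]
          rw [e1]; exact k2
      · filter_upwards [c2.eventually (ih2 _), eventually_gt_nhds h] with t' k1 k2
        rw [hrec s t', hrec s t, if_neg (not_le.2 h), if_neg (not_le.2 k2)]
        exact k1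
  have hcont : Continuous (G s0) := by
    refine continuous_iff_continuousAt.2 fun t => Metric.continuousAt_iff'.2 fun ε hε => ?_
    filter_upwards [hosc (ε / 3) s0 (h7 _ (by linarith) s0) t] with t' h
    linarith
  exact ⟨⟨⟨fun t => G s0 t, hcont.comp continuous_subtype_val⟩, hG0 s0, hG1 s0⟩⟩

theorem Unif.joined [CompleteSpace X] {e0 : ℝ} (hU : Unif X e0) {p q : X}
    (hpq : dist p q ≤ e0) : Joined p q := by
  rcases eq_or_lt_of_le (dist_nonneg.trans hpq) with h0 | h0
  · have : p = q := dist_le_zero.1 (h0 ▸ hpq)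
    rw [this]
  have epos : ∀ j : ℕ, 0 < e0 / 2 ^ j := fun j => by positivity
  have ehalf : ∀ j : ℕ, e0 / 2 ^ j = 2 * (e0 / 2 ^ (j + 1)) := fun j => by
    rw [pow_succ]; field_simp
  have ele : ∀ j : ℕ, e0 / 2 ^ j ≤ e0 := fun j =>
    div_le_self h0.le (one_le_pow₀ (by norm_num))
  choose δ hδ hcl using fun j : ℕ => hU _ (epos (j + 1))
  let S := {s : ℕ × X × X // dist s.2.1 s.2.2 ≤ e0 / 2 ^ s.1}
  have hm : ∀ s : S, ∃ m : X, dist s.1.2.1 m = max (dist s.1.2.1 s.1.2.2 - δ s.1.1 / 2) 0 ∧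
      dist s.1.2.2 m < e0 / 2 ^ (s.1.1 + 1) := by
    rintro ⟨⟨j, a, b⟩, hs⟩
    simp only at hs ⊢
    have := hδ j
    refine hcl j (dist a b) ⟨dist_nonneg, hs.trans (ele j)⟩ _ ⟨le_max_right _ _,
      max_le (by linarith [ele j]) h0.le⟩ ?_ a b rfl
    have h1 := dist_nonneg (x := a) (y := b)
    rw [abs_lt]
    rcases le_total (dist a b - δ j / 2) 0 with h | h
    · rw [max_eq_right h]; constructor <;> linarith
    · rw [max_eq_left h]; constructor <;> linarith
  choose m hm1 hm2 using hm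
  have hm3 : ∀ s : S, dist s.1.2.1 (m s) ≤ dist s.1.2.1 s.1.2.2 := fun s => by
    rw [hm1]; exact max_le (by linarith [hδ s.1.1]) dist_nonneg
  let L : S → S := fun s => if h : dist s.1.2.1 (m s) ≤ e0 / 2 ^ (s.1.1 + 1) then
    ⟨(s.1.1 + 1, s.1.2.1, m s), h⟩ else ⟨(s.1.1, s.1.2.1, m s), (hm3 s).trans s.2⟩
  let R : S → S := fun s => ⟨(s.1.1 + 1, m s, s.1.2.2), by rw [dist_comm]; exact (hm2 s).le⟩
  have hLs : ∀ s, (L s).1.2.1 = s.1.2.1 ∧ (L s).1.2.2 = m s ∧
      (((L s).1.1 = s.1.1 + 1) ∨ ((L s).1.1 = s.1.1 ∧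
        e0 / 2 ^ (s.1.1 + 1) < dist s.1.2.1 (m s))) := by
    intro s
    simp only [L]
    split_ifs with h
    · exact ⟨rfl, rfl, Or.inl rfl⟩
    · exact ⟨rfl, rfl, Or.inr ⟨rfl, not_le.1 h⟩⟩
  refine joined_of_scheme (S := S) (fun s => s.1.2.1) (fun s => s.1.2.2) L R
    (fun s => 2 * (e0 / 2 ^ s.1.1)) (fun s => (hLs s).1) (fun s => (hLs s).2.1) (fun s => rfl)
    (fun s => ?_) (fun s => ?_) (fun s => ?_) (fun η hη => ?_)
    ⟨(0, p, q), by simpa using hpq⟩
  · rcases (hLs s).2.2 with h | h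
    · rw [h]; linarith [ehalf s.1.1, epos (s.1.1 + 1)]
    · rw [h.1]
  · have := (hm3 s).trans s.2
    simp only [R]
    linarith [ehalf s.1.1]
  · linarith [s.2, epos s.1.1]
  · obtain ⟨J, hJ⟩ : ∃ J : ℕ, 2 * (e0 / 2 ^ J) ≤ η := by
      obtain ⟨J, hJ⟩ := pow_unbounded_of_one_lt (2 * e0 / η) (by norm_num : (1:ℝ) < 2)
      refine ⟨J, ?_⟩
      rw [div_lt_iff₀ hη] at hJ
      rw [← mul_div_assoc, div_le_iff₀ (by positivity)]
      linarith
    have key : ∀ k : ℕ, ∀ s : S, J ≤ s.1.1 + k →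
        Reach L R (fun s => 2 * (e0 / 2 ^ s.1.1) ≤ η) s := by
      intro k
      induction k with
      | zero =>
        intro s hs
        refine Reach.base s (le_trans ?_ hJ)
        have : (2:ℝ) ^ J ≤ 2 ^ s.1.1 := pow_le_pow_right₀ (by norm_num) (by simpa using hs)
        gcongr
      | succ k ih =>
        have inner : ∀ (j n : ℕ) (s : S), s.1.1 = j → J ≤ j + (k + 1) →
            dist s.1.2.1 s.1.2.2 ≤ n * (δ j / 2) →
            Reach L R (fun s => 2 * (e0 / 2 ^ s.1.1) ≤ η) s := by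
          intro j n
          induction n with
          | zero =>
            intro s hj hJ' hd
            refine Reach.step s ?_ (ih _ (by simp only [R]; omega))
            rcases (hLs s).2.2 with h | h
            · exact ih _ (by omega)
            · exfalso
              have := hm3 s
              simp only [Nat.cast_zero, zero_mul] at hd
              linarith [h.2, epos (s.1.1 + 1)]
          | succ n ihn =>
            intro s hj hJ' hd
            refine Reach.step s ?_ (ih _ (by simp only [R]; omega))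
            rcases (hLs s).2.2 with h | h
            · exact ih _ (by omega)
            · refine ihn _ (h.1.trans hj) hJ' ?_
              rw [(hLs s).1, (hLs s).2.1, hm1, hj]
              push_cast at hd
              have := hδ j
              exact max_le (by linarith) (by positivity)
        intro s hs
        obtain ⟨n, hn⟩ := exists_nat_ge (dist s.1.2.1 s.1.2.2 / (δ s.1.1 / 2))
        rw [div_le_iff₀ (half_pos (hδ _))] at hn
        exact inner _ n s rfl hs hn
    exact fun s => key J s (by omega)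

theorem exists_path [PathConnectedSpace X] (p q : X) :
    ∃ γ : ℝ → X, Continuous γ ∧ γ 0 = p ∧ γ 1 = q := by
  obtain ⟨γ⟩ := PathConnectedSpace.joined p q
  exact ⟨γ.extend, γ.continuous_extend, γ.extend_zero, γ.extend_one⟩

theorem exists_path_in {T : Type*} [TopologicalSpace T] {F : Set T} {p q : T}
    (h : JoinedIn F p q) :
    ∃ γ : ℝ → T, Continuous γ ∧ γ 0 = p ∧ γ 1 = q ∧ ∀ t, γ t ∈ F := by
  obtain ⟨γ, hγ⟩ := h
  refine ⟨γ.extend, γ.continuous_extend, γ.extend_zero, γ.extend_one, fun t => ?_⟩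
  have : γ.extend t ∈ range γ := γ.extend_range ▸ mem_range_self t
  obtain ⟨s, hs⟩ := this
  rw [← hs]; exact hγ s

theorem joinedIn_of_path {T : Type*} [TopologicalSpace T] {F : Set T} {γ : ℝ → T}
    (hγ : Continuous γ) {a b s t : ℝ} (hs : s ∈ Icc a b) (ht : t ∈ Icc a b)
    (hF : ∀ u ∈ Icc a b, γ u ∈ F) : JoinedIn F (γ s) (γ t) := by
  have h := ((convex_Icc a b).isPathConnected ⟨s, hs⟩).image hγ
  exact (h.joinedIn _ ⟨s, hs, rfl⟩ _ ⟨t, ht, rfl⟩).mono (by
    rintro _ ⟨u, hu, rfl⟩; exact hF u hu)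

theorem realized [PreconnectedSpace X] (p q : X) {s : ℝ} (h0 : 0 ≤ s) (h1 : s ≤ dist p q) :
    ∃ w, dist p w = s :=
  intermediate_value_univ p q (f := fun w => dist p w) (by fun_prop) ⟨by simpa using h0, h1⟩

theorem IsAH.realized' [PreconnectedSpace X] (H : IsAH X) (c p q : X) {s : ℝ} (h0 : 0 ≤ s)
    (h1 : s ≤ dist p q) : ∃ w, dist c w = s := by
  obtain ⟨w, hw⟩ := realized p q h0 h1
  obtain ⟨g, hg⟩ := H.one p c
  exact ⟨g w, by rw [← hg, g.dist_eq, hw]⟩

theorem IsAH.unif [PathConnectedSpace X] (H : IsAH X) (p q : X) : Unif X (dist p q) := by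
  obtain ⟨γ, hγ, h0, h1⟩ := exists_path p q
  refine std_of_compact (K := Icc (0:ℝ) 1) (fun t => dist p (γ t)) (by fun_prop)
    (fun k ε hε => ?_) (fun e he => ?_)
  · have : ContinuousAt (fun t : Icc (0:ℝ) 1 => γ t) k := by fun_prop
    filter_upwards [Metric.continuousAt_iff'.1 this ε hε] with k' hk'
    exact ⟨H.cl (by rwa [dist_comm]), H.cl hk'⟩
  · obtain ⟨t, ht, hte⟩ := intermediate_value_Icc (zero_le_one' ℝ)
      (f := fun t => dist p (γ t)) (by fun_prop) (show e ∈ _ by simpa [h0, h1] using he)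
    exact ⟨⟨t, ht⟩, hte⟩

theorem IsAH.std_pt [PathConnectedSpace X] (H : IsAH X) {a : ℝ} (ha : ∃ p q : X, dist p q = a)
    {ε : ℝ} (hε : 0 < ε) :
    ∃ δ > 0, ∀ p q : X, |dist p q - a| < δ → ∃ w, dist p w = a ∧ dist q w < ε := by
  obtain ⟨p0, q0, rfl⟩ := ha
  by_cases h : ∃ p1 q1 : X, dist p0 q0 < dist p1 q1
  · obtain ⟨p1, q1, h⟩ := h
    obtain ⟨δ, hδ, hc⟩ := H.unif p1 q1 ε hε
    refine ⟨min δ (dist p1 q1 - dist p0 q0), lt_min hδ (by linarith), fun p q hpq => ?_⟩
    rw [lt_min_iff] at hpq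
    exact hc _ ⟨dist_nonneg, by linarith [(abs_lt.1 hpq.2).2]⟩ _ ⟨dist_nonneg, h.le⟩ hpq.1 p q rfl
  · push Not at h
    obtain ⟨δ, hδ, hc⟩ := H.unif p0 q0 ε hε
    exact ⟨δ, hδ, fun p q hpq => hc _ ⟨dist_nonneg, h p q⟩ _ ⟨dist_nonneg, le_rfl⟩ hpq p q rfl⟩

theorem first_hit {f : ℝ → ℝ} (hf : Continuous f) {a : ℝ} (h0 : f 0 ≤ a) (h1 : a ≤ f 1) :
    ∃ τ ∈ Icc (0:ℝ) 1, f τ = a ∧ ∀ t, 0 ≤ t → t < τ → f t < a := by
  have k1 : IsCompact {t ∈ Icc (0:ℝ) 1 | f t = a} :=
    isCompact_Icc.inter_right (isClosed_eq hf continuous_const)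
  obtain ⟨τ, ⟨hτ, hτa⟩, hm⟩ := k1.exists_isLeast (by
    obtain ⟨t, ht, htb⟩ := intermediate_value_Icc (zero_le_one' ℝ) hf.continuousOn ⟨h0, h1⟩
    exact ⟨t, ht, htb⟩)
  refine ⟨τ, hτ, hτa, fun t ht0 ht => ?_⟩
  by_contra h; push Not at h
  obtain ⟨s, hs, hsa⟩ := intermediate_value_Icc ht0 hf.continuousOn ⟨h0, h⟩
  have : τ ≤ s := hm ⟨⟨hs.1, by linarith [hs.2, hτ.2]⟩, hsa⟩
  linarith [hs.2]

theorem last_hit {f : ℝ → ℝ} (hf : Continuous f) {a : ℝ} (h0 : f 0 ≤ a) (h1 : a ≤ f 1) :
    ∃ τ ∈ Icc (0:ℝ) 1, f τ = a ∧ ∀ t, τ < t → t ≤ 1 → a < f t := by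
  obtain ⟨τ, hτ, h2, h3⟩ := first_hit (f := fun t => - f (1 - t)) (by fun_prop) (a := -a)
    (by simpa using h1) (by simpa using h0)
  refine ⟨1 - τ, ⟨by linarith [hτ.2], by linarith [hτ.1]⟩, neg_injective h2, fun t k1 k2 => ?_⟩
  have := h3 (1 - t) (by linarith) (by linarith)
  simpa using this

theorem IsAH.access [PathConnectedSpace X] (H : IsAH X) (p q : X) :
    JoinedIn (ball p (dist p q) ∪ {q}) p q := by
  obtain ⟨γ, hγ, h0, h1⟩ := exists_path p q
  obtain ⟨τ, hτ, h2, h3⟩ := first_hit (f := fun t => dist p (γ t)) (by fun_prop)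
    (a := dist p q) (by simp [h0]) (by simp [h1])
  obtain ⟨g, g1, g2⟩ := H.two h2
  have := joinedIn_of_path (F := ball p (dist p q) ∪ {q}) (γ := fun t => g (γ t))
    (g.continuous.comp hγ) (a := 0) (b := τ) (s := 0) (t := τ) ⟨le_rfl, hτ.1⟩ ⟨hτ.1, le_rfl⟩
    (fun u hu => by
      rcases eq_or_lt_of_le hu.2 with h | h
      · right; rw [h]; exact g2
      · left
        rw [mem_ball, dist_comm]
        conv_lhs => rw [← g1, g.dist_eq]
        exact h3 u hu.1 h)
  simpa only [h0, g1, g2] using this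

theorem IsAH.ball_path [PathConnectedSpace X] (H : IsAH X) (p q : X) :
    JoinedIn (closedBall p (dist p q)) p q :=
  (H.access p q).mono (by
    rintro y (hy | rfl)
    · exact ball_subset_closedBall hy
    · rw [mem_closedBall, dist_comm])

theorem IsAH.xpath [PathConnectedSpace X] (H : IsAH X) (c qR : X) {a : ℝ} (h0 : 0 < a)
    (h1 : a < dist c qR) : ∃ x : ℝ → X, Continuous x ∧ x 0 = c ∧ dist c (x 1) = dist c qR ∧
      ∃ σ0 : ℝ, ∀ σ ∈ Icc (0:ℝ) 1, dist c (x σ) = a → σ = σ0 := by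
  obtain ⟨γ, hγ, g0, g1⟩ := exists_path c qR
  have hf : Continuous fun t => dist c (γ t) := by fun_prop
  obtain ⟨τ1, hτ1, a1, b1⟩ := first_hit hf (a := a) (by simp [g0, h0.le]) (by simp [g1, h1.le])
  obtain ⟨τ2, hτ2, a2, b2⟩ := last_hit hf (a := a) (by simp [g0, h0.le]) (by simp [g1, h1.le])
  obtain ⟨g, k1, k2⟩ := H.two (a2.trans a1.symm)
  have hg : ∀ y, dist c (g y) = dist c y := fun y => by
    conv_lhs => rw [← k1, g.dist_eq]
  refine ⟨fun σ => if σ ≤ 1 / 2 then γ (2 * σ * τ1) else g (γ (τ2 + (2 * σ - 1) * (1 - τ2))),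
    ?_, by norm_num [g0], by norm_num [hg, g1], 1 / 2, fun σ hσ h => ?_⟩
  · refine Continuous.if_le (by fun_prop) (g.continuous.comp (by fun_prop)) continuous_id
      continuous_const fun σ hσ => ?_
    rw [hσ]; norm_num [k2]
  · have t1 : 0 < τ1 := by
      rcases eq_or_lt_of_le hτ1.1 with e | e
      · rw [← e, g0, dist_self] at a1; linarith
      · exact e
    have t2 : τ2 < 1 := by
      rcases eq_or_lt_of_le hτ2.2 with e | e
      · rw [e, g1] at a2; linarith
      · exact e
    rcases lt_trichotomy σ (1 / 2) with e | e | e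
    · simp only [if_pos e.le] at h
      have := b1 (2 * σ * τ1) (by have := hσ.1; positivity) (by nlinarith)
      linarith
    · exact e
    · simp only [if_neg (not_le.2 e), hg] at h
      have := b2 (τ2 + (2 * σ - 1) * (1 - τ2)) (by nlinarith) (by nlinarith [hσ.2])
      linarith

/-- Connected and locally connected gives path connected. -/
theorem IsAH.pathConnected [CompleteSpace X] [ConnectedSpace X] [LocallyConnectedSpace X]
    (H : IsAH X) : PathConnectedSpace X := by
  refine ⟨inferInstance, fun p q => Unif.joined (e0 := dist p q) ?_ le_rfl⟩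
  refine std_of_compact (K := Icc (0:ℝ) (dist p q)) (fun t => t) continuous_subtype_val
    (fun k ε hε => ?_) (fun e he => ⟨⟨e, he⟩, rfl⟩)
  obtain ⟨r, hr⟩ := k
  obtain ⟨w, rfl⟩ := realized p q hr.1 hr.2
  obtain ⟨V, hV, hVc, hVb⟩ := locallyConnectedSpace_iff_connected_subsets.1 inferInstance w _
    (ball_mem_nhds w hε)
  have hwV : w ∈ V := mem_of_mem_nhds hV
  have hf : Continuous fun y => dist p y := by fun_prop
  have trans : ∀ y, dist p y = dist p w → ∃ g : X ≃ᵢ X, (∀ v, dist p (g v) = dist p v) ∧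
      g '' V ∈ 𝓝 y := by
    intro y hy
    obtain ⟨g, g1, g2⟩ := H.two hy.symm
    refine ⟨g, fun v => ?_, g2 ▸ g.toHomeomorph.isOpenMap.image_mem_nhds hV⟩
    conv_lhs => rw [← g1, g.dist_eq]
  have up : ∃ δ > 0, ∀ s, dist p w ≤ s → s ≤ dist p q → s < dist p w + δ →
      ∃ v ∈ V, dist p v = s := by
    by_cases h : ∃ v ∈ V, dist p w < dist p v
    · obtain ⟨v, hv, h⟩ := h
      exact ⟨dist p v - dist p w, by linarith, fun s s1 _ s3 =>
        hVc.intermediate_value hwV hv hf.continuousOn ⟨s1, by linarith⟩⟩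
    · push Not at h
      have hcl : IsClopen {y | dist p y ≤ dist p w} := by
        refine ⟨isClosed_le hf continuous_const, isOpen_iff_mem_nhds.2 fun y hy => ?_⟩
        rcases eq_or_lt_of_le (show dist p y ≤ dist p w from hy) with e | e
        · obtain ⟨g, g1, g2⟩ := trans y e
          refine mem_of_superset g2 ?_
          rintro _ ⟨v, hv, rfl⟩
          show dist p (g v) ≤ _
          rw [g1]; exact h v hv
        · exact mem_of_superset ((isOpen_lt hf continuous_const).mem_nhds e)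
            fun z hz => show dist p z ≤ dist p w from le_of_lt hz
      have : q ∈ {y | dist p y ≤ dist p w} := by
        rw [hcl.eq_univ ⟨w, show dist p w ≤ dist p w from le_rfl⟩]; trivial
      exact ⟨1, one_pos, fun s s1 s2 _ => ⟨w, hwV, le_antisymm s1 (s2.trans this)⟩⟩
  have dn : ∃ δ > 0, ∀ s, 0 ≤ s → s ≤ dist p w → dist p w - δ < s →
      ∃ v ∈ V, dist p v = s := by
    by_cases h : ∃ v ∈ V, dist p v < dist p w
    · obtain ⟨v, hv, h⟩ := h
      exact ⟨dist p w - dist p v, by linarith, fun s _ s2 s3 =>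
        hVc.intermediate_value hv hwV hf.continuousOn ⟨by linarith, s2⟩⟩
    · push Not at h
      have hcl : IsClopen {y | dist p w ≤ dist p y} := by
        refine ⟨isClosed_le continuous_const hf, isOpen_iff_mem_nhds.2 fun y hy => ?_⟩
        rcases eq_or_lt_of_le (show dist p w ≤ dist p y from hy) with e | e
        · obtain ⟨g, g1, g2⟩ := trans y e.symm
          refine mem_of_superset g2 ?_
          rintro _ ⟨v, hv, rfl⟩
          show _ ≤ dist p (g v)
          rw [g1]; exact h v hv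
        · exact mem_of_superset ((isOpen_lt continuous_const hf).mem_nhds e)
            fun z hz => show dist p w ≤ dist p z from le_of_lt hz
      have : p ∈ {y | dist p w ≤ dist p y} := by
        rw [hcl.eq_univ ⟨w, show dist p w ≤ dist p w from le_rfl⟩]; trivial
      have h0 : dist p w ≤ 0 := by simpa using this
      exact ⟨1, one_pos, fun s s1 s2 _ => ⟨w, hwV, le_antisymm (h0.trans s1) s2⟩⟩
  obtain ⟨δ1, d1, up⟩ := up
  obtain ⟨δ2, d2, dn⟩ := dn
  filter_upwards [ball_mem_nhds _ (lt_min d1 d2)] with s hs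
  rw [mem_ball, Subtype.dist_eq, Real.dist_eq, lt_min_iff, abs_lt, abs_lt] at hs
  simp only at hs
  have : ∃ v ∈ V, dist p v = s := by
    rcases le_total (dist p w) s with e | e
    · exact up s e s.2.2 (by linarith [hs.1.2])
    · exact dn s s.2.1 e (by linarith [hs.2.1])
  obtain ⟨v, hv, hvs⟩ := this
  have hd : dist v w < ε := hVb hv
  rw [← hvs]
  exact ⟨H.cl (by rwa [dist_comm]), H.cl hd⟩

end Pool.Agent.Lib.AH
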