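import Pool.Agent.Lib.AH.Val

set_option autoImplicit false

namespace Pool.Agent.Lib.AH

open Set Filter Topology Metric TopologicalSpace

universe u

section

variable {X : Type*} [MetricSpace X]

/-- Chains with `n` steps of length at most `ε`. -/
inductive Ch (ε : ℝ) (x : X) : X → ℕ → Prop
  | refl : Ch ε x x 0
  | step {y z : X} {n : ℕ} : Ch ε x y n → dist y z ≤ ε → Ch ε x z (n + 1)

variable {ε : ℝ}

theorem Ch.trans {x y z : X} {m n : ℕ} (h : Ch ε x y m) (h' : Ch ε y z n) : Ch ε x z (m + n) := by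
  induction h' with
  | refl => exact h
  | step _ k ih => exact ih.step k

theorem Ch.map (g : X ≃ᵢ X) {x y : X} {n : ℕ} (h : Ch ε x y n) : Ch ε (g x) (g y) n := by
  induction h with
  | refl => exact Ch.refl
  | step _ k ih => exact ih.step (by rwa [g.dist_eq])

theorem Ch.dist_le {x y : X} {n : ℕ} (h : Ch ε x y n) : dist x y ≤ n * ε := by
  induction h with
  | refl => simp
  | @step y z n _ k ih => push_cast; linarith [dist_triangle x y z]

theorem Ch.split {x y : X} {n : ℕ} (h : Ch ε x y n) :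
    ∀ i ≤ n, ∃ m, Ch ε x m i ∧ Ch ε m y (n - i) := by
  induction h with
  | refl => intro i hi; exact ⟨x, by rw [Nat.le_zero.1 hi]; exact Ch.refl, by simpa using Ch.refl⟩
  | @step y z n h k ih =>
    intro i hi
    rcases Nat.lt_succ_iff_lt_or_eq.1 (Nat.lt_succ_of_le hi) with m | rfl
    · obtain ⟨m', m1, m2⟩ := ih i (by omega)
      exact ⟨m', m1, by rw [show n + 1 - i = n - i + 1 by omega]; exact m2.step k⟩
    · exact ⟨z, h.step k, by simpa using Ch.refl⟩

theorem exists_ch [PreconnectedSpace X] (hε : 0 < ε) (x y : X) : ∃ n, Ch ε x y n := by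
  have hc : IsClopen {y | ∃ n, Ch ε x y n} := by
    refine ⟨isOpen_compl_iff.1 (Metric.isOpen_iff.2 fun y hy => ⟨ε, hε, fun z hz ⟨n, hn⟩ =>
      hy ⟨n + 1, hn.step (mem_ball.1 hz).le⟩⟩), Metric.isOpen_iff.2 fun y ⟨n, hn⟩ =>
      ⟨ε, hε, fun z hz => ⟨n + 1, hn.step (mem_ball'.1 hz).le⟩⟩⟩
  exact (hc.eq_univ ⟨x, 0, Ch.refl⟩).ge (mem_univ y)

/-- The least number of steps. -/
noncomputable def cN (ε : ℝ) (x y : X) : ℕ := sInf {n | Ch ε x y n}

theorem Ch.le {x y : X} {n : ℕ} (h : Ch ε x y n) : cN ε x y ≤ n := Nat.sInf_le h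

variable [PathConnectedSpace X]

theorem cN_spec (hε : 0 < ε) (x y : X) : Ch ε x y (cN ε x y) :=
  Nat.sInf_mem (s := {n | Ch ε x y n}) (exists_ch hε x y)

theorem Ch.cut (H : IsAH X) (hε : 0 < ε) {x y : X} {n : ℕ} (h : Ch ε x y n) {e : ℝ} (h0 : 0 ≤ e) :
    e ≤ dist x y → ∃ i j u w, i + j = n ∧ dist x w = e ∧ Ch ε x w i ∧ dist x u ≤ e + ε ∧
      Ch ε u y j := by
  induction h with
  | refl =>
    intro h1
    rw [dist_self] at h1
    exact ⟨0, 0, x, x, rfl, by rw [dist_self]; linarith, Ch.refl, by rw [dist_self]; linarith,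
      Ch.refl⟩
  | @step y z n h k ih =>
    intro h1
    rcases le_total e (dist x y) with m | m
    · obtain ⟨i, j, u, w, a1, a2, a3, a4, a5⟩ := ih m
      exact ⟨i, j + 1, u, w, by omega, a2, a3, a4, a5.step k⟩
    · obtain ⟨γ, hγ, g0, g1, hm⟩ := exists_path_in (H.ball_path y z)
      obtain ⟨t, -, ht⟩ := intermediate_value_Icc (zero_le_one' ℝ) (f := fun t => dist x (γ t))
        (by fun_prop) (show e ∈ _ from ⟨by simp [g0, m], by simp [g1, h1]⟩)
      exact ⟨n + 1, 0, z, γ t, rfl, ht, h.step ((mem_closedBall'.1 (hm t)).trans k),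
        by linarith [dist_triangle x y z], Ch.refl⟩

theorem cN_mono (H : IsAH X) (hε : 0 < ε) {a b x y : X} (h : dist a b ≤ dist x y) :
    cN ε a b ≤ cN ε x y := by
  obtain ⟨i, j, u, w, a1, a2, a3, -⟩ := (cN_spec hε x y).cut H hε dist_nonneg h
  obtain ⟨g, rfl, rfl⟩ := H.two a2
  exact (a3.map g).le.trans (by omega)

theorem cN_super (H : IsAH X) (hε : 0 < ε) {a b a' b' x y : X}
    (h : dist a b + dist a' b' + ε ≤ dist x y) : cN ε a b + cN ε a' b' ≤ cN ε x y := by
  obtain ⟨i, j, u, w, a1, a2, a3, a4, a5⟩ := (cN_spec hε x y).cut H hε (e := dist a b) dist_nonneg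
    (by linarith [dist_nonneg (x := a') (y := b')])
  have k1 := (cN_mono H hε a2.ge).trans a3.le
  have k2 := (cN_mono H hε (a := a') (b := b') (by linarith [dist_triangle x u y])).trans a5.le
  omega

theorem cN_tri (hε : 0 < ε) (x y z : X) : cN ε x z ≤ cN ε x y + cN ε y z :=
  ((cN_spec hε x y).trans (cN_spec hε y z)).le

theorem cN_mul (H : IsAH X) (hε : 0 < ε) {a b x y : X} {M : ℕ} (h : Ch (dist a b) x y M) :
    cN ε x y ≤ M * cN ε a b := by
  induction h with
  | refl => simpa using (Ch.refl (ε := ε) (x := x)).le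
  | @step y z n _ k ih =>
    have k1 := cN_tri hε x y z
    have k2 := cN_mono H hε k
    rw [add_mul, one_mul]
    omega

theorem cN_many (H : IsAH X) (hε : 0 < ε) (a b : X) (j : ℕ) :
    ∀ x y : X, j * (dist a b + ε) ≤ dist x y → j * cN ε a b ≤ cN ε x y := by
  induction j with
  | zero => intro x y _; simp
  | succ j ih =>
    intro x y h
    push_cast at h
    have p0 : 0 ≤ dist a b + ε := by positivity
    obtain ⟨w, hw⟩ := realized x y (s := j * (dist a b + ε)) (by positivity) (by linarith)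
    have k1 := ih x w hw.ge
    have k2 := cN_super H hε (a := x) (b := w) (a' := a) (b' := b) (x := x) (y := y) (by linarith)
    rw [add_mul, one_mul]
    omega

theorem IsAH.exists_len (H : IsAH X) {p q : X} (hpq : p ≠ q) : ∃ D : X → X → ℝ,
    (∀ x, D x x = 0) ∧ (∀ x y z, D x z ≤ D x y + D y z) ∧
    (∀ a b x y, dist a b ≤ dist x y ↔ D a b ≤ D x y) ∧
    (∀ η > 0, ∃ δ > 0, ∀ a b, dist a b < δ → D a b < η) ∧
    ∀ x y, ∀ η > 0, ∃ m, D x m ≤ D x y / 2 + η ∧ D m y ≤ D x y / 2 + η := by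
  have d0 := dist_pos.2 hpq
  let e : ℕ → ℝ := fun k => 1 / ((k : ℝ) + 1)
  have e0 : ∀ k, 0 < e k := fun k => Nat.one_div_pos_of_nat
  have e1 : Tendsto e UU (𝓝 0) := tendsto_one_div_add_atTop_nhds_zero_nat.mono_left UU_le
  have b0 : ∀ k, dist p q ≤ cN (e k) p q * e k := fun k => (cN_spec (e0 k) p q).dist_le
  have b1 : ∀ k, (0:ℝ) < cN (e k) p q := fun k =>
    (mul_pos_iff_of_pos_right (e0 k)).1 (d0.trans_le (b0 k))
  have ex : ∀ x y : X, ∃ r, Tendsto (fun k => (cN (e k) x y : ℝ) / cN (e k) p q) UU (𝓝 r) :=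
    fun x y => by
    obtain ⟨M, hM⟩ := exists_ch d0 x y
    obtain ⟨r, -, hr⟩ := exists_ulim (fun k => (cN (e k) x y : ℝ) / cN (e k) p q) (a := 0) (b := M)
      fun k => ⟨by positivity, (div_le_iff₀ (b1 k)).2 (by exact_mod_cast cN_mul H (e0 k) hM)⟩
    exact ⟨r, hr⟩
  choose D hD using ex
  have Dpq : D p q = 1 := tendsto_nhds_unique (hD p q)
    (tendsto_const_nhds.congr fun k => (div_self (b1 k).ne').symm)
  have self : ∀ x, D x x = 0 := fun x => tendsto_nhds_unique (hD x x)
    (tendsto_const_nhds.congr fun k => by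
      rw [Nat.le_zero.1 (Ch.refl (ε := e k) (x := x)).le]; simp)
  have tri : ∀ x y z, D x z ≤ D x y + D y z := fun x y z =>
    le_of_tendsto_of_tendsto' (hD x z) ((hD x y).add (hD y z)) fun k => by
      rw [← add_div]
      exact div_le_div_of_nonneg_right (by exact_mod_cast cN_tri (e0 k) x y z) (b1 k).le
  have mono : ∀ a b x y, dist a b ≤ dist x y → D a b ≤ D x y := fun a b x y h =>
    le_of_tendsto_of_tendsto' (hD a b) (hD x y) fun k =>
      div_le_div_of_nonneg_right (by exact_mod_cast cN_mono H (e0 k) h) (b1 k).le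
  have pos : ∀ a b, 0 < dist a b → 0 < D a b := fun a b h => by
    obtain ⟨M, hM⟩ := exists_ch h p q
    have : D p q ≤ M * D a b :=
      le_of_tendsto_of_tendsto' (hD p q) ((hD a b).const_mul (M : ℝ)) fun k => by
        rw [← mul_div_assoc]
        exact div_le_div_of_nonneg_right (by exact_mod_cast cN_mul H (e0 k) hM) (b1 k).le
    by_contra k
    linarith [mul_nonpos_of_nonneg_of_nonpos (Nat.cast_nonneg (α := ℝ) M) (not_lt.1 k)]
  have strict : ∀ a b x y, dist a b < dist x y → D a b < D x y := fun a b x y h => by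
    have n0 := dist_nonneg (x := a) (y := b)
    obtain ⟨w, hw⟩ := realized x y (s := (dist x y - dist a b) / 2) (by linarith) (by linarith)
    have : D a b + D x w ≤ D x y := by
      refine le_of_tendsto_of_tendsto ((hD a b).add (hD x w)) (hD x y) ?_
      filter_upwards [e1.eventually (gt_mem_nhds (show 0 < (dist x y - dist a b) / 2 by linarith))]
        with k hk
      rw [← add_div]
      exact div_le_div_of_nonneg_right (by exact_mod_cast cN_super H (e0 k) (by linarith)) (b1 k).le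
    linarith [pos x w (by linarith)]
  have small : ∀ η > 0, ∃ δ > 0, ∀ a b, dist a b < δ → D a b < η := fun η hη => by
    obtain ⟨j, hj⟩ := exists_nat_gt (1 / η)
    have j0 : (0:ℝ) < j := lt_trans (by positivity) hj
    refine ⟨dist p q / (2 * j), by positivity, fun a b h => ?_⟩
    have : j * D a b ≤ D p q := by
      refine le_of_tendsto_of_tendsto ((hD a b).const_mul (j : ℝ)) (hD p q) ?_
      filter_upwards [e1.eventually (gt_mem_nhds (show 0 < dist p q / (2 * j) by positivity))]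
        with k hk
      rw [← mul_div_assoc]
      have c : (j:ℝ) * (dist a b + e k) ≤ dist p q :=
        calc (j:ℝ) * (dist a b + e k) ≤ j * (dist p q / (2 * j) + dist p q / (2 * j)) := by gcongr
          _ = dist p q := by field_simp; norm_num
      exact div_le_div_of_nonneg_right (by exact_mod_cast cN_many H (e0 k) a b j p q c) (b1 k).le
    rw [div_lt_iff₀ hη] at hj
    exact lt_of_mul_lt_mul_left (by linarith) j0.le
  have iff : ∀ a b x y, dist a b ≤ dist x y ↔ D a b ≤ D x y := fun a b x y =>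
    ⟨mono a b x y, fun h => le_of_not_gt fun k => absurd (strict _ _ _ _ k) (not_lt.2 h)⟩
  refine ⟨D, self, tri, iff, small, fun x y η hη => ?_⟩
  have nn : 0 ≤ D x y := by rw [← self x]; exact mono _ _ _ _ (by simp)
  rcases le_total (D x y) (D x y / 2 + η) with k | k
  · exact ⟨x, by rw [self]; linarith, k⟩
  have Dc : Continuous (D x) := Metric.continuous_iff.2 fun a η hη => by
    obtain ⟨δ, δ0, h⟩ := small η hη
    refine ⟨δ, δ0, fun b hb => ?_⟩
    rw [Real.dist_eq, abs_lt]
    constructor <;> linarith [tri x a b, tri x b a, h b a hb, h a b (by rwa [dist_comm])]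
  obtain ⟨w, hw⟩ := intermediate_value_univ x y Dc
    (show D x y / 2 + η ∈ _ from ⟨by rw [self]; linarith, k⟩)
  by_contra hno
  push Not at hno
  have : D x w ≤ D x y / 2 + 0 / dist p q := by
    refine le_of_tendsto_of_tendsto' (hD x w) (((hD x y).div_const 2).add
      (e1.div_const (dist p q))) fun k => ?_
    obtain ⟨m, m1, m2⟩ := (cN_spec (e0 k) x y).split (cN (e k) x y / 2) (Nat.div_le_self _ _)
    have k1 : 2 * cN (e k) x w ≤ cN (e k) x y + 2 := by
      rcases le_total (D x w) (D x m) with c | c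
      · have := (cN_mono H (e0 k) ((iff _ _ _ _).2 c)).trans m1.le
        omega
      · have := (cN_mono H (e0 k) ((iff _ _ _ _).2 (hw.le.trans (hno m (hw ▸ c)).le))).trans m2.le
        omega
    have k2 : 2 * (cN (e k) x w : ℝ) ≤ cN (e k) x y + 2 := by exact_mod_cast k1
    have k3 : 1 / (cN (e k) p q : ℝ) ≤ e k / dist p q := by
      rw [div_le_div_iff₀ (b1 k) d0]; linarith [b0 k]
    calc (cN (e k) x w : ℝ) / cN (e k) p q ≤ (cN (e k) x y / 2 + 1) / cN (e k) p q :=
          div_le_div_of_nonneg_right (by linarith) (b1 k).le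
      _ = cN (e k) x y / cN (e k) p q / 2 + 1 / cN (e k) p q := by ring
      _ ≤ _ := by linarith
  rw [zero_div] at this
  linarith

end

/-- A copy of a type. -/
def Cp (X : Type u) : Type u := X

theorem IsAH.exists_copy {X : Type u} [MetricSpace X] [PathConnectedSpace X] (H : IsAH X)
    {p q : X} (hpq : p ≠ q) : ∃ (T : Type u) (_ : MetricSpace T) (e : X ≃ᵤ T), AM T ∧
      ∀ a b x y, dist a b ≤ dist x y ↔ dist (e a) (e b) ≤ dist (e x) (e y) := by
  obtain ⟨D, h1, h2, h3, h4, h5⟩ := H.exists_len hpq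
  have hc : ∀ x y, D x y = D y x := fun x y =>
    le_antisymm ((h3 _ _ _ _).1 (dist_comm x y).le) ((h3 _ _ _ _).1 (dist_comm y x).le)
  have h0 : ∀ x y, D x y = 0 → x = y := fun x y h => by
    have := (h3 x y x x).2 (by rw [h1]; exact le_of_eq h)
    rw [dist_self] at this
    exact dist_le_zero.1 this
  let m : MetricSpace (Cp X) :=
    { dist := D
      dist_self := h1
      dist_comm := hc
      dist_triangle := h2
      eq_of_dist_eq_zero := fun {x y} => h0 x y }
  refine ⟨Cp X, m, ⟨Equiv.refl X, Metric.uniformContinuous_iff.2 fun η hη => ?_,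
    Metric.uniformContinuous_iff.2 fun η hη => ?_⟩, h5, h3⟩
  · obtain ⟨δ, δ0, h⟩ := h4 η hη
    exact ⟨δ, δ0, fun {a b} k => h a b k⟩
  · have d0 := dist_pos.2 hpq
    obtain ⟨w, hw⟩ := realized p q (s := min η (dist p q)) (lt_min hη d0).le (min_le_right _ _)
    refine ⟨D p w, lt_of_not_ge fun k => ?_, fun {a b} k => ?_⟩
    · have := (h3 p w p p).2 (by rwa [h1])
      rw [dist_self, hw] at this
      exact absurd (lt_min hη d0) (not_lt.2 this)
    · exact (lt_of_not_ge fun c => absurd ((h3 p w a b).1 c) (not_le.2 k)).trans_le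
        (hw.le.trans (min_le_left _ _))

theorem IsAH.classify {X : Type u} [MetricSpace X] [CompleteSpace X] [PathConnectedSpace X]
    (H : IsAH X) (hN : ¬ LocallyCompactSpace X) :
    ∃ (T : Type u) (_ : MetricSpace T) (e : X ≃ T) (g : ℝ → ℝ) (k : ℕ), CompleteSpace T ∧
      IsTree T k ∧ ContinuousOn g (Ici 0) ∧ StrictMonoOn g (Ici 0) ∧
      (∀ x y, dist x y = g (dist (e x) (e y))) ∧ (AM X → ∀ t, g t = t) := by
  by_cases hA : AM X
  · obtain ⟨k, hk⟩ := H.tree hA hN
    exact ⟨X, inferInstance, Equiv.refl X, id, k, inferInstance, hk, continuousOn_id,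
      strictMonoOn_id, fun _ _ => rfl, fun _ _ => rfl⟩
  obtain ⟨z, t, ht, -, h2⟩ := nc_of_not hN 1 one_pos
  obtain ⟨i, j, -, hij, -⟩ := three_of_sep h2
  obtain ⟨T, _, e, hT, he⟩ := H.exists_copy (dist_pos.1 (ht.trans hij))
  have : CompleteSpace T := e.completeSpace_iff.1 inferInstance
  have eq : ∀ a b x y, dist a b = dist x y ↔ dist (e a) (e b) = dist (e x) (e y) :=
    fun a b x y => by simp only [le_antisymm_iff, he]
  have HT : IsAH T := fun R hR => by
    obtain ⟨g, hg⟩ := H ((fun r : T × T => (e.symm r.1, e.symm r.2)) '' R) (by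
      rintro _ ⟨a, ha, rfl⟩ _ ⟨b, hb, rfl⟩
      rw [eq]
      simpa using hR a ha b hb)
    refine ⟨⟨e.symm.toEquiv.trans (g.toEquiv.trans e.toEquiv), Isometry.of_dist_eq fun a b => ?_⟩,
      fun r hr => ?_⟩
    · simpa using (eq _ _ _ _).1 (g.dist_eq (e.symm a) (e.symm b))
    · show e (g (e.symm r.1)) = r.2
      rw [show g (e.symm r.1) = e.symm r.2 from hg _ ⟨r, hr, rfl⟩]
      simp
  obtain ⟨k, hk⟩ := HT.tree hT fun h => hN (e.toHomeomorph.locallyCompactSpace_iff.2 h)
  have ex : ∀ s : ℝ, ∃ v, (0 ≤ s → ∃ a b, dist (e a) (e b) = s ∧ dist a b = v) := fun s => by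
    by_cases k : 0 ≤ s
    · obtain ⟨a, b, h⟩ := hk.unb s k
      exact ⟨_, fun _ => ⟨e.symm a, e.symm b, by simpa using h, rfl⟩⟩
    · exact ⟨0, fun k' => absurd k' k⟩
  choose g hg using ex
  have gd : ∀ x y, dist x y = g (dist (e x) (e y)) := fun x y => by
    obtain ⟨a, b, h1, h2⟩ := hg (dist (e x) (e y)) dist_nonneg
    rw [← h2]; exact ((eq _ _ _ _).2 h1).symm
  refine ⟨T, inferInstance, e.toEquiv, g, k, inferInstance, hk, fun s hs => ?_,
    fun s hs s' hs' h => ?_, gd, fun h => absurd h hA⟩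
  · obtain ⟨a, b, hab⟩ := hk.unb (s + 1) (by linarith [mem_Ici.1 hs])
    obtain ⟨γ, hγ⟩ := hk.seg a b
    have c1 := hγ.cont
    have c2 := e.symm.uniformContinuous.continuous
    have c3 : ContinuousOn g (Ici 0 ∩ Iic (s + 1)) :=
      (show Continuous fun t => dist (e.symm a) (e.symm (γ t)) by fun_prop).continuousOn.congr
        fun t ht => by
          simp only [gd, UniformEquiv.apply_symm_apply]
          rw [hγ.left ht.1 (hab ▸ ht.2)]
    exact (c3 s ⟨hs, (lt_add_one s).le⟩).mono_of_mem_nhdsWithin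
      (inter_mem_nhdsWithin _ (Iic_mem_nhds (lt_add_one s)))
  · obtain ⟨a, b, h1, h2⟩ := hg s hs
    obtain ⟨a', b', h3, h4⟩ := hg s' hs'
    rw [← h2, ← h4]
    exact lt_of_not_ge fun c => absurd ((he _ _ _ _).1 c) (by rw [h1, h3]; exact not_le.2 h)

end Pool.Agent.Lib.AH
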