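import Pool.Agent.Lib.AH.Rig

set_option autoImplicit false

namespace Pool.Agent.Lib.AH

open Set Filter Topology Metric TopologicalSpace

variable {X : Type*} [MetricSpace X]

/-- Two segments from `m` with no common initial part form one segment. -/
def Shp (X : Type*) [MetricSpace X] (r : ℝ) : Prop :=
  ∀ x m w : X, dist x m + dist m w ≤ r → mu m x w ≤ 0 → Col x m w

/-- A tripod with legs of length `b`. -/
def Tri (X : Type*) [MetricSpace X] (b : ℝ) : Prop :=
  ∃ M A B C : X, dist M A = b ∧ dist M B = b ∧ dist M C = b ∧ Col A M B ∧ Col A M C ∧ Col B M C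

theorem cmp {r : ℝ} (hG : Geo X r) (hU : Uni X r) {z z' j j' : X} (hr : dist z z' ≤ r)
    (h : Col z j z') (h' : Col z j' z') (hle : dist z j ≤ dist z j') : Col z j j' := by
  obtain ⟨k, k1, k2⟩ := hG z j' (h'.le1.trans hr) _ dist_nonneg hle
  rwa [hU z z' k j hr (k1.trans h') h k2] at k1

theorem cmp' {r : ℝ} (hG : Geo X r) (hU : Uni X r) {z z' j j' : X} (hr : dist z z' ≤ r)
    (h : Col z j z') (h' : Col z j' z') : Ray z j j' :=
  (le_total _ _).imp (cmp hG hU hr h h') (cmp hG hU hr h' h)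

section loc

variable [CompleteSpace X] {r : ℝ}

theorem Ctx.kappa (C : Ctx X r) {P M V V' : X} {a : ℝ} (h1 : Col P M V) (h2 : Col P M V')
    (a1 : dist P M = a) (a2 : dist M V = a) (a3 : dist M V' = a) (h0 : mu M V V' ≤ 0) (ha : a ≤ r)
    {ε : ℝ} (hε : 0 < ε) (hεa : ε ≤ a / 2) : ∃ δ > 0, ∀ x y y' : X, ε ≤ dist x y → dist x y ≤ a →
      dist y y' ≤ δ → dist x y - ε ≤ mu x y y' := by
  obtain ⟨γ, hγ⟩ := C.geo.seg (x := M) (y := V) (by linarith)
  obtain ⟨γ', hγ'⟩ := C.geo.seg (x := M) (y := V') (by linarith)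
  have c1 := hγ.cont
  have c2 := hγ'.cont
  have l1 : ∀ s, 0 ≤ s → s ≤ a → dist M (γ s) = s := fun s k k' => hγ.left k (by linarith)
  have l2 : ∀ s, 0 ≤ s → s ≤ a → dist M (γ' s) = s := fun s k k' => hγ'.left k (by linarith)
  have κ0 : 0 < dist (γ ε) (γ' ε) := dist_pos.2 fun e => by
    have := le_mu (hγ.col hε.le (by linarith)) (e ▸ hγ'.col hε.le (by linarith))
    rw [l1 ε hε.le (by linarith)] at this
    linarith
  have κ1 : dist (γ ε) (γ' ε) ≤ 2 * ε := by
    linarith [dist_triangle_left (γ ε) (γ' ε) M, l1 ε hε.le (by linarith), l2 ε hε.le (by linarith)]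
  refine ⟨_, half_pos κ0, fun x y y' k1 k2 k3 => ?_⟩
  have ab := abs_dist_sub_le y y' x
  rw [dist_comm y x, dist_comm y' x] at ab
  have ab' := abs_le.1 ab
  obtain ⟨s0, s1, s2, s3, s4⟩ : ∃ s0, 0 ≤ s0 ∧ dist x y - dist x y' ≤ s0 ∧ s0 ≤ ε ∧
      2 * s0 + (dist x y' - dist x y) ≤ dist y y' := by
    rcases le_total (dist x y) (dist x y') with k | k
    · exact ⟨0, le_rfl, by linarith, hε.le, by linarith⟩
    · exact ⟨_, by linarith, le_rfl, by linarith, by linarith⟩
  obtain ⟨s, hs, ht⟩ := intermediate_value_Icc s3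
    (f := fun s => dist (γ s) (γ' (s + (dist x y' - dist x y)))) (by fun_prop)
    (show dist y y' ∈ _ from ⟨by
      linarith [dist_triangle_left (γ s0) (γ' (s0 + (dist x y' - dist x y))) M,
        l1 s0 s1 (by linarith), l2 (s0 + (dist x y' - dist x y)) (by linarith) (by linarith)], by
      have m := hγ'.iso (ε + (dist x y' - dist x y)) ⟨by linarith, by linarith⟩ ε
        ⟨hε.le, by linarith⟩
      rw [add_sub_cancel_left, abs_sub_comm] at m
      linarith [dist_triangle (γ ε) (γ' (ε + (dist x y' - dist x y))) (γ' ε)]⟩)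
  simp only at ht
  have t1 : 0 ≤ s := s1.trans hs.1
  have t2 : 0 ≤ s + (dist x y' - dist x y) := by linarith [hs.1]
  have t3 := hs.2
  obtain ⟨p, p1, p2⟩ := C.geo M P (by rw [dist_comm]; linarith) (dist x y - s) (by linarith)
    (by rw [dist_comm M]; linarith)
  rw [dist_comm] at p2
  have d1 := (p1.symm.cut h1).left (hγ.col t1 (by linarith))
  have d2 := (p1.symm.cut h2).left (hγ'.col t2 (by linarith))
  have f1 : _ = _ := d1
  have f2 : _ = _ := d2
  rw [l1 s t1 (by linarith)] at f1
  rw [l2 _ t2 (by linarith)] at f2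
  rw [← C.H.mu_eq (a := p) (a' := x) (by linarith) (by linarith) ht]
  linarith [le_mu d1 d2]

theorem Ctx.ultra (C : Ctx X r) (U : Uni X r) {x b : X} (hb : dist x b ≤ r) (a c : X) :
    min (mu x b a) (mu x b c) ≤ mu x a c := by
  obtain ⟨m, m1, m2, m3⟩ := C.meet' hb a
  obtain ⟨n, n1, n2, n3⟩ := C.meet' hb c
  rcases cmp' C.geo U hb m1 n1 with k | k
  · exact (min_le_left _ _).trans (m3 ▸ le_mu m2 (k.trans n2))
  · exact (min_le_right _ _).trans (n3 ▸ le_mu (k.trans m2) n2)

theorem Ctx.shp (C : Ctx X r) (U : Uni X r) {a : ℝ} (ha : a ≤ r)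
    (hκ : ∀ ε > 0, ε ≤ a / 2 → ∃ δ > 0, ∀ x y y' : X, ε ≤ dist x y → dist x y ≤ a →
      dist y y' ≤ δ → dist x y - ε ≤ mu x y y') : Shp X (a / 2) := by
  intro x m w hs h0
  have n1 := dist_nonneg (x := x) (y := m)
  rcases eq_or_lt_of_le (dist_nonneg (x := m) (y := w)) with w0 | w0
  · rw [dist_eq_zero.1 w0.symm]; exact col_right _ _
  rcases eq_or_lt_of_le n1 with x0 | x0
  · rw [dist_eq_zero.1 x0.symm]; exact col_left _ _
  obtain ⟨γ, hγ⟩ := C.geo.seg (x := m) (y := w) (by linarith)
  have ht : ∀ t, 0 ≤ t → t ≤ dist m w → dist x (γ t) ≤ a / 2 := fun t k k' => by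
    linarith [dist_triangle x m (γ t), hγ.left k k']
  have const : ∀ t, 0 < t → t ≤ dist m w → mu x (γ t) m = mu x w m := fun t t0 t1 => by
    let c : ℝ → ℝ := fun u => max t (min (dist m w) u)
    have c0 : ∀ u, 0 < c u := fun u => t0.trans_le (le_max_left _ _)
    have c1 : ∀ u, c u ≤ dist m w := fun u => max_le t1 (min_le_left _ _)
    have cc : Continuous fun u => γ (c u) := hγ.cont.comp (by fun_prop)
    have hl : IsLocallyConstant fun u => mu x (γ (c u)) m := by
      refine (IsLocallyConstant.iff_eventually_eq _).2 fun u => ?_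
      have k0 := ht _ (c0 u).le (c1 u)
      have k1 : mu x (γ (c u)) m < dist x (γ (c u)) := by
        obtain ⟨n, m1, m2, m3⟩ := C.meet' (p := x) (v := γ (c u)) (by linarith) m
        refine lt_of_le_of_ne (mu_le_left _ _ _) fun e => ?_
        rw [m1.eq_of (m3.trans e).ge] at m2
        have := le_mu m2.symm (hγ.col (c0 u).le (c1 u))
        rw [hγ.left (c0 u).le (c1 u)] at this
        linarith [c0 u]
      have k2 := mu_nonneg x (γ (c u)) m
      obtain ⟨δ, δ0, hδ⟩ := hκ ((dist x (γ (c u)) - mu x (γ (c u)) m) / 2) (by linarith)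
        (by linarith)
      filter_upwards [Metric.continuousAt_iff'.1 (cc.continuousAt (x := u)) _ δ0] with u' hu'
      have k3 := hδ x (γ (c u)) (γ (c u')) (by linarith) (by linarith)
        (by rw [dist_comm]; exact hu'.le)
      have k4 := C.ultra U (x := x) (b := γ (c u)) (by linarith) (γ (c u')) m
      have k5 := C.ultra U (x := x) (b := γ (c u'))
        (by linarith [ht _ (c0 u').le (c1 u')]) (γ (c u)) m
      rw [min_eq_right (by linarith)] at k4
      rw [mu_comm x (γ (c u'))] at k5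
      exact le_antisymm ((min_le_iff.1 k5).resolve_left (by linarith)) k4
    have := hl.apply_eq_of_preconnectedSpace t (dist m w)
    simpa only [c, min_eq_right t1, max_self, min_self, max_eq_right t1, hγ.h1] using this
  have key : dist x m ≤ mu x m w := by
    refine le_of_forall_pos_le_add fun ε hε => ?_
    obtain ⟨δ, δ0, hδ⟩ := hκ (min ε (dist x m)) (lt_min hε x0) ((min_le_right _ _).trans
      (by linarith))
    have t0 : 0 < min δ (dist m w) := lt_min δ0 w0
    have := hδ x m (γ (min δ (dist m w))) (min_le_right _ _) (by linarith)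
      (by rw [hγ.left t0.le (min_le_right _ _)]; exact min_le_left _ _)
    rw [mu_comm, const _ t0 (min_le_right _ _), mu_comm] at this
    linarith [min_le_left ε (dist x m)]
  obtain ⟨n, m1, m2, m3⟩ := C.meet' (p := x) (v := m) (by linarith) w
  rwa [m1.eq_of (m3 ▸ key)] at m2

theorem Ctx.start (C : Ctx X r) (U : Uni X r) (hN : ¬ NBr X r) :
    ∃ b > 0, 2 * b ≤ r ∧ Shp X (2 * b) ∧ Tri X b := by
  unfold NBr at hN
  push Not at hN
  obtain ⟨x, y, z, z', hxy, hr, h1, h2, he, hne⟩ := hN
  obtain ⟨m, m1, m2, m3, m4⟩ := C.meet hr h1 h2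
  have e1 : _ = _ := h1
  have e2 : _ = _ := h2
  have e3 : _ = _ := m1
  have e4 : _ = _ := m2
  have g0 : 0 < dist m z := dist_pos.2 fun e => hne (e ▸ m2.eq_of (by rw [e]; linarith))
  have g1 : 0 < dist x m := (dist_pos.2 hxy).trans_le m3.le1
  have b0 := C.base hr m1 m2
  set a := min (dist x m) (dist m z) with ha
  have a0 : 0 < a := lt_min g1 g0
  have a1 : a ≤ dist x m := min_le_left _ _
  have a2 : a ≤ dist m z := min_le_right _ _
  have pick : ∀ s, 0 ≤ s → s ≤ a → ∃ P V V', Col P m V ∧ Col P m V' ∧ dist m P = s ∧ dist m V = s ∧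
      dist m V' = s ∧ mu m V V' ≤ 0 := fun s s0 s1 => by
    obtain ⟨P, p1, p2⟩ := C.geo m x (by rw [dist_comm]; linarith) s s0 (by rw [dist_comm m]; linarith)
    obtain ⟨V, v1, v2⟩ := C.geo m z (by linarith) s s0 (by linarith)
    obtain ⟨V', w1, w2⟩ := C.geo m z' (by linarith) s s0 (by linarith)
    exact ⟨P, V, V', (p1.symm.cut m1).left v1, (p1.symm.cut m2).left w1, p2, v2, w2,
      by linarith [mu_mono v1 w1]⟩
  obtain ⟨P, V, V', p1, p2, p3, p4, p5, p6⟩ := pick a a0.le le_rfl
  have S := C.shp U (a := a) (by linarith) fun ε hε hεa =>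
    C.kappa p1 p2 (by rw [dist_comm, p3]) p4 p5 p6 (by linarith) hε hεa
  obtain ⟨P, V, V', p1, p2, p3, p4, p5, p6⟩ := pick (a / 4) (by linarith) (by linarith)
  refine ⟨a / 4, by linarith, by linarith, by rwa [show 2 * (a / 4) = a / 2 by ring],
    m, P, V, V', p3, p4, p5, p1, p2, S _ _ _ (by rw [dist_comm V]; linarith) p6⟩

end loc

/-- The space is a tree at scale `r`. -/
structure Good (X : Type*) [MetricSpace X] (b r : ℝ) : Prop where
  H : IsAH X
  pos : 0 < b
  le : b ≤ r
  tri : Tri X b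
  geo : Geo X r
  uni : Uni X r
  shp : Shp X r

variable {b r : ℝ}

theorem Good.leg [PreconnectedSpace X] (G : Good X b r) (M A : X) (hA : dist M A ≤ r) {s : ℝ}
    (s0 : 0 ≤ s) (s1 : s ≤ r) {p q : X} (s2 : s ≤ dist p q) : ∃ x, dist M x = s ∧ Ray M A x := by
  rcases le_total s (dist M A) with k | k
  · obtain ⟨x, x1, x2⟩ := G.geo M A hA s s0 k
    exact ⟨x, x2, Or.inr x1⟩
  · obtain ⟨x, x1, x2⟩ := G.H.ext_of G.geo (p := p) (q := q) M A (s - dist M A) (by linarith)
      (by linarith) (by linarith)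
    have : _ = _ := x1
    exact ⟨x, by linarith, Or.inl x1⟩

theorem Good.legs (G : Good X b r) {M A B x y : X} (h : Col A M B) (hA : dist M A = b)
    (hB : dist M B = b) (hx : Ray M A x) (hy : Ray M B y) (hr : dist M x + dist M y ≤ r) :
    Col x M y := by
  have n1 := dist_nonneg (x := M) (y := x)
  have n2 := dist_nonneg (x := M) (y := y)
  refine G.shp x M y (by rwa [dist_comm x]) (mu_le fun j j1 j2 => ?_)
  obtain ⟨k, k1, k2⟩ := G.geo M j (by linarith [j1.le1]) (min (dist M j) b)
    (le_min dist_nonneg G.pos.le) (min_le_left _ _)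
  have key : ∀ A x, dist M A = b → Ray M A x → dist M x ≤ r → Col M j x → Col M k A :=
    fun A x a1 a2 a3 a4 => a2.elim
      (fun c => cmp G.geo G.uni a3 (k1.trans a4) c (by rw [k2, a1]; exact min_le_right _ _))
      fun c => (k1.trans a4).trans c
  have c1 : _ = _ := key A x hA hx (by linarith) j1
  have c2 : _ = _ := key B y hB hy (by linarith) j2
  have c3 : _ = _ := h
  rw [dist_comm A M] at c3
  have c4 : min (dist M j) b ≤ 0 := by linarith [dist_triangle_left A B k]
  exact (min_le_iff.1 c4).resolve_right (not_le.2 G.pos)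

theorem Good.med [PreconnectedSpace X] (G : Good X b r) {x y z : X} (h1 : dist x y ≤ r)
    (h2 : dist x z ≤ r) (h3 : dist y z ≤ r) : ∃ k, Col x k y ∧ Col x k z ∧ Col y k z := by
  obtain ⟨M, A, B, C, a1, a2, a3, c1, c2, c3⟩ := G.tri
  have t1 := dist_triangle x y z
  have t2 := dist_triangle_left y z x
  have t3 := dist_triangle_right x y z
  obtain ⟨x', x1, x2⟩ := G.leg M A (a1 ▸ G.le) (s := (dist x y + dist x z - dist y z) / 2)
    (by linarith) (by linarith) (p := x) (q := y) (by linarith)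
  obtain ⟨y', y1, y2⟩ := G.leg M B (a2 ▸ G.le) (s := (dist x y + dist y z - dist x z) / 2)
    (by linarith) (by linarith) (p := x) (q := y) (by linarith)
  obtain ⟨z', z1, z2⟩ := G.leg M C (a3 ▸ G.le) (s := (dist x z + dist y z - dist x y) / 2)
    (by linarith) (by linarith) (p := x) (q := z) (by linarith)
  have d1 := G.legs c1 a1 a2 x2 y2 (by linarith)
  have d2 := G.legs c2 a1 a3 x2 z2 (by linarith)
  have d3 := G.legs c3 a2 a3 y2 z2 (by linarith)
  have e1 : _ = _ := d1
  have e2 : _ = _ := d2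
  have e3 : _ = _ := d3
  rw [dist_comm _ M] at e1 e2 e3
  obtain ⟨g, rfl, rfl, rfl⟩ := G.H.three (a := x') (b := y') (c := z') (a' := x) (b' := y) (c' := z)
    (by linarith) (by linarith) (by linarith)
  exact ⟨g M, d1.map g, d2.map g, d3.map g⟩

theorem Good.near [PreconnectedSpace X] (G : Good X b r) {x y z z' : X} {ε : ℝ}
    (h1 : dist x z = r / 2) (h2 : dist x z' = r / 2) (h3 : dist z y ≤ dist x y - r / 2 + ε)
    (h4 : dist z' y ≤ dist x y - r / 2 + ε) (h5 : dist x y - r / 2 + ε ≤ r) :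
    dist z z' ≤ 2 * ε := by
  have n0 := dist_nonneg (x := x) (y := z)
  have d0 : dist z z' ≤ r := by linarith [dist_triangle_left z z' x]
  obtain ⟨j, j1, j2, j3⟩ := G.med (x := z) (y := z') (z := x) d0 (by rw [dist_comm]; linarith)
    (by rw [dist_comm]; linarith)
  obtain ⟨k, k1, k2, k3⟩ := G.med (x := z) (y := z') (z := y) d0 (by linarith) (by linarith)
  have m := (cmp' G.geo G.uni d0 j1 k1).dist
  have t1 := dist_triangle x z y
  have t2 := dist_triangle x z' y
  have t3 := dist_triangle4 x j k y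
  unfold Col at j1 j2 j3 k1 k2 k3
  rw [dist_comm z x, dist_comm j x] at j2
  rw [dist_comm z' x, dist_comm j x, dist_comm z' j] at j3
  rw [dist_comm z' k] at k3
  have : |dist z j - dist z k| ≤ ε / 2 := by
    rw [abs_le]; constructor <;> linarith
  linarith

variable [CompleteSpace X]

theorem Good.geo' (G : Good X b r) (hA : AM X) : Geo X (4 / 3 * r) := by
  intro x y hr t t0 t1
  rcases le_total (dist x y) r with k | k
  · exact G.geo x y k t t0 t1
  have : Nonempty X := ⟨x⟩
  have := hA.pathConnected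
  have r0 := G.pos.trans_le G.le
  have e0 : ∀ n : ℕ, 0 < r / 6 / 2 ^ n := fun n => by positivity
  have e1 : ∀ n : ℕ, r / 6 / 2 ^ n ≤ r / 6 := fun n =>
    div_le_self (by positivity) (one_le_pow₀ one_le_two)
  choose z z1 z2 using fun n => hA.nb x y (t := r / 2) (by linarith) (by linarith) (e0 n)
  have hc : CauchySeq z := by
    refine cauchySeq_of_le_geometric_two (C := 2 * (r / 3)) fun n => ?_
    have k1 : r / 6 / 2 ^ (n + 1) ≤ r / 6 / 2 ^ n := by gcongr <;> norm_num
    refine (G.near (z1 n) (z1 (n + 1)) (z2 n) ((z2 (n + 1)).trans (by linarith))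
      (by linarith [e1 n])).trans (le_of_eq ?_)
    ring
  obtain ⟨w, hw⟩ := cauchySeq_tendsto_of_complete hc
  have w1 : dist x w = r / 2 := tendsto_nhds_unique (tendsto_const_nhds.dist hw)
    (tendsto_const_nhds.congr fun n => (z1 n).symm)
  have w2 : dist w y ≤ dist x y - r / 2 + 0 :=
    le_of_tendsto_of_tendsto' (hw.dist tendsto_const_nhds) (tendsto_const_nhds.add
      (tendsto_const_nhds.div_atTop (tendsto_pow_atTop_atTop_of_one_lt one_lt_two))) z2
  have w3 : Col x w y := col_of_le (by linarith)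
  have w4 : _ = _ := w3
  rcases le_total t (r / 2) with m | m
  · obtain ⟨u, u1, u2⟩ := G.geo x w (by linarith) t t0 (by linarith)
    exact ⟨u, u1.trans w3, u2⟩
  · obtain ⟨u, u1, u2⟩ := G.geo w y (by linarith) (t - r / 2) (by linarith) (by linarith)
    have : _ = _ := w3.left u1
    exact ⟨u, w3.right u1, by linarith⟩

theorem Good.uni' (G : Good X b r) (hA : AM X) : Uni X (4 / 3 * r) := by
  intro x y u u' hr h h' he
  rcases le_total (dist x y) r with k | k
  · exact G.uni x y u u' k h h' he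
  have : Nonempty X := ⟨x⟩
  have := hA.pathConnected
  have r0 := G.pos.trans_le G.le
  have key : ∀ z z', Col x z y → Col x z' y → dist x z = r / 2 → dist x z' = r / 2 → z = z' :=
    fun z z' a1 a2 a3 a4 => by
      have b1 : _ = _ := a1
      have b2 : _ = _ := a2
      have := G.near (y := y) (ε := 0) a3 a4 (by linarith) (by linarith) (by linarith)
      exact dist_le_zero.1 (by linarith)
  have e1 : _ = _ := h
  have e2 : _ = _ := h'
  rcases le_total (dist x u) (r / 2) with m | m
  · have n0 := dist_nonneg (x := x) (y := u)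
    obtain ⟨z, z1, z2⟩ := G.geo' hA u y (h.le2.trans hr) (r / 2 - dist x u) (by linarith)
      (by linarith)
    obtain ⟨z', w1, w2⟩ := G.geo' hA u' y (h'.le2.trans hr) (r / 2 - dist x u) (by linarith)
      (by linarith)
    have b1 : _ = _ := h.left z1
    have b2 : _ = _ := h'.left w1
    have := key z z' (h.right z1) (h'.right w1) (by linarith) (by linarith)
    exact G.uni x z u u' (by linarith) (h.left z1) (this ▸ h'.left w1) he
  · obtain ⟨z, z1, z2⟩ := G.geo' hA x u (h.le1.trans hr) (r / 2) (by linarith) m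
    obtain ⟨z', w1, w2⟩ := G.geo' hA x u' (h'.le1.trans hr) (r / 2) (by linarith) (he ▸ m)
    obtain rfl := key z z' (z1.trans h) (w1.trans h') z2 w2
    have b1 : _ = _ := z1
    have b2 : _ = _ := w1
    have b3 : _ = _ := z1.trans h
    exact G.uni z y u u' (by linarith) (z1.cut h) (w1.cut h') (by linarith)

theorem Good.shp1 (G : Good X b r) (hA : AM X) {x m w : X} (hs : dist x m + dist m w ≤ 4 / 3 * r)
    (h0 : mu m x w ≤ 0) (h1 : dist m x ≤ r) (h2 : dist m w ≤ 2 / 3 * r) : Col x m w := by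
  have : Nonempty X := ⟨x⟩
  have := hA.pathConnected
  have r0 := G.pos.trans_le G.le
  have zero : ∀ j, Col m j x → Col m j w → j = m := fun j a1 a2 =>
    (dist_le_zero.1 ((le_mu a1 a2).trans h0)).symm
  rcases le_total (dist x w) r with k | k
  · obtain ⟨j, j1, j2, j3⟩ := G.med (x := m) (y := x) (z := w) h1 (by linarith) k
    rwa [zero j j1 j2] at j3
  have t1 := dist_triangle x m w
  obtain ⟨z, z1, z2⟩ := G.geo' hA x w (by linarith) r r0.le k
  have z3 : _ = _ := z1
  have z4 : dist m z ≤ r := by linarith [dist_triangle_right m z w]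
  obtain ⟨j, j1, j2, j3⟩ := G.med (x := m) (y := z) (z := x) z4 h1 (by rw [dist_comm, z2])
  obtain ⟨j', i1, i2, i3⟩ := G.med (x := m) (y := z) (z := w) z4 (by linarith) (by linarith)
  rcases cmp' G.geo G.uni z4 j1 i1 with c | c
  · rw [zero j j2 (c.trans i2)] at j3
    exact j3.symm.trans z1
  · rw [zero j' (c.trans j2) i2] at i3
    exact z1.right i3

theorem Good.shp2 (G : Good X b r) (hA : AM X) {x m w : X} (hs : dist x m + dist m w ≤ 4 / 3 * r)
    (h0 : mu m x w ≤ 0) (h1 : dist m x ≤ r) (h2 : dist m w ≤ r) : Col x m w := by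
  rcases le_total (dist m w) (2 / 3 * r) with k | k
  · exact G.shp1 hA hs h0 h1 k
  · exact (G.shp1 hA (by rw [dist_comm w, dist_comm m x]; linarith) (mu_comm m x w ▸ h0) h2
      (by rw [dist_comm]; linarith)).symm

theorem Good.shp3 (G : Good X b r) (hA : AM X) {x m w : X} (hs : dist x m + dist m w ≤ 4 / 3 * r)
    (h0 : mu m x w ≤ 0) (h1 : r ≤ dist m x) : Col x m w := by
  have r0 := G.pos.trans_le G.le
  have n0 := dist_nonneg (x := m) (y := w)
  rw [dist_comm x] at hs
  obtain ⟨y, y1, y2⟩ := G.geo' hA m x (by linarith) (r / 2) (by linarith) (by linarith)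
  have y3 : _ = _ := y1
  have c1 := G.shp y m w (by rw [dist_comm y]; linarith)
    ((mu_mono y1 (col_right _ _)).trans h0)
  have c2 : _ = _ := c1
  rw [dist_comm y m] at c2
  have c3 := G.shp2 hA (x := x) (m := y) (w := w) (by rw [dist_comm x]; linarith)
    (mu_le fun j j1 j2 => by
      have d1 : _ = _ := j1
      rcases cmp' G.geo G.uni (by linarith) j2 c1 with c | c
      · have d2 : _ = _ := c
        rw [dist_comm y m, dist_comm j m] at d2
        linarith [dist_triangle m j x]
      · linarith [(c.trans j1).le2]) (by linarith) (by linarith)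
  exact c3.right c1

theorem Good.step (G : Good X b r) (hA : AM X) : Good X b (4 / 3 * r) := by
  have r0 := G.pos.trans_le G.le
  refine ⟨G.H, G.pos, by linarith [G.le], G.tri, G.geo' hA, G.uni' hA, fun x m w hs h0 => ?_⟩
  rcases le_total r (dist m x) with k | k
  · exact G.shp3 hA hs h0 k
  rcases le_total r (dist m w) with k' | k'
  · exact (G.shp3 hA (by rw [dist_comm w, dist_comm m x]; linarith) (mu_comm m x w ▸ h0) k').symm
  · exact G.shp2 hA hs h0 k k'

theorem Good.all (G : Good X b r) (hA : AM X) (R : ℝ) : ∃ R', R ≤ R' ∧ Good X b R' := by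
  have r0 := G.pos.trans_le G.le
  have key : ∀ n : ℕ, Good X b ((4 / 3) ^ n * r) := fun n => by
    induction n with
    | zero => simpa using G
    | succ n ih => rw [pow_succ', mul_assoc]; exact ih.step hA
  obtain ⟨n, hn⟩ := pow_unbounded_of_one_lt (R / r) (show (1:ℝ) < 4 / 3 by norm_num)
  exact ⟨_, ((div_lt_iff₀ r0).1 hn).le, key n⟩

end Pool.Agent.Lib.AH
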