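import Pool.Agent.Lib.AH.Tree

set_option autoImplicit false

namespace Pool.Agent.Lib.AH

open Set Filter Topology Metric TopologicalSpace

variable {X : Type*} [MetricSpace X]

theorem nc_of_not [CompleteSpace X] (hN : ¬ LocallyCompactSpace X) :
    NC (univ : Set X) := by
  intro η hη
  obtain ⟨x, hno⟩ : ∃ x : X, ¬ IsCompact (closedBall x (η / 2)) := by
    by_contra h
    push Not at h
    have : WeaklyLocallyCompactSpace X :=
      ⟨fun x => ⟨_, h x, closedBall_mem_nhds x (half_pos hη)⟩⟩
    exact hN inferInstance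
  rw [isCompact_iff_totallyBounded_isComplete, and_iff_left isClosed_closedBall.isComplete,
    totallyBounded_iff_subset] at hno
  push Not at hno
  obtain ⟨d, hd, hno⟩ := hno
  obtain ⟨ε, hε, hεd⟩ := Metric.mem_uniformity_dist.1 hd
  have hstep : ∀ F : Finset X, (∀ y ∈ F, y ∈ closedBall x (η / 2)) →
      ∃ z, z ∈ closedBall x (η / 2) ∧ ∀ y ∈ F, ε ≤ dist z y := by
    intro F hF
    by_contra h
    push Not at h
    refine hno F hF F.finite_toSet fun z hz => ?_
    obtain ⟨y, hy, hzy⟩ := h z hz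
    exact mem_iUnion₂.2 ⟨y, hy, hεd hzy⟩
  obtain ⟨y, hy1, hy2⟩ := exists_seq_of_forall_finset_exists
    (fun z => z ∈ closedBall x (η / 2)) (fun y z => ε ≤ dist z y) hstep
  refine ⟨y, ε / 2, half_pos hε, fun j => ⟨mem_univ _, ?_⟩, Eventually.of_forall fun l => ?_⟩
  · linarith [dist_triangle_right (y 0) (y j) x, mem_closedBall.1 (hy1 0), mem_closedBall.1 (hy1 j)]
  · filter_upwards [UU_le (eventually_gt_atTop l)] with j hj
    rw [dist_comm]
    linarith [hy2 l j hj]

/-- A geodesic space with the four point condition, unbounded, of constant valence `k`. -/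
structure IsTree (X : Type*) [MetricSpace X] (k : ℕ) : Prop where
  seg : ∀ a b : X, ∃ γ, Seg γ a b
  four : ∀ a b c d : X, dist a b + dist c d ≤ max (dist a c + dist b d) (dist a d + dist b c)
  three : 3 ≤ k
  val : ∀ t : X, Nat.card (ConnectedComponents ({t}ᶜ : Set X)) = k
  unb : ∀ s, 0 ≤ s → ∃ a b : X, dist a b = s

theorem IsAH.tree [CompleteSpace X] (H : IsAH X) (hA : AM X) (hN : ¬ LocallyCompactSpace X) :
    ∃ k, IsTree X k := by
  have nc := nc_of_not hN
  obtain ⟨z, t, ht, -, h2⟩ := nc 1 one_pos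
  obtain ⟨i, j, -, hij, -⟩ := three_of_sep h2
  obtain ⟨r, r0, r1, hg⟩ := H.geo_small hA (dist_pos.1 (ht.trans hij))
  have : Nonempty X := ⟨z 0⟩
  have := hA.pathConnected
  have C : Ctx X r := ⟨H, hg, fun x y t h0 h1 => H.ext_of hg x y t h0 h1 (h1.trans r1)⟩
  have C' : Ctx X (r / 2) := C.mono (by linarith)
  have hB : ¬ NBr X (r / 2) := fun hB => by
    have e : 6 * (r / 12) = r / 2 := by ring
    exact Rg.false (ρ := r / 12) ⟨by linarith, e ▸ C', e ▸ C.uni, e ▸ hB, nc⟩
  obtain ⟨b, b0, b1, hS, hT⟩ := C'.start C.uni hB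
  have G : Good X b (2 * b) := ⟨H, b0, by linarith, hT, C'.geo.mono b1, C.uni.mono b1, hS⟩
  have all := G.all hA
  have seg : ∀ a b : X, ∃ γ, Seg γ a b := fun a b => by
    obtain ⟨R, h, G⟩ := all (dist a b)
    exact G.geo.seg h
  have med : ∀ x y z : X, ∃ k, Col x k y ∧ Col x k z ∧ Col y k z := fun x y z => by
    obtain ⟨R, h, G⟩ := all (max (dist x y) (max (dist x z) (dist y z)))
    simp only [max_le_iff] at h
    exact G.med h.1 h.2.1 h.2.2
  have four : ∀ a b c d : X,
      dist a b + dist c d ≤ max (dist a c + dist b d) (dist a d + dist b c) := fun a b c d => by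
    obtain ⟨j, j1, j2, j3⟩ := med d c a
    obtain ⟨k, k1, k2, k3⟩ := med d c b
    obtain ⟨R, h, G⟩ := all (dist d c)
    rcases cmp' G.geo G.uni h j1 k1 with m | m
    · have m1 := m.trans k2
      unfold Col at j1 j2 j3 m1
      refine le_max_of_le_left ?_
      linarith [dist_triangle_left a b j, dist_comm c d, dist_comm a c, dist_comm b d,
        dist_comm c j]
    · have m1 := m.trans j2
      unfold Col at k1 k2 k3 m1
      refine le_max_of_le_right ?_
      linarith [dist_triangle_left a b k, dist_comm c d, dist_comm a d, dist_comm b c,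
        dist_comm c k]
  have tri : ∀ t : X, ∃ A B C : X, dist t A = b ∧ dist t B = b ∧ dist t C = b ∧ Col A t B ∧
      Col A t C ∧ Col B t C := fun t => by
    obtain ⟨M, A, B, C, a1, a2, a3, c1, c2, c3⟩ := hT
    obtain ⟨g, rfl⟩ := H.one M t
    exact ⟨g A, g B, g C, by rwa [g.dist_eq], by rwa [g.dist_eq], by rwa [g.dist_eq],
      c1.map g, c2.map g, c3.map g⟩
  have same : ∀ (t : X) (u v : ({t}ᶜ : Set X)), ¬ Col u.1 t v.1 →
      ConnectedComponents.mk u = ConnectedComponents.mk v := fun t u v h => by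
    obtain ⟨γ, hγ⟩ := seg u.1 v.1
    have k := joinedIn_of_path (F := {t}ᶜ) hγ.cont (a := 0) (b := dist u.1 v.1)
      ⟨dist_nonneg, le_rfl⟩ ⟨le_rfl, dist_nonneg⟩ fun s hs e => h (by
        have c := hγ.col hs.1 hs.2
        rwa [mem_singleton_iff.1 e] at c)
    rw [hγ.h0, hγ.h1] at k
    exact ConnectedComponents.coe_eq_coe'.2 (pathComponent_subset_component _ k.joined_subtype)
  have diff : ∀ (t : X) (u v : ({t}ᶜ : Set X)), Col u.1 t v.1 →
      ConnectedComponents.mk u ≠ ConnectedComponents.mk v := fun t u v h e => by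
    have hc : IsClopen {w : ({t}ᶜ : Set X) | Col u.1 t w.1} := by
      refine ⟨isClosed_eq (by fun_prop) (by fun_prop), Metric.isOpen_iff.2 fun w hw =>
        ⟨dist t w.1, dist_pos.2 (Ne.symm w.2), fun w' hw' => col_of_le ?_⟩⟩
      have k1 : dist w'.1 w.1 < dist t w.1 := hw'
      have k2 : _ = _ := hw
      rcases le_max_iff.1 (four u.1 w.1 t w'.1) with k | k
      · linarith [dist_comm w.1 w'.1, dist_nonneg (x := t) (y := w'.1)]
      · linarith [dist_comm w.1 t]
    have k : _ = _ := hc.connectedComponent_subset h (ConnectedComponents.coe_eq_coe'.1 e)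
    rw [dist_self, dist_comm t] at k
    exact u.2 (dist_eq_zero.1 (by linarith))
  have fin : ∀ t : X, Finite (ConnectedComponents ({t}ᶜ : Set X)) := fun t => by
    by_contra hf
    rw [not_finite_iff_infinite] at hf
    let f := Infinite.natEmbedding (ConnectedComponents ({t}ᶜ : Set X))
    have hx : ∀ i, ∃ x : ({t}ᶜ : Set X), dist t x.1 = b ∧ ConnectedComponents.mk x = f i := by
      intro i
      obtain ⟨u, hu⟩ := ConnectedComponents.surjective_coe (f i)
      obtain ⟨R, h, G⟩ := all (dist t u.1)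
      obtain ⟨A, -, -, hA, -⟩ := tri t
      obtain ⟨x, x1, x2⟩ := G.leg t u.1 h b0.le G.le hA.ge
      refine ⟨⟨x, (dist_pos.1 (x1 ▸ b0)).symm⟩, x1, (same t _ u fun k => ?_).trans hu⟩
      have k1 : _ = _ := k
      have k2 := x2.dist
      have k3 := dist_pos.2 (Ne.symm u.2)
      rw [dist_comm] at k2
      simp only [dist_comm x t] at k1
      rcases abs_cases (dist t u.1 - dist t x) with m | m <;> linarith [m.1]
    choose x x1 x2 using hx
    refine H.no_equi (s := 2 * b) (by linarith) fun n => ⟨fun i => x i, fun i _ j _ hij => ?_⟩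
    have k : Col (x i).1 t (x j).1 := by
      by_contra k
      exact hij (f.injective (by rw [← x2, ← x2, same t _ _ k]))
    have k1 : _ = _ := k
    rw [dist_comm _ t, x1, x1] at k1
    linarith
  have le : ∀ t t' : X, Nat.card (ConnectedComponents ({t'}ᶜ : Set X)) ≤
      Nat.card (ConnectedComponents ({t}ᶜ : Set X)) := fun t t' => by
    obtain ⟨g, rfl⟩ := H.one t t'
    have := fin t
    have hc : Continuous fun w : ({t}ᶜ : Set X) =>
        (⟨g w, fun e => w.2 (g.injective e)⟩ : ({g t}ᶜ : Set X)) := by fun_prop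
    refine Nat.card_le_card_of_surjective _ (hc.connectedComponentsMap_surjective fun w => ?_)
    exact ⟨⟨g.symm w, fun e => w.2 ((g.apply_symm_apply w).symm.trans (congrArg g e))⟩,
      Subtype.ext (by simp)⟩
  refine ⟨_, seg, four, ?_, fun t => le_antisymm (le (z 0) t) (le t (z 0)), fun s s0 => ?_⟩
  · obtain ⟨A, B, C, a1, a2, a3, c1, c2, c3⟩ := tri (z 0)
    have := fin (z 0)
    have m : ∀ A, dist (z 0) A = b → A ∈ ({z 0}ᶜ : Set X) := fun A h => (dist_pos.1 (h ▸ b0)).symm
    have d1 := diff _ ⟨A, m A a1⟩ ⟨B, m B a2⟩ c1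
    have d2 := diff _ ⟨A, m A a1⟩ ⟨C, m C a3⟩ c2
    have d3 := diff _ ⟨B, m B a2⟩ ⟨C, m C a3⟩ c3
    have := Nat.card_le_card_of_injective (![ConnectedComponents.mk ⟨A, m A a1⟩,
      ConnectedComponents.mk ⟨B, m B a2⟩, ConnectedComponents.mk ⟨C, m C a3⟩] :
        Fin 3 → ConnectedComponents ({z 0}ᶜ : Set X)) fun i j h => by
      fin_cases i <;> fin_cases j <;>
        first | rfl | exact absurd h d1 | exact absurd h d2 | exact absurd h d3
              | exact absurd h d1.symm | exact absurd h d2.symm | exact absurd h d3.symm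
    simpa using this
  · have key : ∀ n : ℕ, ∃ x y : X, n * b ≤ dist x y := fun n => by
      induction n with
      | zero => exact ⟨z 0, z 0, by simp⟩
      | succ n ih =>
        obtain ⟨x, y, h⟩ := ih
        obtain ⟨A, B, -, a1, a2, -, c1, -⟩ := tri y
        have c2 : _ = _ := c1
        rw [dist_comm A y] at c2
        push_cast
        rcases le_max_iff.1 (four x y A B) with k | k
        · exact ⟨x, A, by linarith⟩
        · exact ⟨x, B, by linarith⟩
    obtain ⟨n, hn⟩ := exists_nat_ge (s / b)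
    obtain ⟨x, y, h⟩ := key n
    obtain ⟨w, hw⟩ := realized x y s0 (((div_le_iff₀ b0).1 hn).trans h)
    exact ⟨x, w, hw⟩

end Pool.Agent.Lib.AH
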